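import Mathlib

/-!
Parametrised surfaces `f : ℂ → ℝ³`: fundamental forms, conformal constant mean curvature discs.
-/

open Complex Matrix

namespace Pool.Agent.Lib.MP_c3ed84_gt

/-- The derivative of `f` in the direction `v`, as a function of the base point. -/
noncomputable def D (f : ℂ → Fin 3 → ℝ) (v : ℂ) : ℂ → Fin 3 → ℝ := fun z => fderiv ℝ f z v

/-- First fundamental form of `f` at `z`. -/
noncomputable def fst (f : ℂ → Fin 3 → ℝ) (z v w : ℂ) : ℝ := D f v z ⬝ᵥ D f w z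

/-- Unit normal `(f_x × f_y) / |f_x × f_y|`. -/
noncomputable def normal (f : ℂ → Fin 3 → ℝ) (z : ℂ) : Fin 3 → ℝ :=
  (√((D f 1 z ⨯₃ D f I z) ⬝ᵥ (D f 1 z ⨯₃ D f I z)))⁻¹ • (D f 1 z ⨯₃ D f I z)

/-- Second fundamental form of `f` at `z`: `⟨∂_v ∂_w f, N⟩`. -/
noncomputable def snd (f : ℂ → Fin 3 → ℝ) (z v w : ℂ) : ℝ := D (D f w) v z ⬝ᵥ normal f z

/-- On the closed unit disc `f` is a conformal immersion (`E = G > 0`, `F = 0`) of constant mean
curvature `H` (`L + N = 2 H E`). -/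
def IsConformalCMC (f : ℂ → Fin 3 → ℝ) (H : ℝ) : Prop :=
  ∀ z : ℂ, ‖z‖ ≤ 1 → 0 < fst f z 1 1 ∧ fst f z I I = fst f z 1 1 ∧ fst f z 1 I = 0 ∧
    snd f z 1 1 + snd f z I I = 2 * H * fst f z 1 1

/-- Umbilical points in the open disc: the second fundamental form is a multiple of the first. -/
def umbilics (f : ℂ → Fin 3 → ℝ) : Set ℂ :=
  {z | ‖z‖ < 1 ∧ ∃ k : ℝ, ∀ v w, snd f z v w = k * fst f z v w}

/-- Points `z` of the unit circle where `⟨N, f z - c⟩ = -H r ^ 2` and the outward conormal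
direction `∂_z f` makes an obtuse angle with the radius vector `f z - c`. -/
def bigCapContacts (f : ℂ → Fin 3 → ℝ) (H : ℝ) (c : Fin 3 → ℝ) (r : ℝ) : Set ℂ :=
  {z | ‖z‖ = 1 ∧ normal f z ⬝ᵥ (f z - c) = -H * r ^ 2 ∧ D f z z ⬝ᵥ (f z - c) < 0}

end Pool.Agent.Lib.MP_c3ed84_gt
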