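import Mathlib

/-!
Boundary crossing lemma for holomorphic functions on the closed unit disc.
-/

open Complex Metric Set Filter Topology

namespace Pool.Agent.Lib.MP_c3ed84_gt

/-- `G` is real `C^1` and complex differentiable at every point of the closed unit disc. -/
def Nice (G : ℂ → ℂ) : Prop :=
  ∀ z ∈ closedBall (0 : ℂ) 1, ContDiffAt ℝ 1 G z ∧ DifferentiableAt ℂ G z

/-- Boundary points where `G` lies on the positive imaginary axis and does not cross it
clockwise. -/
def Cross (G : ℂ → ℂ) : Set ℂ :=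
  {z | ‖z‖ = 1 ∧ (G z).re = 0 ∧ 0 < (G z).im ∧ (fderiv ℝ G z (I * z)).re ≤ 0}

theorem Nice.continuousOn {G : ℂ → ℂ} (h : Nice G) : ContinuousOn G (closedBall 0 1) :=
  fun z hz => (h z hz).2.continuousAt.continuousWithinAt

theorem Nice.analyticOnNhd {G : ℂ → ℂ} (h : Nice G) : AnalyticOnNhd ℂ G (ball 0 1) := by
  apply DifferentiableOn.analyticOnNhd _ isOpen_ball
  exact fun z hz => (h z (ball_subset_closedBall hz)).2.differentiableWithinAt

theorem Nice.mul {G F : ℂ → ℂ} (h : Nice G) (h' : Nice F) : Nice (fun z => G z * F z) :=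
  fun z hz => ⟨(h z hz).1.mul (h' z hz).1, (h z hz).2.mul (h' z hz).2⟩

theorem nice_of_analytic {G : ℂ → ℂ} (h : ∀ z ∈ closedBall (0 : ℂ) 1, AnalyticAt ℂ G z) :
    Nice G :=
  fun z hz => ⟨((h z hz).contDiffAt (n := 1)).restrict_scalars ℝ, (h z hz).differentiableAt⟩

theorem Nice.isOpen_image {G : ℂ → ℂ} (h : Nice G) {a : ℂ} (ha : a ∈ ball (0 : ℂ) 1)
    (h0 : G a = 0) (hne : ∃ z ∈ ball (0 : ℂ) 1, G z ≠ 0) : IsOpen (G '' ball 0 1) := by
  rcases h.analyticOnNhd.is_constant_or_isOpen (convex_ball 0 1).isPreconnected with ⟨w, hw⟩ | ho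
  · obtain ⟨z, hz, hz'⟩ := hne
    exact absurd ((hw z hz).trans ((hw a ha).symm.trans h0)) hz'
  · exact ho _ subset_rfl isOpen_ball

theorem exists_above {S : Set ℂ} (hS : IsOpen S) {w : ℂ} (hw : w ∈ S) (d : ℂ) :
    ∃ s : ℝ, 0 < s ∧ w + s * d ∈ S := by
  have hc : Continuous fun s : ℝ => w + (s : ℂ) * d := by fun_prop
  have h1 : ∀ᶠ s : ℝ in 𝓝 0, w + (s : ℂ) * d ∈ S := by
    apply hc.continuousAt.eventually_mem
    simpa using hS.mem_nhds hw
  have h2 : ∀ᶠ s : ℝ in 𝓝[>] 0, w + (s : ℂ) * d ∈ S := h1.filter_mono nhdsWithin_le_nhds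
  obtain ⟨s, hs, hs'⟩ := (h2.and self_mem_nhdsWithin).exists
  exact ⟨s, hs', hs⟩

/-- At a boundary point where `G` crosses the vertical line clockwise, values just above `G z` are
taken inside the disc. -/
theorem exists_inside {G : ℂ → ℂ} (h : Nice G) {z : ℂ} (hz : ‖z‖ = 1)
    (hpos : 0 < (fderiv ℝ G z (I * z)).re) :
    ∃ s : ℝ, 0 < s ∧ ∃ y ∈ ball (0 : ℂ) 1, G y = G z + s * I := by
  have hzc : z ∈ closedBall (0 : ℂ) 1 := by simp [hz]
  obtain ⟨h1, h2⟩ := h z hzc
  set d := deriv G z with hd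
  have hfd : ∀ v, fderiv ℝ G z v = v * d := by
    intro v
    rw [h2.fderiv_restrictScalars ℝ]
    simp [hd]
  have hs : HasStrictDerivAt G d z := by
    have h3 := (h1.hasStrictFDerivAt one_ne_zero).isLittleO
    rw [hasStrictDerivAt_iff_hasStrictFDerivAt]
    apply HasStrictFDerivAt.of_isLittleO
    simpa [hfd] using h3
  rw [hfd] at hpos
  have hd0 : d ≠ 0 := by
    rintro h0
    simp [h0] at hpos
  set g := hs.localInverse G d z hd0 with hg
  have hgd : HasDerivAt g d⁻¹ (G z) := (hs.to_localInverse hd0).hasDerivAt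
  have hgz : g (G z) = z := (hs.eventually_left_inverse hd0).self_of_nhds
  have hline : HasDerivAt (fun s : ℝ => G z + (s : ℂ) * I) I 0 := by
    simpa using ((hasDerivAt_id (0 : ℝ)).ofReal_comp.mul_const I).const_add (G z)
  have hcurve : HasDerivAt (fun s : ℝ => g (G z + (s : ℂ) * I)) (d⁻¹ * I) 0 := by
    have h4 : HasDerivAt g d⁻¹ ((fun s : ℝ => G z + (s : ℂ) * I) 0) := by simpa using hgd
    have := (h4.hasFDerivAt.restrictScalars ℝ).comp_hasDerivAt (0 : ℝ) hline
    simpa [Function.comp_def, mul_comm] using this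
  have hn : HasDerivAt (fun s : ℝ => ‖g (G z + (s : ℂ) * I)‖ ^ 2)
      (2 * inner ℝ z (d⁻¹ * I)) 0 := by
    have := hcurve.norm_sq
    simpa [hgz] using this
  have hneg : 2 * inner ℝ z (d⁻¹ * I) < 0 := by
    have hnd : 0 < normSq d := normSq_pos.2 hd0
    have : inner ℝ z (d⁻¹ * I) = -(I * z * d).re / normSq d := by
      simp [Complex.inner, Complex.inv_re, Complex.inv_im]
      field_simp
    rw [this]
    have := div_pos hpos hnd
    rw [neg_div]
    linarith
  have hev1 : ∀ᶠ s : ℝ in 𝓝[>] 0, ‖g (G z + (s : ℂ) * I)‖ ^ 2 < 1 := by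
    have h5 := hn.tendsto_slope_zero_right
    have h6 := h5.eventually (gt_mem_nhds hneg)
    filter_upwards [h6, self_mem_nhdsWithin] with s hs1 hs2
    have hs2' : 0 < s := hs2
    simp only [zero_add, ofReal_zero, zero_mul, add_zero, hgz, hz, one_pow, smul_eq_mul] at hs1
    have := (mul_neg_iff.1 hs1).resolve_right (fun h => absurd h.1 (not_lt.2 (inv_pos.2 hs2').le))
    linarith [this.2]
  have hev2 : ∀ᶠ s : ℝ in 𝓝[>] 0, G (g (G z + (s : ℂ) * I)) = G z + (s : ℂ) * I := by
    have h7 : Tendsto (fun s : ℝ => G z + (s : ℂ) * I) (𝓝 0) (𝓝 (G z)) := by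
      simpa using hline.continuousAt.tendsto
    exact (h7.eventually (hs.eventually_right_inverse hd0)).filter_mono nhdsWithin_le_nhds
  obtain ⟨s, ⟨hs1, hs2⟩, hs3⟩ := ((hev1.and hev2).and self_mem_nhdsWithin).exists
  refine ⟨s, hs3, _, ?_, hs2⟩
  rw [mem_ball_zero_iff]
  nlinarith [norm_nonneg (g (G z + (s : ℂ) * I))]

/-- Base case: a non-zero function with an interior zero has a crossing point. -/
theorem cross_nonempty {G : ℂ → ℂ} (h : Nice G) {a : ℂ} (ha : a ∈ ball (0 : ℂ) 1)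
    (h0 : G a = 0) (hne : ∃ z ∈ ball (0 : ℂ) 1, G z ≠ 0) : (Cross G).Nonempty := by
  have hopen := h.isOpen_image ha h0 hne
  set Z : Set ℂ := closedBall 0 1 ∩ (fun z => (G z).re) ⁻¹' {0} with hZ
  have hcre : ContinuousOn (fun z => (G z).re) (closedBall 0 1) :=
    continuous_re.comp_continuousOn h.continuousOn
  have hZc : IsCompact Z := by
    apply (isCompact_closedBall (0 : ℂ) 1).of_isClosed_subset _ inter_subset_left
    exact hcre.preimage_isClosed_of_isClosed isClosed_closedBall isClosed_singleton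
  have hcim : ContinuousOn (fun z => (G z).im) Z :=
    (continuous_im.comp_continuousOn h.continuousOn).mono inter_subset_left
  have haZ : a ∈ Z := ⟨ball_subset_closedBall ha, by simp [h0]⟩
  obtain ⟨z, hz, hmax⟩ := hZc.exists_isMaxOn ⟨a, haZ⟩ hcim
  have key : ∀ s : ℝ, 0 < s → ∀ x ∈ Z, ∀ y ∈ ball (0 : ℂ) 1, G y = G x + s * I →
      (G x).im < (G z).im := by
    intro s hs x hx y hy hxy
    have hx2 : (G x).re = 0 := hx.2
    have hyZ : y ∈ Z := ⟨ball_subset_closedBall hy, by simp [hxy, hx2]⟩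
    have h1 : (G y).im ≤ (G z).im := hmax hyZ
    rw [hxy] at h1
    simp at h1
    linarith
  have key2 : ∀ x ∈ Z, x ∈ ball (0 : ℂ) 1 → (G x).im < (G z).im := by
    intro x hx hxb
    obtain ⟨s, hs, y, hy, hxy⟩ := exists_above hopen (mem_image_of_mem G hxb) I
    exact key s hs x hx y hy hxy
  have hzb : z ∉ ball (0 : ℂ) 1 := fun hb => lt_irrefl _ (key2 z hz hb)
  have hz1 : ‖z‖ = 1 := by
    have h1 := hz.1
    rw [mem_closedBall_zero_iff] at h1
    rw [mem_ball_zero_iff] at hzb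
    linarith [not_lt.1 hzb]
  refine ⟨z, hz1, hz.2, by simpa [h0] using key2 a haZ ha, ?_⟩
  by_contra hc
  obtain ⟨s, hs, y, hy, hxy⟩ := exists_inside h hz1 (not_le.1 hc)
  exact lt_irrefl _ (key s hs z hz y hy hxy)

/-- A non-zero function with an interior zero has negative real part somewhere on the circle. -/
theorem exists_re_neg {G : ℂ → ℂ} (h : Nice G) {a : ℂ} (ha : a ∈ ball (0 : ℂ) 1)
    (h0 : G a = 0) (hne : ∃ z ∈ ball (0 : ℂ) 1, G z ≠ 0) : ∃ z, ‖z‖ = 1 ∧ (G z).re < 0 := by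
  have hopen := h.isOpen_image ha h0 hne
  have hcre : ContinuousOn (fun z => (G z).re) (closedBall 0 1) :=
    continuous_re.comp_continuousOn h.continuousOn
  obtain ⟨z, hz, hmin⟩ := (isCompact_closedBall (0 : ℂ) 1).exists_isMinOn
    ⟨a, ball_subset_closedBall ha⟩ hcre
  have key2 : ∀ x ∈ ball (0 : ℂ) 1, (G z).re < (G x).re := by
    intro x hxb
    obtain ⟨s, hs, y, hy, hxy⟩ := exists_above hopen (mem_image_of_mem G hxb) (-1)
    have h1 : (G z).re ≤ (G y).re := hmin (ball_subset_closedBall hy)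
    rw [hxy] at h1
    simp at h1
    linarith
  have hzb : z ∉ ball (0 : ℂ) 1 := fun hb => lt_irrefl _ (key2 z hb)
  refine ⟨z, ?_, by simpa [h0] using key2 a ha⟩
  rw [mem_closedBall_zero_iff] at hz
  rw [mem_ball_zero_iff] at hzb
  linarith [not_lt.1 hzb]

/-- A real function vanishing on the unit circle has zero tangential derivative there. -/
theorem tangential_zero {g : ℂ → ℝ} {z : ℂ} (hz : ‖z‖ = 1) (hg : DifferentiableAt ℝ g z)
    (h0 : ∀ y : ℂ, ‖y‖ = 1 → g y = 0) : fderiv ℝ g z (I * z) = 0 := by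
  have hc : HasDerivAt (fun t : ℝ => exp ((t : ℂ) * I) * z) (I * z) 0 := by
    have h1 : HasDerivAt (fun t : ℝ => (t : ℂ) * I) I 0 := by
      simpa using (hasDerivAt_id (0 : ℝ)).ofReal_comp.mul_const I
    simpa using h1.cexp.mul_const z
  have h2 : HasFDerivAt g (fderiv ℝ g z) ((fun t : ℝ => exp ((t : ℂ) * I) * z) 0) := by
    simpa using hg.hasFDerivAt
  have h3 := h2.comp_hasDerivAt (0 : ℝ) hc
  have h4 : (g ∘ fun t : ℝ => exp ((t : ℂ) * I) * z) = fun _ => 0 := by
    funext t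
    apply h0
    simp [hz]
  rw [h4] at h3
  exact h3.unique (hasDerivAt_const (0 : ℝ) (0 : ℝ))

theorem fderiv_re {G : ℂ → ℂ} {z : ℂ} (h : DifferentiableAt ℝ G z) (v : ℂ) :
    fderiv ℝ (fun y => (G y).re) z v = (fderiv ℝ G z v).re := by
  have := (reCLM.hasFDerivAt.comp z h.hasFDerivAt).fderiv
  simp only [Function.comp_def, reCLM_apply] at this
  rw [this]
  simp

/-- Multiplying by a function that is positive on the circle does not create crossing points. -/
theorem cross_of_mul {G F : ℂ → ℂ} {μ : ℂ → ℝ} {z : ℂ} (hG : DifferentiableAt ℝ G z)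
    (hF : DifferentiableAt ℝ F z) (hμ : DifferentiableAt ℝ μ z) (hμ0 : 0 ≤ μ z)
    (hFG : ∀ y : ℂ, ‖y‖ = 1 → F y = μ y * G y) (hz : z ∈ Cross F) : z ∈ Cross G ∧ μ z ≠ 0 := by
  obtain ⟨hz1, h1, h2, h3⟩ := hz
  rw [hFG z hz1] at h1 h2
  simp only [re_ofReal_mul, im_ofReal_mul] at h1 h2
  have hne : μ z ≠ 0 := by
    rintro h0
    simp [h0] at h2
  have hpos : 0 < μ z := lt_of_le_of_ne hμ0 hne.symm
  have hre : (G z).re = 0 := (mul_eq_zero.1 h1).resolve_left hne
  refine ⟨⟨hz1, hre, (pos_iff_pos_of_mul_pos h2).1 hpos, ?_⟩, hne⟩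
  have hFr : DifferentiableAt ℝ (fun y => (F y).re) z := reCLM.differentiableAt.comp z hF
  have hGr : DifferentiableAt ℝ (fun y => (G y).re) z := reCLM.differentiableAt.comp z hG
  have h4 := tangential_zero (g := fun y => (F y).re - μ y * (G y).re) hz1
    (hFr.sub (hμ.mul hGr)) (fun y hy => by simp [hFG y hy])
  rw [fderiv_fun_sub hFr (hμ.fun_mul hGr), fderiv_fun_mul hμ hGr] at h4
  simp only [sub_apply, add_apply,
    smul_apply, smul_eq_mul, hre, zero_mul, add_zero, fderiv_re hF,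
    fderiv_re hG] at h4
  by_contra hc
  have := mul_pos hpos (not_le.1 hc)
  linarith

theorem nice_prod (s : Multiset ℂ) : Nice (fun z => (s.map (fun a => z - a)).prod) := by
  apply nice_of_analytic
  intro z _
  induction s using Multiset.induction_on with
  | empty => simpa using analyticAt_const
  | cons a s ih =>
    simp only [Multiset.map_cons, Multiset.prod_cons]
    exact (analyticAt_id.sub analyticAt_const).mul ih

theorem exists_prod_ne (s : Multiset ℂ) {Ψ : ℂ → ℂ} (h : Nice Ψ)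
    (hne : ∃ z ∈ ball (0 : ℂ) 1, Ψ z ≠ 0) :
    ∃ z ∈ ball (0 : ℂ) 1, (s.map (fun a => z - a)).prod * Ψ z ≠ 0 := by
  obtain ⟨z, hz, hz'⟩ := hne
  have h1 : ∀ᶠ y in 𝓝 z, y ∈ ball (0 : ℂ) 1 ∧ Ψ y ≠ 0 :=
    (isOpen_ball.eventually_mem hz).and
      ((h z (ball_subset_closedBall hz)).2.continuousAt.eventually_ne hz')
  have h2 : {y | y ∈ ball (0 : ℂ) 1 ∧ Ψ y ≠ 0}.Infinite := infinite_of_mem_nhds z h1
  obtain ⟨y, hy, hys⟩ := h2.exists_notMem_finset s.toFinset
  refine ⟨y, hy.1, mul_ne_zero ?_ hy.2⟩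
  apply Multiset.prod_ne_zero
  simp only [Multiset.mem_map, not_exists, not_and]
  intro a ha h0
  apply hys
  rw [Multiset.mem_toFinset, sub_eq_zero.1 h0]
  exact ha

/-- Counting form: at least as many crossing points as prescribed interior zeros. -/
theorem card_le_cross (s : Multiset ℂ) : (∀ a ∈ s, a ∈ ball (0 : ℂ) 1) → ∀ Ψ : ℂ → ℂ, Nice Ψ →
    (∃ z ∈ ball (0 : ℂ) 1, Ψ z ≠ 0) →
    (s.card : ℕ∞) ≤ (Cross (fun z => (s.map (fun a => z - a)).prod * Ψ z)).encard := by
  induction s using Multiset.induction_on with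
  | empty => intro _ Ψ _ _; simp
  | cons a s ih =>
    intro hs Ψ hΨ hne
    have ha : a ∈ ball (0 : ℂ) 1 := hs a (Multiset.mem_cons_self a s)
    have ha' : ‖a‖ < 1 := mem_ball_zero_iff.1 ha
    set G : ℂ → ℂ := fun z => ((a ::ₘ s).map (fun a => z - a)).prod * Ψ z with hG
    have hGn : Nice G := (nice_prod _).mul hΨ
    obtain ⟨p, hp⟩ := cross_nonempty hGn ha (by simp [hG]) (exists_prod_ne _ hΨ hne)
    have hp1 : ‖p‖ = 1 := hp.1
    have hden : ∀ z ∈ closedBall (0 : ℂ) 1, 1 - (starRingEnd ℂ) a * z ≠ 0 := by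
      intro z hz h0
      have h1 : ‖(starRingEnd ℂ) a * z‖ = 1 := by rw [← sub_eq_zero.1 h0]; simp
      rw [mem_closedBall_zero_iff] at hz
      rw [norm_mul, RCLike.norm_conj] at h1
      nlinarith [norm_nonneg a, norm_nonneg z]
    set m : ℂ → ℂ := fun z => (z - p) * (1 - (starRingEnd ℂ) p * z) /
      (1 - (starRingEnd ℂ) a * z) with hm
    have hmn : Nice m := by
      apply nice_of_analytic
      intro z hz
      exact AnalyticAt.fun_div (f := fun z => (z - p) * (1 - (starRingEnd ℂ) p * z))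
        (g := fun z => 1 - (starRingEnd ℂ) a * z) (by fun_prop) (by fun_prop) (hden z hz)
    have hne' : ∃ z ∈ ball (0 : ℂ) 1, m z * Ψ z ≠ 0 := by
      obtain ⟨z, hz, hz'⟩ := hne
      have hz2 : ‖z‖ < 1 := mem_ball_zero_iff.1 hz
      refine ⟨z, hz, mul_ne_zero (div_ne_zero (mul_ne_zero ?_ ?_)
        (hden z (ball_subset_closedBall hz))) hz'⟩
      · intro h0
        rw [sub_eq_zero.1 h0] at hz2
        linarith
      · intro h0
        have h1 : ‖(starRingEnd ℂ) p * z‖ = 1 := by rw [← sub_eq_zero.1 h0]; simp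
        rw [norm_mul, RCLike.norm_conj, hp1] at h1
        linarith
    have hIH := ih (fun b hb => hs b (Multiset.mem_cons_of_mem hb)) (fun z => m z * Ψ z)
      (hmn.mul hΨ) hne'
    have hsub : Cross (fun z => (s.map (fun a => z - a)).prod * (m z * Ψ z)) ⊆ Cross G \ {p} := by
      intro z hz
      have hz1 : ‖z‖ = 1 := hz.1
      have hzc : z ∈ closedBall (0 : ℂ) 1 := by simp [hz1]
      have hza : ∀ y : ℂ, ‖y‖ = 1 → y - a ≠ 0 := by
        intro y hy h0
        rw [sub_eq_zero.1 h0] at hy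
        linarith
      have hμ : DifferentiableAt ℝ (fun y : ℂ => ‖y - p‖ ^ 2 / ‖y - a‖ ^ 2) z := by
        simp only [div_eq_mul_inv]
        apply DifferentiableAt.fun_mul
        · exact (differentiableAt_id.sub_const p).norm_sq ℝ
        · apply DifferentiableAt.fun_inv
          · exact (differentiableAt_id.sub_const a).norm_sq ℝ
          · exact pow_ne_zero 2 (norm_ne_zero_iff.2 (hza z hz1))
      have := cross_of_mul (G := G) (μ := fun y : ℂ => ‖y - p‖ ^ 2 / ‖y - a‖ ^ 2)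
        ((hGn z hzc).2.restrictScalars ℝ)
        ((((nice_prod s).mul (hmn.mul hΨ)) z hzc).2.restrictScalars ℝ) hμ (by positivity)
        (fun y hy => ?_) hz
      · refine ⟨this.1, ?_⟩
        rintro rfl
        simp at this
      · have hyy : y * (starRingEnd ℂ) y = 1 := by
          rw [mul_conj, normSq_eq_norm_sq, hy]; simp
        have e1 : ((‖y - p‖ ^ 2 : ℝ) : ℂ) = (y - p) * ((starRingEnd ℂ) y - (starRingEnd ℂ) p) := by
          rw [← map_sub, mul_conj, normSq_eq_norm_sq]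
        have e2 : ((‖y - a‖ ^ 2 : ℝ) : ℂ) = (y - a) * ((starRingEnd ℂ) y - (starRingEnd ℂ) a) := by
          rw [← map_sub, mul_conj, normSq_eq_norm_sq]
        have hy0 : y ≠ 0 := by
          rintro rfl
          simp at hy
        have e3 : ∀ b : ℂ, 1 - b * y = y * ((starRingEnd ℂ) y - b) := by
          intro b
          rw [mul_sub, hyy]; ring
        have hca : (starRingEnd ℂ) y - (starRingEnd ℂ) a ≠ 0 := by
          rw [← map_sub]
          exact (map_ne_zero _).2 (hza y hy)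
        have hya := hza y hy
        simp only [hG, hm, Multiset.map_cons, Multiset.prod_cons, ofReal_div, e1, e2, e3]
        field_simp
    have h1 := hIH.trans (encard_le_encard hsub)
    rw [Multiset.card_cons, Nat.cast_add, Nat.cast_one, ← encard_sdiff_singleton_add_one hp]
    gcongr

/-- Dividing out a finite set of interior zeros. -/
theorem exists_factor (U : Finset ℂ) : ∀ Φ : ℂ → ℂ, Nice Φ →
    (∀ a ∈ U, a ∈ ball (0 : ℂ) 1 ∧ Φ a = 0) →
    ∃ Ψ, Nice Ψ ∧ ∀ z, Φ z = (U.val.map (fun a => z - a)).prod * Ψ z := by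
  classical
  induction U using Finset.induction_on with
  | empty => intro Φ h _; exact ⟨Φ, h, by simp⟩
  | insert a U haU ih =>
    intro Φ h hU
    obtain ⟨ha, ha0⟩ := hU a (Finset.mem_insert_self a U)
    have hfac : ∀ z, Φ z = (z - a) * dslope Φ a z := by
      intro z
      have := sub_smul_dslope Φ a z
      rw [ha0, sub_zero, smul_eq_mul] at this
      exact this.symm
    have hn : Nice (dslope Φ a) := by
      intro z hz
      by_cases hza : z = a
      · subst hza
        have h1 : AnalyticAt ℂ (dslope Φ z) z := by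
          obtain ⟨p, hp⟩ := h.analyticOnNhd z ha
          exact ⟨_, hp.has_fpower_series_dslope_fslope⟩
        exact ⟨(h1.contDiffAt (n := 1)).restrict_scalars ℝ, h1.differentiableAt⟩
      · have h1 : dslope Φ a =ᶠ[𝓝 z] fun y => Φ y * (y - a)⁻¹ := by
          filter_upwards [isOpen_ne.mem_nhds hza] with y hy
          have hy' : y - a ≠ 0 := sub_ne_zero.2 hy
          rw [hfac y]
          field_simp
        have h2 : AnalyticAt ℂ (fun y : ℂ => (y - a)⁻¹) z :=
          (analyticAt_id.sub analyticAt_const).inv (sub_ne_zero.2 hza)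
        exact ⟨((h z hz).1.mul ((h2.contDiffAt (n := 1)).restrict_scalars ℝ)).congr_of_eventuallyEq
          h1, ((h z hz).2.mul h2.differentiableAt).congr_of_eventuallyEq h1⟩
    obtain ⟨Ψ, hΨ, hΨ'⟩ := ih (dslope Φ a) hn (fun b hb => by
      obtain ⟨hb1, hb2⟩ := hU b (Finset.mem_insert_of_mem hb)
      refine ⟨hb1, ?_⟩
      rw [hfac b] at hb2
      refine (mul_eq_zero.1 hb2).resolve_left (sub_ne_zero.2 ?_)
      rintro rfl
      exact haU hb)
    refine ⟨Ψ, hΨ, fun z => ?_⟩
    rw [hfac z, hΨ' z, Finset.insert_val_of_notMem haU, Multiset.map_cons, Multiset.prod_cons,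
      mul_assoc]

/-- Final form: `z^2 Φ(z)` has at least two more crossing points than `Φ` has zeros. -/
theorem encard_zeros_le {Φ : ℂ → ℂ} (h : Nice Φ) (hne : ∃ z ∈ ball (0 : ℂ) 1, Φ z ≠ 0) :
    {z | z ∈ ball (0 : ℂ) 1 ∧ Φ z = 0}.encard + 2 ≤ (Cross (fun z => z ^ 2 * Φ z)).encard := by
  have key : ∀ U : Finset ℂ, (∀ a ∈ U, a ∈ ball (0 : ℂ) 1 ∧ Φ a = 0) →
      (U.card : ℕ∞) + 2 ≤ (Cross (fun z => z ^ 2 * Φ z)).encard := by
    intro U hU
    obtain ⟨Ψ, hΨ, hΨ'⟩ := exists_factor U Φ h hU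
    have hne' : ∃ z ∈ ball (0 : ℂ) 1, Ψ z ≠ 0 := by
      obtain ⟨z, hz, hz'⟩ := hne
      refine ⟨z, hz, fun h0 => hz' ?_⟩
      rw [hΨ' z, h0, mul_zero]
    have := card_le_cross (0 ::ₘ 0 ::ₘ U.val) (by
      intro a ha
      simp only [Multiset.mem_cons] at ha
      rcases ha with rfl | rfl | ha
      · simp
      · simp
      · exact (hU a ha).1) Ψ hΨ hne'
    have e : (fun z => ((0 ::ₘ 0 ::ₘ U.val).map (fun a => z - a)).prod * Ψ z) =
        fun z => z ^ 2 * Φ z := by
      funext z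
      rw [hΨ' z]
      simp only [Multiset.map_cons, Multiset.prod_cons]
      ring
    rw [e] at this
    refine le_trans (le_of_eq ?_) this
    simp only [Multiset.card_cons, Finset.card_val]
    push_cast
    ring
  set S := {z | z ∈ ball (0 : ℂ) 1 ∧ Φ z = 0} with hS
  by_cases hfin : S.Finite
  · have := key hfin.toFinset (fun a ha => (hfin.mem_toFinset.1 ha))
    rwa [← hfin.encard_eq_coe_toFinset_card] at this
  · have hinf : S.Infinite := hfin
    have : (Cross (fun z => z ^ 2 * Φ z)).encard = ⊤ := by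
      rw [ENat.eq_top_iff_forall_ge]
      intro n
      obtain ⟨U, hU, hUc⟩ := hinf.exists_subset_card_eq n
      have := key U (fun a ha => hU ha)
      rw [hUc] at this
      exact le_trans le_self_add this
    rw [this]
    exact le_top

end Pool.Agent.Lib.MP_c3ed84_gt
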