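import Mathlib
import Pool.Agent.Lib.MP_c3ed84_gt.Defs
import Pool.Agent.Lib.MP_c3ed84_gt.Hol

/-!
The Hopf differential of a conformal constant mean curvature disc.
-/

open Complex Metric Set Filter Topology Matrix

namespace Pool.Agent.Lib.MP_c3ed84_gt

theorem gram (a b v w : Fin 3 → ℝ) :
    (v ⬝ᵥ (a ⨯₃ b)) * (w ⬝ᵥ (a ⨯₃ b)) =
      (v ⬝ᵥ w) * ((a ⬝ᵥ a) * (b ⬝ᵥ b) - (a ⬝ᵥ b) ^ 2)
        - (v ⬝ᵥ a) * ((w ⬝ᵥ a) * (b ⬝ᵥ b) - (a ⬝ᵥ b) * (w ⬝ᵥ b))
        + (v ⬝ᵥ b) * ((w ⬝ᵥ a) * (a ⬝ᵥ b) - (a ⬝ᵥ a) * (w ⬝ᵥ b)) := by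
  simp [dotProduct, Fin.sum_univ_three, cross_apply]
  ring

theorem contDiff_D {f : ℂ → Fin 3 → ℝ} {m n : WithTop ℕ∞} (hf : ContDiff ℝ n f) (h : m + 1 ≤ n)
    (v : ℂ) : ContDiff ℝ m (D f v) :=
  (hf.fderiv_right h).clm_apply contDiff_const

theorem hasFDerivAt_apply' {u : ℂ → Fin 3 → ℝ} {z : ℂ} (hu : DifferentiableAt ℝ u z) (i : Fin 3) :
    HasFDerivAt (fun y => u y i) ((ContinuousLinearMap.proj i).comp (fderiv ℝ u z)) z :=
  hasFDerivAt_pi'.1 hu.hasFDerivAt i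

theorem differentiableAt_dot {u v : ℂ → Fin 3 → ℝ} {z : ℂ} (hu : DifferentiableAt ℝ u z)
    (hv : DifferentiableAt ℝ v z) : DifferentiableAt ℝ (fun y => u y ⬝ᵥ v y) z := by
  simp only [dotProduct]
  exact DifferentiableAt.fun_sum fun i _ =>
    (hasFDerivAt_apply' hu i).differentiableAt.mul (hasFDerivAt_apply' hv i).differentiableAt

theorem fderiv_dot {u v : ℂ → Fin 3 → ℝ} {z : ℂ} (hu : DifferentiableAt ℝ u z)
    (hv : DifferentiableAt ℝ v z) (w : ℂ) :
    fderiv ℝ (fun y => u y ⬝ᵥ v y) z w = D u w z ⬝ᵥ v z + u z ⬝ᵥ D v w z := by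
  have h : HasFDerivAt (fun y => ∑ i, u y i * v y i) _ z :=
    HasFDerivAt.fun_sum fun i (_ : i ∈ Finset.univ) =>
      (hasFDerivAt_apply' hu i).mul (hasFDerivAt_apply' hv i)
  simp only [dotProduct]
  rw [h.fderiv]
  simp [D, Fin.sum_univ_three]
  ring

theorem contDiffAt_dot {u v : ℂ → Fin 3 → ℝ} {z : ℂ} {n : WithTop ℕ∞} (hu : ContDiffAt ℝ n u z)
    (hv : ContDiffAt ℝ n v z) : ContDiffAt ℝ n (fun y => u y ⬝ᵥ v y) z := by
  simp only [dotProduct]
  exact ContDiffAt.sum fun i _ => (contDiffAt_pi.1 hu i).mul (contDiffAt_pi.1 hv i)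

theorem contDiffAt_cross {u v : ℂ → Fin 3 → ℝ} {z : ℂ} {n : WithTop ℕ∞} (hu : ContDiffAt ℝ n u z)
    (hv : ContDiffAt ℝ n v z) : ContDiffAt ℝ n (fun y => u y ⨯₃ v y) z := by
  rw [contDiffAt_pi] at hu hv ⊢
  intro i
  fin_cases i <;> simp [cross_apply] <;>
    exact ((hu _).mul (hv _)).sub ((hu _).mul (hv _))

theorem fderiv_zero_of_disc {g : ℂ → ℝ} {z : ℂ} (hz : ‖z‖ ≤ 1) (hg : DifferentiableAt ℝ g z)
    (h0 : ∀ y : ℂ, ‖y‖ ≤ 1 → g y = 0) (v : ℂ) : fderiv ℝ g z v = 0 := by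
  have hu : UniqueDiffWithinAt ℝ (closedBall (0 : ℂ) 1) z := by
    apply uniqueDiffOn_convex (convex_closedBall 0 1) _ z (by simpa using hz)
    rw [interior_closedBall _ one_ne_zero]
    exact ⟨0, by simp⟩
  have h1 : HasFDerivWithinAt g (0 : ℂ →L[ℝ] ℝ) (closedBall (0 : ℂ) 1) z :=
    (hasFDerivWithinAt_const (0 : ℝ) z _).congr (fun y hy => h0 y (by simpa using hy)) (h0 z hz)
  rw [hu.eq hg.hasFDerivAt.hasFDerivWithinAt h1]
  rfl

theorem D_lin (f : ℂ → Fin 3 → ℝ) (v z : ℂ) : D f v z = v.re • D f 1 z + v.im • D f I z := by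
  simp only [D]
  rw [← map_smul, ← map_smul, ← map_add]
  congr 1
  apply Complex.ext <;> simp

theorem DD_eq {f : ℂ → Fin 3 → ℝ} (hf : ContDiff ℝ 2 f) (v w z : ℂ) :
    D (D f w) v z = fderiv ℝ (fderiv ℝ f) z v w := by
  have h1 : DifferentiableAt ℝ (fderiv ℝ f) z :=
    ((hf.fderiv_right (m := 1) le_rfl).differentiable one_ne_zero) z
  unfold D
  rw [fderiv_clm_apply h1 (differentiableAt_const w)]
  simp

theorem DD_symm {f : ℂ → Fin 3 → ℝ} (hf : ContDiff ℝ 2 f) (v w : ℂ) :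
    D (D f w) v = D (D f v) w := by
  funext z
  rw [DD_eq hf, DD_eq hf]
  exact hf.contDiffAt.isSymmSndFDerivAt (by simp) v w

theorem DD_lin {f : ℂ → Fin 3 → ℝ} (hf : ContDiff ℝ 2 f) (v w z : ℂ) :
    D (D f w) v z = (v.re * w.re) • D (D f 1) 1 z + (v.re * w.im + v.im * w.re) • D (D f I) 1 z
      + (v.im * w.im) • D (D f I) I z := by
  have h1 : ∀ u, D (D f w) u z = w.re • D (D f u) 1 z + w.im • D (D f u) I z := by
    intro u
    rw [DD_symm hf, D_lin]
  rw [D_lin, h1, h1, DD_symm hf I 1]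
  module

section

variable {f : ℂ → Fin 3 → ℝ} {H : ℝ} (hf : ContDiff ℝ 3 f) (hc : IsConformalCMC f H)
include hf

theorem hf2 : ContDiff ℝ 2 f := hf.of_le (by norm_num)

theorem cD (v : ℂ) : ContDiff ℝ 2 (D f v) := contDiff_D hf (by norm_num) v

theorem cDD (v w : ℂ) : ContDiff ℝ 1 (D (D f v) w) := contDiff_D (cD hf v) (by norm_num) w

theorem dD (v z : ℂ) : DifferentiableAt ℝ (D f v) z := (cD hf v).differentiable two_ne_zero z

theorem dDD (v w z : ℂ) : DifferentiableAt ℝ (D (D f v) w) z :=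
  (cDD hf v w).differentiable one_ne_zero z

theorem snd_lin (z v w : ℂ) : snd f z v w = v.re * w.re * snd f z 1 1
    + (v.re * w.im + v.im * w.re) * snd f z 1 I + v.im * w.im * snd f z I I := by
  simp only [snd]
  rw [DD_lin (hf2 hf)]
  simp [add_dotProduct, smul_dotProduct]

theorem snd_symm (z v w : ℂ) : snd f z v w = snd f z w v := by
  simp only [snd, DD_symm (hf2 hf) v w]

omit hf in
theorem D_dot_normal (v z : ℂ) : D f v z ⬝ᵥ normal f z = 0 := by
  rw [D_lin]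
  simp [normal, add_dotProduct, smul_dotProduct, dot_self_cross, dot_cross_self]

omit hf
include hc

theorem fst_eq {z : ℂ} (hz : ‖z‖ ≤ 1) (v w : ℂ) :
    fst f z v w = (v.re * w.re + v.im * w.im) * fst f z 1 1 := by
  obtain ⟨_, h2, h3, _⟩ := hc z hz
  simp only [fst] at h2 h3 ⊢
  rw [D_lin f v, D_lin f w]
  simp only [add_dotProduct, dotProduct_add, smul_dotProduct, dotProduct_smul, smul_eq_mul]
  rw [dotProduct_comm (D f I z) (D f 1 z), h2, h3]
  ring

theorem cross_sq {z : ℂ} (hz : ‖z‖ ≤ 1) :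
    (D f 1 z ⨯₃ D f I z) ⬝ᵥ (D f 1 z ⨯₃ D f I z) = fst f z 1 1 ^ 2 := by
  obtain ⟨_, h2, h3, _⟩ := hc z hz
  simp only [fst] at h2 h3 ⊢
  rw [cross_dot_cross, h2, h3]
  ring

theorem normal_eq {z : ℂ} (hz : ‖z‖ ≤ 1) :
    normal f z = (fst f z 1 1)⁻¹ • (D f 1 z ⨯₃ D f I z) := by
  rw [normal, cross_sq hc hz, Real.sqrt_sq (hc z hz).1.le]

theorem normal_sq {z : ℂ} (hz : ‖z‖ ≤ 1) : normal f z ⬝ᵥ normal f z = 1 := by
  have := (hc z hz).1
  rw [normal_eq hc hz, smul_dotProduct, dotProduct_smul, cross_sq hc hz]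
  simp only [smul_eq_mul]
  field_simp

/-- Parseval identity in the frame `f_x, f_y, N`. -/
theorem parseval {z : ℂ} (hz : ‖z‖ ≤ 1) (v w : Fin 3 → ℝ) :
    fst f z 1 1 * (v ⬝ᵥ w) = (v ⬝ᵥ D f 1 z) * (w ⬝ᵥ D f 1 z) + (v ⬝ᵥ D f I z) * (w ⬝ᵥ D f I z)
      + fst f z 1 1 * ((v ⬝ᵥ normal f z) * (w ⬝ᵥ normal f z)) := by
  obtain ⟨h1, h2, h3, _⟩ := hc z hz
  have hg := gram (D f 1 z) (D f I z) v w
  rw [normal_eq hc hz, dotProduct_smul, dotProduct_smul]
  simp only [fst] at h1 h2 h3 ⊢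
  rw [h2, h3] at hg
  simp only [smul_eq_mul]
  field_simp
  linear_combination -hg

include hf

theorem cN {z : ℂ} (hz : ‖z‖ ≤ 1) : ContDiffAt ℝ 2 (normal f) z := by
  have h1 : ContDiffAt ℝ 2 (fun y => D f 1 y ⨯₃ D f I y) z :=
    contDiffAt_cross (cD hf 1).contDiffAt (cD hf I).contDiffAt
  have h2 : (D f 1 z ⨯₃ D f I z) ⬝ᵥ (D f 1 z ⨯₃ D f I z) ≠ 0 := by
    rw [cross_sq hc hz]
    exact pow_ne_zero 2 (hc z hz).1.ne'
  have h3 := (contDiffAt_dot h1 h1).sqrt h2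
  refine (h3.inv ?_).smul h1
  rw [cross_sq hc hz, Real.sqrt_sq (hc z hz).1.le]
  exact (hc z hz).1.ne'

theorem dN {z : ℂ} (hz : ‖z‖ ≤ 1) : DifferentiableAt ℝ (normal f) z :=
  (cN hf hc hz).differentiableAt two_ne_zero

theorem DN_normal {z : ℂ} (hz : ‖z‖ ≤ 1) (v : ℂ) : D (normal f) v z ⬝ᵥ normal f z = 0 := by
  have h := fderiv_zero_of_disc (g := fun y => normal f y ⬝ᵥ normal f y - 1) hz
    ((differentiableAt_dot (dN hf hc hz) (dN hf hc hz)).sub_const 1)
    (fun y hy => by rw [normal_sq hc hy, sub_self]) v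
  rw [fderiv_sub_const, fderiv_dot (dN hf hc hz) (dN hf hc hz),
    dotProduct_comm (normal f z)] at h
  linarith

theorem DN_D {z : ℂ} (hz : ‖z‖ ≤ 1) (v w : ℂ) : D (normal f) v z ⬝ᵥ D f w z = -snd f z v w := by
  have h := fderiv_zero_of_disc (g := fun y => D f w y ⬝ᵥ normal f y) hz
    (differentiableAt_dot (dD hf w z) (dN hf hc hz)) (fun y _ => D_dot_normal w y) v
  rw [fderiv_dot (dD hf w z) (dN hf hc hz), dotProduct_comm (D f w z)] at h
  rw [snd]
  linarith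

/-- Weingarten formula. -/
theorem dot_DN {z : ℂ} (hz : ‖z‖ ≤ 1) (u : Fin 3 → ℝ) (v : ℂ) :
    fst f z 1 1 * (u ⬝ᵥ D (normal f) v z) =
      -((u ⬝ᵥ D f 1 z) * snd f z v 1 + (u ⬝ᵥ D f I z) * snd f z v I) := by
  rw [parseval hc hz, DN_normal hf hc hz, DN_D hf hc hz, DN_D hf hc hz]
  ring

theorem c_snd {z : ℂ} (hz : ‖z‖ ≤ 1) (v w : ℂ) : ContDiffAt ℝ 1 (fun y => snd f y v w) z :=
  contDiffAt_dot (cDD hf w v).contDiffAt ((cN hf hc hz).of_le (by norm_num))

theorem d_snd {z : ℂ} (hz : ‖z‖ ≤ 1) (v w : ℂ) : DifferentiableAt ℝ (fun y => snd f y v w) z :=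
  (c_snd hf hc hz v w).differentiableAt one_ne_zero

theorem fderiv_snd' {z : ℂ} (hz : ‖z‖ ≤ 1) (u v w : ℂ) : fderiv ℝ (fun y => snd f y v w) z u =
    D (D (D f w) v) u z ⬝ᵥ normal f z + D (D f w) v z ⬝ᵥ D (normal f) u z :=
  fderiv_dot (dDD hf w v z) (dN hf hc hz) u

omit hc in
theorem d_fst (z v w : ℂ) : DifferentiableAt ℝ (fun y => fst f y v w) z :=
  differentiableAt_dot (dD hf v z) (dD hf w z)

omit hc in
theorem fderiv_fst' (z u v w : ℂ) : fderiv ℝ (fun y => fst f y v w) z u =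
    D (D f v) u z ⬝ᵥ D f w z + D f v z ⬝ᵥ D (D f w) u z :=
  fderiv_dot (dD hf v z) (dD hf w z) u

/-- The Codazzi equations in Cauchy-Riemann form. -/
theorem codazzi {z : ℂ} (hz : ‖z‖ ≤ 1) :
    fderiv ℝ (fun y => snd f y 1 1) z I - fderiv ℝ (fun y => snd f y I I) z I
        = 2 * fderiv ℝ (fun y => snd f y 1 I) z 1 ∧
      fderiv ℝ (fun y => snd f y 1 1) z 1 - fderiv ℝ (fun y => snd f y I I) z 1
        = -2 * fderiv ℝ (fun y => snd f y 1 I) z I := by
  have hE := (hc z hz).1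
  have hH := (hc z hz).2.2.2
  have s1 : D (D f 1) I = D (D f I) 1 := DD_symm (hf2 hf) I 1
  have s2 : D (D (D f 1) 1) I = D (D (D f I) 1) 1 := by rw [DD_symm (cD hf 1) I 1, s1]
  have s3 : D (D (D f I) I) 1 = D (D (D f I) 1) I := DD_symm (cD hf I) 1 I
  have c1 : ∀ u, fderiv ℝ (fun y => fst f y I I) z u = fderiv ℝ (fun y => fst f y 1 1) z u := by
    intro u
    have h := fderiv_zero_of_disc (g := fun y => fst f y I I - fst f y 1 1) hz
      ((d_fst hf z I I).sub (d_fst hf z 1 1)) (fun y hy => by rw [(hc y hy).2.1, sub_self]) u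
    rw [fderiv_fun_sub (d_fst hf z I I) (d_fst hf z 1 1), _root_.sub_apply] at h
    linarith
  have c2 : ∀ u, fderiv ℝ (fun y => fst f y 1 I) z u = 0 := fun u =>
    fderiv_zero_of_disc hz (d_fst hf z 1 I) (fun y hy => (hc y hy).2.2.1) u
  have c3 : ∀ u, fderiv ℝ (fun y => snd f y 1 1) z u + fderiv ℝ (fun y => snd f y I I) z u =
      2 * H * fderiv ℝ (fun y => fst f y 1 1) z u := by
    intro u
    have h := fderiv_zero_of_disc
      (g := fun y => (snd f y 1 1 + snd f y I I) - 2 * H * fst f y 1 1) hz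
      (((d_snd hf hc hz 1 1).add (d_snd hf hc hz I I)).sub ((d_fst hf z 1 1).const_mul _))
      (fun y hy => by rw [(hc y hy).2.2.2, sub_self]) u
    rw [fderiv_fun_sub ((d_snd hf hc hz 1 1).fun_add (d_snd hf hc hz I I))
      ((d_fst hf z 1 1).const_mul _), fderiv_fun_add (d_snd hf hc hz 1 1) (d_snd hf hc hz I I),
      fderiv_const_mul (d_fst hf z 1 1)] at h
    simp only [_root_.sub_apply, _root_.add_apply, _root_.smul_apply, smul_eq_mul] at h
    linarith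
  have c1x := c1 1
  have c1y := c1 I
  have c2x := c2 1
  have c2y := c2 I
  have c3x := c3 1
  have c3y := c3 I
  simp only [fderiv_fst' hf, fderiv_snd' hf hc hz, s1, s2, s3] at c1x c1y c2x c2y c3x c3y ⊢
  simp only [dotProduct_comm (D f 1 z), dotProduct_comm (D f I z)] at c1x c1y c2x c2y c3x c3y
  have w1 := dot_DN hf hc hz (D (D f 1) 1 z) I
  have w2 := dot_DN hf hc hz (D (D f I) 1 z) 1
  have w3 := dot_DN hf hc hz (D (D f I) 1 z) I
  have w4 := dot_DN hf hc hz (D (D f I) I z) 1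
  rw [snd_symm hf z I 1] at w1 w3
  constructor
  · apply mul_left_cancel₀ hE.ne'
    linear_combination (exp := 1) 2 * w1 - 2 * w2 - fst f z 1 1 * c3y
      - 2 * snd f z I I * c2x + snd f z 1 I * c1x
      + 2 * (D (D f I) 1 z ⬝ᵥ D f 1 z) * hH
  · apply mul_left_cancel₀ hE.ne'
    linear_combination (exp := 1) 2 * w3 - 2 * w4 + fst f z 1 1 * c3x
      + 2 * snd f z 1 1 * c2y + snd f z 1 I * c1y
      - 2 * (D (D f I) 1 z ⬝ᵥ D f I z) * hH - 2 * H * fst f z 1 1 * c1x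

/-- Twice the Hopf differential. -/
noncomputable def hopf (f : ℂ → Fin 3 → ℝ) (z : ℂ) : ℂ :=
  (((snd f z 1 1 - snd f z I I) / 2 : ℝ) : ℂ) - I * (snd f z 1 I : ℝ)

theorem nice_hopf : Nice (hopf f) := by
  intro z hz
  have hz' : ‖z‖ ≤ 1 := by simpa using hz
  have h1 : ContDiffAt ℝ 1 (hopf f) z := by
    unfold hopf
    refine ContDiffAt.sub ?_ (contDiffAt_const.mul ?_)
    · exact ofRealCLM.contDiff.contDiffAt.comp z
        (((c_snd hf hc hz' 1 1).sub (c_snd hf hc hz' I I)).div_const 2)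
    · exact ofRealCLM.contDiff.contDiffAt.comp z (c_snd hf hc hz' 1 I)
  refine ⟨h1, differentiableAt_complex_iff_differentiableAt_real.2
    ⟨h1.differentiableAt one_ne_zero, ?_⟩⟩
  have h2 : HasFDerivAt (hopf f) _ z :=
    (ofRealCLM.hasFDerivAt.comp z ((((d_snd hf hc hz' 1 1).hasFDerivAt.sub
      (d_snd hf hc hz' I I).hasFDerivAt)).mul_const (2 : ℝ)⁻¹)).sub
      ((ofRealCLM.hasFDerivAt.comp z (d_snd hf hc hz' 1 I).hasFDerivAt).const_mul I)
  rw [h2.fderiv]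
  obtain ⟨c1, c2⟩ := codazzi hf hc hz'
  apply Complex.ext
  · simp
    linarith
  · simp
    linarith

theorem re_hopf {z : ℂ} (hz : ‖z‖ = 1) :
    (z ^ 2 * hopf f z).re = H * fst f z 1 1 - snd f z (I * z) (I * z) := by
  have h1 : z.re ^ 2 + z.im ^ 2 = 1 := by
    have := Complex.sq_norm z
    rw [hz, normSq_apply] at this
    linarith
  have hH := (hc z hz.le).2.2.2
  rw [snd_lin hf z (I * z) (I * z)]
  simp [hopf, pow_two]
  linear_combination (1 / 2) * hH + ((snd f z 1 1 + snd f z I I) / 2) * h1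

omit hc in
theorem im_hopf (z : ℂ) : (z ^ 2 * hopf f z).im = -snd f z z (I * z) := by
  rw [snd_lin hf z z (I * z)]
  simp [hopf, pow_two]
  ring

omit hf in
theorem mem_umbilics {z : ℂ} (hz : z ∈ umbilics f) : z ∈ ball (0 : ℂ) 1 ∧ hopf f z = 0 := by
  obtain ⟨hz1, k, hk⟩ := hz
  refine ⟨by simpa using hz1, ?_⟩
  obtain ⟨_, h2, h3, _⟩ := hc z hz1.le
  simp [hopf, hk, h2, h3]

/-- If the Hopf differential vanishes, `N + H f` is constant. -/
theorem const_of_hopf (h0 : ∀ z ∈ ball (0 : ℂ) 1, hopf f z = 0) :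
    ∃ a : Fin 3 → ℝ, ∀ z : ℂ, ‖z‖ ≤ 1 → normal f z + H • f z = a := by
  have hfd : Differentiable ℝ f := hf.differentiable (by norm_num)
  have hd : ∀ z : ℂ, ‖z‖ ≤ 1 → DifferentiableAt ℝ (fun y => normal f y + H • f y) z :=
    fun z hz => (dN hf hc hz).add ((hfd z).const_smul H)
  have h1 : ∀ z ∈ ball (0 : ℂ) 1, fderiv ℝ (fun y => normal f y + H • f y) z = 0 := by
    intro z hz
    have hz' : ‖z‖ ≤ 1 := (mem_ball_zero_iff.1 hz).le
    obtain ⟨hE, h2, h3, h4⟩ := hc z hz'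
    have h5 := h0 z hz
    have h6 : snd f z 1 I = 0 := by simpa [hopf] using congrArg Complex.im h5
    have h7 : snd f z 1 1 = snd f z I I := by
      have := congrArg Complex.re h5
      simp [hopf] at this
      linarith
    ext1 v
    rw [fderiv_fun_add (dN hf hc hz') ((hfd z).fun_const_smul H),
      fderiv_fun_const_smul (hfd z)]
    change D (normal f) v z + H • D f v z = 0
    set u := D (normal f) v z + H • D f v z with hu
    have e : ∀ w, u ⬝ᵥ D f w z = 0 := by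
      intro w
      rw [hu, add_dotProduct, smul_dotProduct, DN_D hf hc hz', snd_lin hf]
      change _ + H * fst f z v w = 0
      rw [fst_eq hc hz' v w, h6]
      linear_combination (-(v.re * w.re + v.im * w.im) / 2) * h4
        - ((v.re * w.re - v.im * w.im) / 2) * h7
    have e2 : u ⬝ᵥ normal f z = 0 := by
      rw [hu, add_dotProduct, smul_dotProduct, DN_normal hf hc hz', D_dot_normal]
      simp
    have e3 := parseval hc hz' u u
    rw [e, e, e2] at e3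
    simp only [mul_zero, add_zero, mul_eq_zero, hE.ne', false_or] at e3
    exact dotProduct_self_eq_zero.1 e3
  have h2 : ∀ z ∈ ball (0 : ℂ) 1, normal f z + H • f z = normal f 0 + H • f 0 := by
    intro z hz
    exact isOpen_ball.is_const_of_fderiv_eq_zero (convex_ball 0 1).isPreconnected
      (fun y hy => (hd y (mem_ball_zero_iff.1 hy).le).differentiableWithinAt) h1 hz (by simp)
  refine ⟨normal f 0 + H • f 0, fun z hz => ?_⟩
  have h3 : EqOn (fun y => normal f y + H • f y) (fun _ => normal f 0 + H • f 0)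
      (closedBall (0 : ℂ) 1) := by
    apply EqOn.of_subset_closure h2 _ continuousOn_const ball_subset_closedBall
    · rw [closure_ball _ one_ne_zero]
    · exact fun y hy => (hd y (by simpa using hy)).continuousAt.continuousWithinAt
  exact h3 (by simpa using hz)

/-- A totally umbilical disc lies in a plane or in a sphere. -/
theorem plane_or_sphere (h0 : ∀ z ∈ ball (0 : ℂ) 1, hopf f z = 0) :
    (∃ a ν : Fin 3 → ℝ, ν ≠ 0 ∧ ∀ z : ℂ, ‖z‖ ≤ 1 → (f z - a) ⬝ᵥ ν = 0) ∨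
      (∃ a : Fin 3 → ℝ, ∃ R : ℝ, ∀ z : ℂ, ‖z‖ ≤ 1 → (f z - a) ⬝ᵥ (f z - a) = R ^ 2) := by
  obtain ⟨a, ha⟩ := const_of_hopf hf hc h0
  have hfd : Differentiable ℝ f := hf.differentiable (by norm_num)
  by_cases hH : H = 0
  · left
    simp only [hH, zero_smul, add_zero] at ha
    refine ⟨f 0, a, ?_, fun z hz => ?_⟩
    · rintro rfl
      have := normal_sq hc (z := 0) (by simp)
      rw [ha 0 (by simp)] at this
      simp at this
    · have hd : ∀ y : ℂ, DifferentiableAt ℝ (fun y => f y ⬝ᵥ a) y :=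
        fun y => differentiableAt_dot (hfd y) (differentiableAt_const a)
      have h1 : f z ⬝ᵥ a = f 0 ⬝ᵥ a := by
        refine (convex_closedBall (0 : ℂ) 1).is_const_of_fderivWithin_eq_zero (𝕜 := ℝ)
          (f := fun y => f y ⬝ᵥ a) (fun y _ => (hd y).differentiableWithinAt) (fun y hy => ?_)
          (by simpa using hz) (by simp)
        have hu : UniqueDiffWithinAt ℝ (closedBall (0 : ℂ) 1) y := by
          apply uniqueDiffOn_convex (convex_closedBall 0 1) _ y hy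
          rw [interior_closedBall _ one_ne_zero]
          exact ⟨0, by simp⟩
        rw [(hd y).fderivWithin hu]
        ext1 v
        rw [fderiv_dot (hfd y) (differentiableAt_const a)]
        have h2 := D_dot_normal (f := f) v y
        rw [ha y (by simpa using hy)] at h2
        simpa [D] using h2
      rw [sub_dotProduct, h1, sub_self]
  · right
    refine ⟨H⁻¹ • a, H⁻¹, fun z hz => ?_⟩
    have h1 : f z - H⁻¹ • a = -H⁻¹ • normal f z := by
      rw [← ha z hz, smul_add, smul_smul, inv_mul_cancel₀ hH]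
      module
    rw [h1, smul_dotProduct, dotProduct_smul, normal_sq hc hz]
    simp only [smul_eq_mul]
    ring

end

end Pool.Agent.Lib.MP_c3ed84_gt
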