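import Mathlib
import Pool.Agent.Lib.MP_c3ed84_gt.Hopf

/-!
Boundary values of the Hopf differential along a round circle, and the contact count.
-/

open Complex Metric Set Filter Topology Matrix

namespace Pool.Agent.Lib.MP_c3ed84_gt

theorem re_sq_add {z : ℂ} (hz : ‖z‖ = 1) : z.re ^ 2 + z.im ^ 2 = 1 := by
  have := Complex.sq_norm z
  rw [hz, normSq_apply] at this
  linarith

theorem D_sub_const (f : ℂ → Fin 3 → ℝ) (c : Fin 3 → ℝ) (v : ℂ) :
    D (fun y => f y - c) v = D f v := by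
  funext z
  simp [D, fderiv_sub_const]

section

variable {f : ℂ → Fin 3 → ℝ} {H : ℝ} (hf : ContDiff ℝ 3 f) (hc : IsConformalCMC f H)
  {c e : Fin 3 → ℝ} {r : ℝ} (hr : 0 < r) (he : e ≠ 0)
  (hb : ∀ z : ℂ, ‖z‖ = 1 → (f z - c) ⬝ᵥ (f z - c) = r ^ 2 ∧ (f z - c) ⬝ᵥ e = 0)
include hf

theorem d_gamma (c : Fin 3 → ℝ) (z : ℂ) : DifferentiableAt ℝ (fun y => f y - c) z :=
  (hf.differentiable (by norm_num) z).sub_const c

theorem hasFDerivAt_T (z : ℂ) : DifferentiableAt ℝ (fun y => D f (I * y) y) z ∧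
    D (fun y => D f (I * y) y) (I * z) z = D (D f (I * z)) (I * z) z - D f z z := by
  have h1 : DifferentiableAt ℝ (fderiv ℝ f) z :=
    ((hf.fderiv_right (m := 1) (by norm_num)).differentiable one_ne_zero) z
  have h2 : HasFDerivAt (fun y : ℂ => I * y) _ z := (hasFDerivAt_id (𝕜 := ℝ) z).const_mul I
  refine ⟨h1.clm_apply h2.differentiableAt, ?_⟩
  rw [DD_eq (hf2 hf)]
  unfold D
  rw [fderiv_clm_apply h1 h2.differentiableAt, h2.fderiv]
  simp [← mul_assoc]
  abel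

include hb

theorem gamma_T {z : ℂ} (hz : ‖z‖ = 1) : (f z - c) ⬝ᵥ D f (I * z) z = 0 := by
  have h := tangential_zero (g := fun y => (f y - c) ⬝ᵥ (f y - c) - r ^ 2) hz
    ((differentiableAt_dot (d_gamma hf c z) (d_gamma hf c z)).sub_const _)
    (fun y hy => by rw [(hb y hy).1, sub_self])
  rw [fderiv_sub_const, fderiv_dot (d_gamma hf c z) (d_gamma hf c z), D_sub_const,
    dotProduct_comm] at h
  linarith

theorem T_e {z : ℂ} (hz : ‖z‖ = 1) : D f (I * z) z ⬝ᵥ e = 0 := by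
  have h := tangential_zero (g := fun y => (f y - c) ⬝ᵥ e) hz
    (differentiableAt_dot (d_gamma hf c z) (differentiableAt_const e)) (fun y hy => (hb y hy).2)
  rw [fderiv_dot (d_gamma hf c z) (differentiableAt_const e), D_sub_const] at h
  simpa [D] using h

theorem gamma_a {z : ℂ} (hz : ‖z‖ = 1) :
    (f z - c) ⬝ᵥ D f 1 z = z.re * (D f z z ⬝ᵥ (f z - c)) ∧
      (f z - c) ⬝ᵥ D f I z = z.im * (D f z z ⬝ᵥ (f z - c)) := by
  have h1 := gamma_T hf hb hz
  have h2 := re_sq_add hz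
  rw [D_lin] at h1
  rw [D_lin f z, dotProduct_comm _ (f z - c)]
  simp only [dotProduct_add, dotProduct_smul, smul_eq_mul, mul_re, mul_im, I_re, I_im] at h1 ⊢
  constructor
  · linear_combination (-z.im) * h1 - ((f z - c) ⬝ᵥ D f 1 z) * h2
  · linear_combination z.re * h1 - ((f z - c) ⬝ᵥ D f I z) * h2

include hc

theorem pyth {z : ℂ} (hz : ‖z‖ = 1) : fst f z 1 1 * r ^ 2 =
    (D f z z ⬝ᵥ (f z - c)) ^ 2 + fst f z 1 1 * (normal f z ⬝ᵥ (f z - c)) ^ 2 := by
  have h1 := parseval hc hz.le (f z - c) (f z - c)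
  obtain ⟨h2, h3⟩ := gamma_a hf hb hz
  rw [h2, h3, (hb z hz).1, dotProduct_comm (f z - c) (normal f z)] at h1
  linear_combination h1 + (D f z z ⬝ᵥ (f z - c)) ^ 2 * re_sq_add hz

theorem du {z : ℂ} (hz : ‖z‖ = 1) :
    fst f z 1 1 * fderiv ℝ (fun y => normal f y ⬝ᵥ (f y - c)) z (I * z) =
      -(D f z z ⬝ᵥ (f z - c)) * snd f z z (I * z) := by
  rw [fderiv_dot (dN hf hc hz.le) (d_gamma hf c z), D_sub_const,
    dotProduct_comm (normal f z), D_dot_normal, add_zero, dotProduct_comm,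
    dot_DN hf hc hz.le]
  obtain ⟨h2, h3⟩ := gamma_a hf hb hz
  rw [h2, h3, snd_lin hf z z, snd_lin hf z (I * z) 1, snd_lin hf z (I * z) I]
  simp
  ring

include hr he

theorem snd_TT {z : ℂ} (hz : ‖z‖ = 1) :
    r ^ 2 * snd f z (I * z) (I * z) = -fst f z 1 1 * (normal f z ⬝ᵥ (f z - c)) := by
  obtain ⟨hT, hT'⟩ := hasFDerivAt_T hf z
  have hE := (hc z hz.le).1
  have hTT : D f (I * z) z ⬝ᵥ D f (I * z) z = fst f z 1 1 := by
    have := fst_eq hc hz.le (I * z) (I * z)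
    rw [fst] at this
    rw [this]
    simp
    linear_combination (fst f z 1 1) * re_sq_add hz
  have h1 := tangential_zero (g := fun y => (f y - c) ⬝ᵥ D f (I * y) y) hz
    (differentiableAt_dot (d_gamma hf c z) hT) (fun y hy => gamma_T hf hb hy)
  rw [fderiv_dot (d_gamma hf c z) hT, D_sub_const, hT', hTT, dotProduct_comm] at h1
  have h2 := tangential_zero (g := fun y => D f (I * y) y ⬝ᵥ e) hz
    (differentiableAt_dot hT (differentiableAt_const e)) (fun y hy => T_e hf hb hy)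
  rw [fderiv_dot hT (differentiableAt_const e), hT'] at h2
  have h2' : (D (D f (I * z)) (I * z) z - D f z z) ⬝ᵥ e = 0 := by simpa [D] using h2
  have h3 : snd f z (I * z) (I * z) = (D (D f (I * z)) (I * z) z - D f z z) ⬝ᵥ normal f z := by
    rw [sub_dotProduct, D_dot_normal, sub_zero, snd]
  rw [h3]
  set v := D (D f (I * z)) (I * z) z - D f z z
  set T := D f (I * z) z with hTdef
  set g := f z - c with hg
  have hgT : g ⬝ᵥ T = 0 := gamma_T hf hb hz
  have heg : e ⬝ᵥ g = 0 := by rw [dotProduct_comm]; exact (hb z hz).2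
  have heT : e ⬝ᵥ T = 0 := by rw [dotProduct_comm]; exact T_e hf hb hz
  have hNT : normal f z ⬝ᵥ T = 0 := by rw [dotProduct_comm]; exact D_dot_normal _ _
  have hgg : g ⬝ᵥ g = r ^ 2 := (hb z hz).1
  have g1 := gram g T e e
  have g2 := gram g T v e
  have g3 := gram g T v (normal f z)
  rw [hgT, heg, heT, hTT, hgg] at g1 g2
  rw [hgT, hNT, hTT, hgg] at g3
  rw [h2'] at g2
  have hee : e ⬝ᵥ e ≠ 0 := fun h => he (dotProduct_self_eq_zero.1 h)
  have hm : e ⬝ᵥ (g ⨯₃ T) ≠ 0 := by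
    intro h0
    rw [h0] at g1
    have : e ⬝ᵥ e * (r ^ 2 * fst f z 1 1) = 0 := by linarith
    exact mul_ne_zero hee (by positivity) this
  have hv : v ⬝ᵥ (g ⨯₃ T) = 0 := by
    apply (mul_eq_zero.1 _).resolve_right hm
    linarith
  rw [hv] at g3
  apply mul_left_cancel₀ hE.ne'
  linear_combination (-1) * g3 + (normal f z ⬝ᵥ g) * fst f z 1 1 * h1

theorem re_G {z : ℂ} (hz : ‖z‖ = 1) : r ^ 2 * (z ^ 2 * hopf f z).re =
    fst f z 1 1 * (H * r ^ 2 + normal f z ⬝ᵥ (f z - c)) := by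
  rw [re_hopf hf hc hz, mul_sub, snd_TT hf hc hr he hb hz]
  ring

theorem d_re_G {z : ℂ} (hz : ‖z‖ = 1) (h0 : H * r ^ 2 + normal f z ⬝ᵥ (f z - c) = 0) :
    r ^ 2 * (fderiv ℝ (fun y => y ^ 2 * hopf f y) z (I * z)).re =
      -(D f z z ⬝ᵥ (f z - c)) * snd f z z (I * z) := by
  have hG : DifferentiableAt ℝ (fun y => y ^ 2 * hopf f y) z :=
    (differentiableAt_id.pow 2).mul
      ((nice_hopf hf hc z (by simp [hz])).2.restrictScalars ℝ)
  have hGr : DifferentiableAt ℝ (fun y => (y ^ 2 * hopf f y).re) z :=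
    reCLM.differentiableAt.comp z hG
  have hu : DifferentiableAt ℝ (fun y => normal f y ⬝ᵥ (f y - c)) z :=
    differentiableAt_dot (dN hf hc hz.le) (d_gamma hf c z)
  have h := tangential_zero (g := fun y => r ^ 2 * (y ^ 2 * hopf f y).re -
      fst f y 1 1 * (H * r ^ 2 + normal f y ⬝ᵥ (f y - c))) hz
    ((hGr.const_mul _).sub ((d_fst hf z 1 1).mul (hu.const_add _)))
    (fun y hy => by rw [re_G hf hc hr he hb hy, sub_self])
  rw [fderiv_fun_sub (hGr.const_mul _) ((d_fst hf z 1 1).fun_mul (hu.const_add _)),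
    fderiv_const_mul hGr, fderiv_fun_mul (d_fst hf z 1 1) (hu.const_add _),
    fderiv_const_add] at h
  simp only [_root_.sub_apply, _root_.add_apply, _root_.smul_apply, smul_eq_mul, h0,
    fderiv_re hG, du hf hc hb hz] at h
  linarith

theorem cross_subset (hne : ∃ z ∈ ball (0 : ℂ) 1, hopf f z ≠ 0) (σ : ℝ) :
    Cross (fun y => y ^ 2 * (σ * hopf f y)) ⊆
      {z | z ∈ bigCapContacts f H c r ∧ σ * snd f z z (I * z) < 0} := by
  rintro z ⟨hz, h1, h2, h3⟩
  have hE := (hc z hz.le).1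
  have e1 : ∀ y, y ^ 2 * (σ * hopf f y) = σ * (y ^ 2 * hopf f y) := fun y => by ring
  simp only [e1, re_ofReal_mul, im_ofReal_mul] at h1 h2 h3
  have hσ : σ ≠ 0 := by
    rintro rfl
    simp at h2
  rw [im_hopf hf] at h2
  have h4 : (z ^ 2 * hopf f z).re = 0 := (mul_eq_zero.1 h1).resolve_left hσ
  have h5 := re_G hf hc hr he hb hz
  rw [h4, mul_zero] at h5
  have h6 : H * r ^ 2 + normal f z ⬝ᵥ (f z - c) = 0 :=
    (mul_eq_zero.1 h5.symm).resolve_left hE.ne'
  have hG : DifferentiableAt ℝ (fun y => y ^ 2 * hopf f y) z :=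
    (differentiableAt_id.pow 2).mul
      ((nice_hopf hf hc z (by simp [hz])).2.restrictScalars ℝ)
  rw [fderiv_const_mul hG] at h3
  simp only [_root_.smul_apply, smul_eq_mul, re_ofReal_mul] at h3
  have h7 := d_re_G hf hc hr he hb hz h6
  have h8 : (D f z z ⬝ᵥ (f z - c)) * (σ * -snd f z z (I * z)) ≤ 0 := by
    have : r ^ 2 * (σ * (fderiv ℝ (fun y => y ^ 2 * hopf f y) z (I * z)).re) ≤ 0 :=
      mul_nonpos_of_nonneg_of_nonpos (by positivity) h3
    calc _ = r ^ 2 * (σ * (fderiv ℝ (fun y => y ^ 2 * hopf f y) z (I * z)).re) := by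
          linear_combination (-σ) * h7
      _ ≤ 0 := this
  have h9 : D f z z ⬝ᵥ (f z - c) ≤ 0 := by
    by_contra hcon
    have := mul_pos (not_le.1 hcon) h2
    linarith
  refine ⟨⟨hz, by linarith, lt_of_le_of_ne h9 fun h10 => ?_⟩, by linarith⟩
  have h11 := pyth hf hc hb hz
  have h12 : normal f z ⬝ᵥ (f z - c) = -H * r ^ 2 := by linarith
  rw [h10, h12] at h11
  have h13 : H ^ 2 * r ^ 2 = 1 := by
    have : fst f z 1 1 * r ^ 2 * (H ^ 2 * r ^ 2) = fst f z 1 1 * r ^ 2 * 1 := by linarith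
    exact mul_left_cancel₀ (by positivity) this
  have hH : (H : ℂ) ≠ 0 := by
    intro h0
    rw [ofReal_eq_zero.1 h0] at h13
    simp at h13
  have hn : Nice (fun y => (H : ℂ) * (y ^ 2 * hopf f y)) :=
    (nice_of_analytic fun y _ => analyticAt_const).mul
      ((nice_of_analytic fun y _ => by fun_prop).mul (nice_hopf hf hc))
  obtain ⟨y, hy, hy'⟩ := exists_re_neg hn (a := 0) (by simp) (by simp) (by
    obtain ⟨y, hy, hy'⟩ := exists_prod_ne (0 ::ₘ 0 ::ₘ 0) (nice_hopf hf hc) hne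
    refine ⟨y, hy, mul_ne_zero hH ?_⟩
    simpa [pow_two] using hy')
  rw [re_ofReal_mul] at hy'
  have h14 := re_G hf hc hr he hb hy
  have h15 := pyth hf hc hb hy
  have hEy := (hc y hy.le).1
  set u := normal f y ⬝ᵥ (f y - c)
  have h16 : u ^ 2 ≤ r ^ 2 := by
    have : fst f y 1 1 * u ^ 2 ≤ fst f y 1 1 * r ^ 2 := by nlinarith [sq_nonneg (D f y y ⬝ᵥ (f y - c))]
    exact le_of_mul_le_mul_left this hEy
  have h17 : (H * u) ^ 2 ≤ 1 := by
    rw [mul_pow, ← h13]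
    gcongr
  have h18 : 0 ≤ 1 + H * u := by nlinarith
  have h19 : r ^ 2 * (H * (y ^ 2 * hopf f y).re) = fst f y 1 1 * (1 + H * u) := by
    linear_combination H * h14 + fst f y 1 1 * h13
  have h20 := mul_neg_of_pos_of_neg (pow_pos hr 2) hy'
  have h21 := mul_nonneg hEy.le h18
  linarith

theorem count (hne : ∃ z ∈ ball (0 : ℂ) 1, hopf f z ≠ 0) (σ : ℝ) (hσ : σ ≠ 0) :
    (umbilics f).encard + 2 ≤
      {z | z ∈ bigCapContacts f H c r ∧ σ * snd f z z (I * z) < 0}.encard := by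
  have hn : Nice (fun y => (σ : ℂ) * hopf f y) :=
    (nice_of_analytic fun y _ => analyticAt_const).mul (nice_hopf hf hc)
  have h := encard_zeros_le hn (by
    obtain ⟨z, hz, hz'⟩ := hne
    exact ⟨z, hz, mul_ne_zero (ofReal_ne_zero.2 hσ) hz'⟩)
  refine le_trans ?_ (h.trans (encard_le_encard (cross_subset hf hc hr he hb hne σ)))
  gcongr
  intro z hz
  obtain ⟨h1, h2⟩ := mem_umbilics hc hz
  exact ⟨h1, by simp [h2]⟩

end

end Pool.Agent.Lib.MP_c3ed84_gt
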