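import Mathlib
import Pool.Agent.Lib.MP_c3ed84_gt.Defs
import Pool.Agent.Lib.MP_c3ed84_gt.Main

/-!
A conformally immersed constant mean curvature disc whose boundary lies on a round circle is
planar or spherical, or else it is tangent to the big spherical cap at many boundary points.
-/

open Complex Matrix Pool.Agent.Lib.MP_c3ed84_gt

theorem Pool.Agent.Lib.MP_c3ed84_gt.bigCapContacts_result
    (f : ℂ → Fin 3 → ℝ) (H : ℝ) (hf : ContDiff ℝ 3 f) (hc : IsConformalCMC f H)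
    (c e : Fin 3 → ℝ) (r : ℝ) (hr : 0 < r) (he : e ≠ 0)
    (hb : ∀ z : ℂ, ‖z‖ = 1 → (f z - c) ⬝ᵥ (f z - c) = r ^ 2 ∧ (f z - c) ⬝ᵥ e = 0) :
    (∃ a ν : Fin 3 → ℝ, ν ≠ 0 ∧ ∀ z : ℂ, ‖z‖ ≤ 1 → (f z - a) ⬝ᵥ ν = 0) ∨
    (∃ a : Fin 3 → ℝ, ∃ R : ℝ, ∀ z : ℂ, ‖z‖ ≤ 1 → (f z - a) ⬝ᵥ (f z - a) = R ^ 2) ∨
    ((umbilics f).encard + 2 ≤
        {z | z ∈ bigCapContacts f H c r ∧ 0 < snd f z z (I * z)}.encard ∧
      (umbilics f).encard + 2 ≤
        {z | z ∈ bigCapContacts f H c r ∧ snd f z z (I * z) < 0}.encard) := by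
  by_cases h0 : ∀ z ∈ Metric.ball (0 : ℂ) 1, hopf f z = 0
  · rcases plane_or_sphere hf hc h0 with h | h
    · exact Or.inl h
    · exact Or.inr (Or.inl h)
  · push Not at h0
    refine Or.inr (Or.inr ⟨?_, ?_⟩)
    · simpa using count hf hc hr he hb h0 (-1) (by norm_num)
    · simpa using count hf hc hr he hb h0 1 one_ne_zero
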