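import Mathlib

/-!
Calculus on the closed unit disc: first derivatives in coordinates, the Poincare lemma,
and two null integrals (divergence and Jacobian) for functions vanishing on the circle.
-/

set_option autoImplicit false

open Matrix Set MeasureTheory Filter Topology

namespace Pool.Agent.Lib.MP_c3ed84_gt.Cap

/-- Euclidean three-space. -/
abbrev V := Fin 3 → ℝ

/-- The closed unit disc. -/
def D : Set (ℝ × ℝ) := {p | p.1 ^ 2 + p.2 ^ 2 ≤ 1}

section HD

variable {F : Type*} [NormedAddCommGroup F] [NormedSpace ℝ F]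

/-- The linear map with values `a`, `b` on the standard basis. -/
noncomputable def L (a b : F) : ℝ × ℝ →L[ℝ] F :=
  (ContinuousLinearMap.fst ℝ ℝ ℝ).smulRight a + (ContinuousLinearMap.snd ℝ ℝ ℝ).smulRight b

@[simp] theorem L_apply (a b : F) (v : ℝ × ℝ) : L a b v = v.1 • a + v.2 • b := by
  simp [L]

/-- `g` has first derivatives `a`, `b` at `p` within `s`. -/
def HD (g : ℝ × ℝ → F) (a b : F) (s : Set (ℝ × ℝ)) (p : ℝ × ℝ) : Prop :=
  HasFDerivWithinAt g (L a b) s p

/-- Derivative in the first variable. -/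
noncomputable def dx (g : ℝ × ℝ → F) (p : ℝ × ℝ) : F := fderiv ℝ g p (1, 0)

/-- Derivative in the second variable. -/
noncomputable def dy (g : ℝ × ℝ → F) (p : ℝ × ℝ) : F := fderiv ℝ g p (0, 1)

theorem L_eq (T : ℝ × ℝ →L[ℝ] F) : L (T (1, 0)) (T (0, 1)) = T := by
  ext
  · simp
  · simp

variable {s : Set (ℝ × ℝ)} {p : ℝ × ℝ}

theorem HD.of_diff {g : ℝ × ℝ → F} (hg : DifferentiableAt ℝ g p) (s : Set (ℝ × ℝ)) :
    HD g (dx g p) (dy g p) s p := by
  unfold HD dx dy
  rw [L_eq]
  exact hg.hasFDerivAt.hasFDerivWithinAt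

theorem HD.of_c1 {g : ℝ × ℝ → F} (hg : ContDiff ℝ 1 g) (s : Set (ℝ × ℝ)) (p : ℝ × ℝ) :
    HD g (dx g p) (dy g p) s p :=
  HD.of_diff (hg.differentiable one_ne_zero p) s

theorem HD.mono {g : ℝ × ℝ → F} {a b : F} (h : HD g a b univ p) (s : Set (ℝ × ℝ)) :
    HD g a b s p := HasFDerivWithinAt.mono h (subset_univ s)

theorem HD.unique {g : ℝ × ℝ → F} {a b a' b' : F} (hs : UniqueDiffWithinAt ℝ s p)
    (h : HD g a b s p) (h' : HD g a' b' s p) : a = a' ∧ b = b' := by
  have e := hs.eq h h'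
  have e1 := congrArg (fun T => T (1, 0)) e
  have e2 := congrArg (fun T => T (0, 1)) e
  simp at e1 e2
  exact ⟨e1, e2⟩

theorem HD.dx_eq {g : ℝ × ℝ → F} {a b : F} (h : HD g a b univ p) : dx g p = a := by
  have := (hasFDerivWithinAt_univ.1 h).fderiv
  simp [dx, this]

theorem HD.dy_eq {g : ℝ × ℝ → F} {a b : F} (h : HD g a b univ p) : dy g p = b := by
  have := (hasFDerivWithinAt_univ.1 h).fderiv
  simp [dy, this]

theorem HD.congr' {g : ℝ × ℝ → F} {a b a' b' : F} (h : HD g a b s p) (ha : a = a') (hb : b = b') :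
    HD g a' b' s p := by
  subst ha hb; exact h

theorem HD.congr_on {g g' : ℝ × ℝ → F} {a b : F} (h : HD g a b s p) (hp : p ∈ s)
    (e : ∀ q ∈ s, g' q = g q) : HD g' a b s p :=
  HasFDerivWithinAt.congr h e (e p hp)

theorem HD.const (c : F) : HD (fun _ => c) 0 0 s p := by
  unfold HD
  have : L (0 : F) 0 = 0 := by ext <;> simp
  rw [this]
  exact hasFDerivWithinAt_const c p s

theorem HD.add {g h : ℝ × ℝ → F} {a b a' b' : F} (hg : HD g a b s p) (hh : HD h a' b' s p) :
    HD (fun q => g q + h q) (a + a') (b + b') s p := by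
  unfold HD
  have : L (a + a') (b + b') = L a b + L a' b' := by
    ext <;> simp
  rw [this]
  exact HasFDerivWithinAt.add hg hh

theorem HD.neg {g : ℝ × ℝ → F} {a b : F} (hg : HD g a b s p) :
    HD (fun q => -g q) (-a) (-b) s p := by
  unfold HD
  have : L (-a) (-b) = -L a b := by
    ext <;> simp
  rw [this]
  exact HasFDerivWithinAt.neg hg

theorem HD.sub {g h : ℝ × ℝ → F} {a b a' b' : F} (hg : HD g a b s p) (hh : HD h a' b' s p) :
    HD (fun q => g q - h q) (a - a') (b - b') s p := by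
  simpa only [sub_eq_add_neg] using hg.add hh.neg

theorem HD.smul {c : ℝ × ℝ → ℝ} {g : ℝ × ℝ → F} {u v : ℝ} {a b : F} (hc : HD c u v s p)
    (hg : HD g a b s p) :
    HD (fun q => c q • g q) (u • g p + c p • a) (v • g p + c p • b) s p := by
  unfold HD
  have e : L (u • g p + c p • a) (v • g p + c p • b) = c p • L a b + (L u v).smulRight (g p) := by
    ext <;> simp [add_comm]
  rw [e]
  exact HasFDerivWithinAt.smul hc hg

theorem HD.mul {c g : ℝ × ℝ → ℝ} {u v a b : ℝ} (hc : HD c u v s p)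
    (hg : HD g a b s p) :
    HD (fun q => c q * g q) (u * g p + c p * a) (v * g p + c p * b) s p :=
  hc.smul hg

theorem HD.const_smul (c : ℝ) {g : ℝ × ℝ → F} {a b : F} (hg : HD g a b s p) :
    HD (fun q => c • g q) (c • a) (c • b) s p :=
  ((HD.const c).smul hg).congr' (by simp) (by simp)

theorem HD.pi {g : ℝ × ℝ → V} {a b : V} :
    HD g a b s p ↔ ∀ i, HD (fun q => g q i) (a i) (b i) s p := by
  unfold HD
  rw [hasFDerivWithinAt_pi']
  refine forall_congr' fun i => ?_
  have : (ContinuousLinearMap.proj i).comp (L a b) = L (a i) (b i) := by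
    ext <;> simp
  rw [this]

theorem HD.dot {g h : ℝ × ℝ → V} {a b a' b' : V} (hg : HD g a b s p) (hh : HD h a' b' s p) :
    HD (fun q => g q ⬝ᵥ h q) (a ⬝ᵥ h p + g p ⬝ᵥ a') (b ⬝ᵥ h p + g p ⬝ᵥ b') s p := by
  rw [HD.pi] at hg hh
  have := (((hg 0).mul (hh 0)).add ((hg 1).mul (hh 1))).add ((hg 2).mul (hh 2))
  simp only [dotProduct, Fin.sum_univ_three]
  exact this.congr' (by ring) (by ring)

theorem HD.cross {g h : ℝ × ℝ → V} {a b a' b' : V} (hg : HD g a b s p) (hh : HD h a' b' s p) :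
    HD (fun q => g q ⨯₃ h q) (a ⨯₃ h p + g p ⨯₃ a') (b ⨯₃ h p + g p ⨯₃ b') s p := by
  rw [HD.pi] at hg hh ⊢
  intro i
  fin_cases i
  · have := ((hg 1).mul (hh 2)).sub ((hg 2).mul (hh 1))
    simp only [cross_apply]
    exact this.congr' (by simp; ring) (by simp; ring)
  · have := ((hg 2).mul (hh 0)).sub ((hg 0).mul (hh 2))
    simp only [cross_apply]
    exact this.congr' (by simp; ring) (by simp; ring)
  · have := ((hg 0).mul (hh 1)).sub ((hg 1).mul (hh 0))
    simp only [cross_apply]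
    exact this.congr' (by simp; ring) (by simp; ring)

theorem HD.of_deriv {w : ℝ → ℝ} {w' : ℝ} (hw : HasDerivAt w w' p.1) :
    HD (fun q => w q.1) w' 0 s p := by
  have := (hw.hasFDerivAt.comp p (hasFDerivAt_fst (𝕜 := ℝ) (p := p))).hasFDerivWithinAt (s := s)
  unfold HD
  have e : L w' 0 = ContinuousLinearMap.toSpanSingleton ℝ w' ∘L ContinuousLinearMap.fst ℝ ℝ ℝ := by
    ext <;> simp
  rw [e]
  exact this

theorem contDiff_dx {g : ℝ × ℝ → F} {n : ℕ} (hg : ContDiff ℝ (n + 1 : ℕ) g) :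
    ContDiff ℝ n (dx g) := by
  have : ContDiff ℝ n (fderiv ℝ g) := hg.fderiv_right (by norm_cast)
  exact this.clm_apply contDiff_const

theorem contDiff_dy {g : ℝ × ℝ → F} {n : ℕ} (hg : ContDiff ℝ (n + 1 : ℕ) g) :
    ContDiff ℝ n (dy g) := by
  have : ContDiff ℝ n (fderiv ℝ g) := hg.fderiv_right (by norm_cast)
  exact this.clm_apply contDiff_const

theorem c1_dx {g : ℝ × ℝ → F} (hg : ContDiff ℝ 2 g) : ContDiff ℝ 1 (dx g) :=
  contDiff_dx (n := 1) hg

theorem c1_dy {g : ℝ × ℝ → F} (hg : ContDiff ℝ 2 g) : ContDiff ℝ 1 (dy g) :=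
  contDiff_dy (n := 1) hg

theorem cont_dx {g : ℝ × ℝ → F} (hg : ContDiff ℝ 1 g) : Continuous (dx g) :=
  (contDiff_dx (n := 0) hg).continuous

theorem cont_dy {g : ℝ × ℝ → F} (hg : ContDiff ℝ 1 g) : Continuous (dy g) :=
  (contDiff_dy (n := 0) hg).continuous

theorem dx_dy {g : ℝ × ℝ → F} [CompleteSpace F] (hg : ContDiff ℝ 2 g) (p : ℝ × ℝ) :
    dx (dy g) p = dy (dx g) p := by
  have h2 : DifferentiableAt ℝ (fderiv ℝ g) p :=
    ((hg.fderiv_right (m := 1) (by norm_num)).differentiable one_ne_zero) p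
  have hs := (hg.contDiffAt (x := p)).isSymmSndFDerivAt (by simp)
  have e : ∀ v w : ℝ × ℝ, fderiv ℝ (fun q => fderiv ℝ g q v) p w = fderiv ℝ (fderiv ℝ g) p w v := by
    intro v w
    rw [fderiv_clm_apply h2 (differentiableAt_const v)]
    simp
  show fderiv ℝ (fun q => fderiv ℝ g q (0, 1)) p (1, 0) = fderiv ℝ (fun q => fderiv ℝ g q (1, 0)) p (0, 1)
  rw [e, e]
  exact hs.eq _ _

theorem convex_D : Convex ℝ D := by
  intro p hp q hq a b ha hb hab
  simp only [D, mem_ofPred_eq, Prod.fst_add, Prod.smul_fst, smul_eq_mul, Prod.snd_add,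
    Prod.smul_snd] at *
  have : b = 1 - a := by linarith
  subst this
  nlinarith [mul_nonneg ha hb, sq_nonneg (p.1 - q.1), sq_nonneg (p.2 - q.2)]

theorem isClosed_D : IsClosed D :=
  isClosed_le (by fun_prop) continuous_const

theorem isCompact_D : IsCompact D := by
  refine (isCompact_closedBall (0 : ℝ × ℝ) 1).of_isClosed_subset isClosed_D fun p hp => ?_
  simp only [D, mem_ofPred_eq] at hp
  simp only [Metric.mem_closedBall, dist_zero_right, Prod.norm_def, Real.norm_eq_abs, max_le_iff]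
  constructor
  · exact abs_le_one_iff_mul_self_le_one.2 (by nlinarith [sq_nonneg p.2])
  · exact abs_le_one_iff_mul_self_le_one.2 (by nlinarith [sq_nonneg p.1])

theorem open_sub_interior : {p : ℝ × ℝ | p.1 ^ 2 + p.2 ^ 2 < 1} ⊆ interior D :=
  interior_maximal (fun _ hp => le_of_lt (α := ℝ) hp) (isOpen_lt (by fun_prop) continuous_const)

theorem uniqueDiffOn_D : UniqueDiffOn ℝ D :=
  uniqueDiffOn_convex convex_D ⟨0, open_sub_interior (by simp)⟩

/-- Poincare lemma on the closed disc. -/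
theorem poincare [CompleteSpace F] {P Q Px Py Qx Qy : ℝ × ℝ → F}
    (hP : ∀ p ∈ D, HD P (Px p) (Py p) D p) (hQ : ∀ p ∈ D, HD Q (Qx p) (Qy p) D p)
    (h : ∀ p ∈ D, Qx p = Py p) : ∃ g : ℝ × ℝ → F, ∀ p ∈ D, HD g (P p) (Q p) D p := by
  let A : F →L[ℝ] (ℝ × ℝ →L[ℝ] F) :=
    ContinuousLinearMap.smulRightL ℝ (ℝ × ℝ) F (ContinuousLinearMap.fst ℝ ℝ ℝ)
  let B : F →L[ℝ] (ℝ × ℝ →L[ℝ] F) :=
    ContinuousLinearMap.smulRightL ℝ (ℝ × ℝ) F (ContinuousLinearMap.snd ℝ ℝ ℝ)
  refine convex_D.exists_forall_hasFDerivWithinAt_of_hasFDerivWithinAt_symmetric (𝕜 := ℝ)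
    (ω := fun p => L (P p) (Q p))
    (dω := fun p => A.comp (L (Px p) (Py p)) + B.comp (L (Qx p) (Qy p))) ?_ ?_
  · intro p hp
    exact (A.hasFDerivAt.comp_hasFDerivWithinAt p (hP p hp)).add
      (B.hasFDerivAt.comp_hasFDerivWithinAt p (hQ p hp))
  · intro p hp v _ w _
    simp only [A, B, _root_.add_apply, ContinuousLinearMap.comp_apply, L_apply,
      ContinuousLinearMap.smulRightL_apply_apply, ContinuousLinearMap.smulRight_apply,
      ContinuousLinearMap.coe_fst', ContinuousLinearMap.coe_snd', h p hp]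
    module

/-- Derivative along the boundary circle. -/
theorem HD.circle {g : ℝ × ℝ → F} {a b : F} {t : ℝ} (h : HD g a b D (Real.cos t, Real.sin t)) :
    HasDerivAt (fun t => g (Real.cos t, Real.sin t)) (-Real.sin t • a + Real.cos t • b) t := by
  have hc : HasDerivAt (fun t => (Real.cos t, Real.sin t)) (-Real.sin t, Real.cos t) t :=
    (Real.hasDerivAt_cos t).prodMk (Real.hasDerivAt_sin t)
  have h' : HasFDerivWithinAt g (L a b) D ((fun t => (Real.cos t, Real.sin t)) t) := h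
  have := h'.comp_hasDerivWithinAt (s := univ) t hc.hasDerivWithinAt
    (fun u _ => by simp [D])
  simpa [hasDerivWithinAt_univ, Function.comp_def] using this

end HD

section Null

theorem slice_eq (y : ℝ) (hy : y ^ 2 ≤ 1) :
    {x : ℝ | x ^ 2 + y ^ 2 ≤ 1} = Icc (-√(1 - y ^ 2)) √(1 - y ^ 2) := by
  ext x
  simp only [mem_ofPred_eq, mem_Icc, ← abs_le]
  rw [Real.le_sqrt (abs_nonneg x) (by linarith), sq_abs]
  constructor <;> intro h <;> linarith

theorem slice_int {P P' : ℝ → ℝ} (y : ℝ) (hP : ∀ x, HasDerivAt P (P' x) x) (hc : Continuous P')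
    (h0 : ∀ x, x ^ 2 + y ^ 2 = 1 → P x = 0) :
    ∫ x, indicator {x : ℝ | x ^ 2 + y ^ 2 ≤ 1} P' x = 0 := by
  by_cases hy : y ^ 2 ≤ 1
  · have hs : 0 ≤ √(1 - y ^ 2) := Real.sqrt_nonneg _
    have hq : √(1 - y ^ 2) ^ 2 = 1 - y ^ 2 := Real.sq_sqrt (by linarith)
    rw [slice_eq y hy, integral_indicator measurableSet_Icc, integral_Icc_eq_integral_Ioc,
      ← intervalIntegral.integral_of_le (by linarith),
      intervalIntegral.integral_eq_sub_of_hasDerivAt (fun x _ => hP x)
        (hc.intervalIntegrable _ _), h0 _ (by rw [hq]; ring), h0 _ (by rw [neg_sq, hq]; ring)]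
    simp
  · have : {x : ℝ | x ^ 2 + y ^ 2 ≤ 1} = ∅ := by
      ext x
      simp only [mem_ofPred_eq, mem_empty_iff_false, iff_false]
      intro h
      exact hy (by nlinarith [sq_nonneg x])
    simp [this]

theorem intOn {g : ℝ × ℝ → ℝ} (hg : Continuous g) : IntegrableOn g D :=
  hg.continuousOn.integrableOn_compact isCompact_D

theorem null_x {P Px Py : ℝ × ℝ → ℝ} (hP : ∀ p, HD P (Px p) (Py p) univ p) (hc : Continuous Px)
    (h0 : ∀ p : ℝ × ℝ, p.1 ^ 2 + p.2 ^ 2 = 1 → P p = 0) : ∫ p in D, Px p = 0 := by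
  rw [← integral_indicator isClosed_D.measurableSet, Measure.volume_eq_prod,
    integral_prod_symm _ ((integrable_indicator_iff isClosed_D.measurableSet).2 (intOn hc))]
  refine integral_eq_zero_of_ae (Eventually.of_forall fun y => ?_)
  have := slice_int (P := fun x => P (x, y)) (P' := fun x => Px (x, y)) y (fun x => ?_)
    (hc.comp (by fun_prop)) (fun x hx => h0 (x, y) hx)
  · exact this
  · have h1 : HasDerivAt (fun x : ℝ => (x, y)) ((1 : ℝ), (0 : ℝ)) x :=
      (hasDerivAt_id x).prodMk (hasDerivAt_const x y)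
    simpa [Function.comp_def] using (hasFDerivWithinAt_univ.1 (hP (x, y))).comp_hasDerivAt x h1

theorem null_y {P Px Py : ℝ × ℝ → ℝ} (hP : ∀ p, HD P (Px p) (Py p) univ p) (hc : Continuous Py)
    (h0 : ∀ p : ℝ × ℝ, p.1 ^ 2 + p.2 ^ 2 = 1 → P p = 0) : ∫ p in D, Py p = 0 := by
  rw [← integral_indicator isClosed_D.measurableSet, Measure.volume_eq_prod,
    integral_prod _ ((integrable_indicator_iff isClosed_D.measurableSet).2 (intOn hc))]
  refine integral_eq_zero_of_ae (Eventually.of_forall fun x => ?_)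
  have := slice_int (P := fun y => P (x, y)) (P' := fun y => Py (x, y)) x (fun y => ?_)
    (hc.comp (by fun_prop)) (fun y hy => h0 (x, y) (by linarith))
  · refine Eq.trans ?_ this
    show (∫ y, D.indicator Py (x, y)) = _
    congr 1
    funext y
    simp only [indicator, D, mem_ofPred_eq, add_comm (x ^ 2)]
  · have h1 : HasDerivAt (fun y : ℝ => (x, y)) ((0 : ℝ), (1 : ℝ)) y :=
      (hasDerivAt_const y x).prodMk (hasDerivAt_id y)
    simpa [Function.comp_def] using (hasFDerivWithinAt_univ.1 (hP (x, y))).comp_hasDerivAt y h1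

theorem null_jac2 {a b : ℝ × ℝ → ℝ} (ha : ContDiff ℝ 1 a) (hb : ContDiff ℝ 2 b)
    (h0 : ∀ p : ℝ × ℝ, p.1 ^ 2 + p.2 ^ 2 = 1 → a p = 0) :
    ∫ p in D, (dx a p * dy b p - dy a p * dx b p) = 0 := by
  have hx := c1_dx hb
  have hy := c1_dy hb
  have c1 : Continuous fun p => dx a p * dy b p + a p * dx (dy b) p :=
    ((cont_dx ha).mul hy.continuous).add (ha.continuous.mul (cont_dx hy))
  have c2 : Continuous fun p => dy a p * dx b p + a p * dy (dx b) p :=
    ((cont_dy ha).mul hx.continuous).add (ha.continuous.mul (cont_dy hx))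
  have e1 := null_x (fun p => (HD.of_c1 ha univ p).mul (HD.of_c1 hy univ p)) c1
    (fun p hp => by simp [h0 p hp])
  have e2 := null_y (fun p => (HD.of_c1 ha univ p).mul (HD.of_c1 hx univ p)) c2
    (fun p hp => by simp [h0 p hp])
  have := integral_sub (intOn c1) (intOn c2)
  rw [e1, e2, sub_zero] at this
  rw [← this]
  congr 1
  funext p
  rw [dx_dy hb]
  ring

open Convolution ContinuousLinearMap in
theorem null_jac_cpt {a b : ℝ × ℝ → ℝ} (ha : ContDiff ℝ 1 a) (hb : ContDiff ℝ 1 b)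
    (hs : HasCompactSupport b) (h0 : ∀ p : ℝ × ℝ, p.1 ^ 2 + p.2 ^ 2 = 1 → a p = 0) :
    ∫ p in D, (dx a p * dy b p - dy a p * dx b p) = 0 := by
  let φ : ℕ → ContDiffBump (0 : ℝ × ℝ) := fun n =>
    ⟨1 / ((n : ℝ) + 1) / 2, 1 / ((n : ℝ) + 1), by positivity, by
      have : (0 : ℝ) < 1 / ((n : ℝ) + 1) := by positivity
      linarith⟩
  have hφ : Tendsto (fun n => (φ n).rOut) atTop (𝓝 0) := tendsto_one_div_add_atTop_nhds_zero_nat
  let bn : ℕ → ℝ × ℝ → ℝ := fun n => (φ n).normed volume ⋆[lsmul ℝ ℝ, volume] b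
  have hbn : ∀ n, ContDiff ℝ 2 (bn n) := fun n =>
    (φ n).hasCompactSupport_normed.contDiff_convolution_left (n := 2) _ (φ n).contDiff_normed
      hb.continuous.locallyIntegrable
  have hcf : Continuous (fderiv ℝ b) := hb.continuous_fderiv one_ne_zero
  have hd : ∀ n p v, fderiv ℝ (bn n) p v =
      ((φ n).normed volume ⋆[lsmul ℝ ℝ, volume] fun q => fderiv ℝ b q v) p := by
    intro n p v
    have hl : LocallyIntegrable ((φ n).normed volume) volume :=
      (φ n).continuous_normed.locallyIntegrable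
    rw [(hs.hasFDerivAt_convolution_right (lsmul ℝ ℝ) hl hb p).fderiv,
      convolution_precompR_apply _ hl (hs.fderiv ℝ) hcf]
  have hlim : ∀ p v, Tendsto (fun n => fderiv ℝ (bn n) p v) atTop (𝓝 (fderiv ℝ b p v)) := by
    intro p v
    simp only [hd]
    exact ContDiffBump.convolution_tendsto_right_of_continuous hφ
      (hcf.clm_apply continuous_const) p
  have hbd : ∀ v, ∃ C, ∀ n p, |fderiv ℝ (bn n) p v| ≤ C := by
    intro v
    have hc : Continuous fun q => fderiv ℝ b q v := hcf.clm_apply continuous_const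
    have hsv : HasCompactSupport fun q => fderiv ℝ b q v := hs.fderiv_apply ℝ v
    obtain ⟨C, hC⟩ := hc.bounded_above_of_compact_support hsv
    refine ⟨C, fun n p => ?_⟩
    rw [hd]
    have := dist_convolution_le (μ := volume) (z₀ := (0 : ℝ)) (x₀ := p) (ε := C)
      ((norm_nonneg _).trans (hC 0)) (φ n).support_normed_eq.subset (φ n).nonneg_normed
      (φ n).integral_normed hc.aestronglyMeasurable (fun x _ => by simpa using hC x)
    simpa [Real.dist_eq] using this
  obtain ⟨C1, hC1⟩ := hbd (1, 0)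
  obtain ⟨C2, hC2⟩ := hbd (0, 1)
  have key := tendsto_integral_of_dominated_convergence (μ := volume.restrict D)
    (F := fun n p => dx a p * dy (bn n) p - dy a p * dx (bn n) p)
    (f := fun p => dx a p * dy b p - dy a p * dx b p)
    (fun p => |dx a p| * C2 + |dy a p| * C1)
    (fun n => (((cont_dx ha).mul (c1_dy (hbn n)).continuous).sub
      ((cont_dy ha).mul (c1_dx (hbn n)).continuous)).aestronglyMeasurable)
    (intOn (((cont_dx ha).abs.mul continuous_const).add ((cont_dy ha).abs.mul continuous_const)))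
    (fun n => Eventually.of_forall fun p => by
      rw [Real.norm_eq_abs]
      refine (abs_sub _ _).trans ?_
      rw [abs_mul, abs_mul]
      exact add_le_add (mul_le_mul_of_nonneg_left (hC2 n p) (abs_nonneg _))
        (mul_le_mul_of_nonneg_left (hC1 n p) (abs_nonneg _)))
    (Eventually.of_forall fun p =>
      ((hlim p (0, 1)).const_mul _).sub ((hlim p (1, 0)).const_mul _))
  simp only [null_jac2 ha (hbn _) h0] at key
  exact (tendsto_nhds_unique key tendsto_const_nhds)

theorem null_jac {a b : ℝ × ℝ → ℝ} (ha : ContDiff ℝ 1 a) (hb : ContDiff ℝ 1 b)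
    (h0 : ∀ p : ℝ × ℝ, p.1 ^ 2 + p.2 ^ 2 = 1 → a p = 0) :
    ∫ p in D, (dx a p * dy b p - dy a p * dx b p) = 0 := by
  let χ : ContDiffBump (0 : ℝ × ℝ) := ⟨2, 3, by norm_num, by norm_num⟩
  have hb' : ContDiff ℝ 1 fun p => χ p * b p := χ.contDiff.mul hb
  have hs : HasCompactSupport fun p => χ p * b p := χ.hasCompactSupport.mul_right
  rw [← null_jac_cpt ha hb' hs h0]
  refine setIntegral_congr_fun isClosed_D.measurableSet fun p hp => ?_
  have hp2 : p ∈ Metric.ball (0 : ℝ × ℝ) 2 := by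
    simp only [D, mem_ofPred_eq] at hp
    simp only [Metric.mem_ball, dist_zero_right, Prod.norm_def, Real.norm_eq_abs, max_lt_iff]
    constructor
    · exact abs_lt.2 ⟨by nlinarith [sq_nonneg p.2], by nlinarith [sq_nonneg p.2]⟩
    · exact abs_lt.2 ⟨by nlinarith [sq_nonneg p.1], by nlinarith [sq_nonneg p.1]⟩
  have he : (fun p => χ p * b p) =ᶠ[𝓝 p] b := by
    filter_upwards [Metric.isOpen_ball.mem_nhds hp2] with q hq
    rw [χ.one_of_mem_closedBall (Metric.ball_subset_closedBall hq), one_mul]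
  simp only [dx, dy, he.fderiv_eq]

/-- A continuous nonnegative function with nonpositive integral over the disc vanishes there. -/
theorem zero_of_int {u : ℝ × ℝ → ℝ} (hu : Continuous u) (h0 : ∀ p ∈ D, 0 ≤ u p)
    (hi : ∫ p in D, u p ≤ 0) : ∀ p ∈ D, u p = 0 := by
  have hm := isClosed_D.measurableSet
  have hnn : 0 ≤ᵐ[volume.restrict D] u := (ae_restrict_iff' hm).2 (Eventually.of_forall h0)
  have hz := (setIntegral_eq_zero_iff_of_nonneg_ae hnn (intOn hu)).1
    (le_antisymm hi (setIntegral_nonneg hm h0))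
  have hin : EqOn u 0 (interior D) :=
    Measure.eqOn_open_of_ae_eq (ae_restrict_of_ae_restrict_of_subset interior_subset hz)
      isOpen_interior hu.continuousOn continuousOn_const
  have hcl : D ⊆ closure (interior D) := by
    rw [convex_D.closure_interior_eq_closure_of_nonempty_interior
      ⟨0, open_sub_interior (by simp)⟩]
    exact subset_closure
  exact fun p hp => hin.closure hu continuous_const (hcl hp)

end Null

end Pool.Agent.Lib.MP_c3ed84_gt.Cap
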