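import Pool.Agent.Lib.MP_c3ed84_gt.CapA

-- part Pool.Agent.Lib.MP_c3ed84_gt.CapB
section

/-!
The geometry of a constant mean curvature immersion of the disc in arbitrary parameters:
unit normal, complex structure, and the three potentials obtained from the Poincare lemma.
-/

set_option autoImplicit false

open Matrix Set MeasureTheory Filter Topology

namespace Pool.Agent.Lib.MP_c3ed84_gt.Cap

/-- `N` is the unit normal of `f`, `α`, `β` describe the complex structure, and the mean curvature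
equation is written as the anti-conformality of `N + H f`. -/
structure Geo (f N : ℝ × ℝ → V) (α β : ℝ × ℝ → ℝ) (H : ℝ) : Prop where
  cf : ContDiff ℝ 2 f
  cN : ContDiff ℝ 1 N
  cα : ContDiff ℝ 1 α
  cβ : ContDiff ℝ 1 β
  βpos : ∀ p, 0 < β p
  NN : ∀ p ∈ D, N p ⬝ᵥ N p = 1
  NA : ∀ p ∈ D, N p ⬝ᵥ dx f p = 0
  A0 : ∀ p ∈ D, dx f p ≠ 0
  hB : ∀ p ∈ D, dy f p = α p • dx f p + β p • (N p ⨯₃ dx f p)
  hQ : ∀ p ∈ D, dy N p + H • dy f p =
    α p • (dx N p + H • dx f p) - β p • (N p ⨯₃ (dx N p + H • dx f p))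

theorem vext {a b : V} (h0 : a 0 = b 0) (h1 : a 1 = b 1) (h2 : a 2 = b 2) : a = b := by
  ext i
  fin_cases i
  exacts [h0, h1, h2]

theorem dot3 (a b : V) : a ⬝ᵥ b = a 0 * b 0 + a 1 * b 1 + a 2 * b 2 := by
  simp [dotProduct, Fin.sum_univ_three]

theorem cr0 (a b : V) : (a ⨯₃ b) 0 = a 1 * b 2 - a 2 * b 1 := by simp [cross_apply]

theorem cr1 (a b : V) : (a ⨯₃ b) 1 = a 2 * b 0 - a 0 * b 2 := by simp [cross_apply]

theorem cr2 (a b : V) : (a ⨯₃ b) 2 = a 0 * b 1 - a 1 * b 0 := by simp [cross_apply]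

theorem pos_ext {g : ℝ × ℝ → ℝ} (hg : ContDiff ℝ 1 g) (h0 : ∀ p, 0 ≤ g p)
    (hp : ∀ p ∈ D, 0 < g p) :
    ∃ G : ℝ × ℝ → ℝ, ContDiff ℝ 1 G ∧ (∀ p, 0 < G p) ∧ ∀ p ∈ D, G p = g p := by
  obtain ⟨q, hq, hmin⟩ := isCompact_D.exists_isMinOn ⟨0, by simp [D]⟩ hg.continuous.continuousOn
  refine ⟨fun p => g p + Real.smoothTransition (g q - g p), ?_, fun p => ?_, fun p hp' => ?_⟩
  · exact hg.add (Real.smoothTransition.contDiff.comp (contDiff_const.sub hg))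
  · rcases lt_or_ge (g p) (g q) with h | h
    · have := Real.smoothTransition.pos_of_pos (x := g q - g p) (by linarith)
      linarith [h0 p]
    · have := Real.smoothTransition.nonneg (g q - g p)
      linarith [hp q hq]
  · have : g q ≤ g p := hmin hp'
    simp only [Real.smoothTransition.zero_of_nonpos (sub_nonpos.2 this), add_zero]

theorem dot_self_nonneg' (a : V) : 0 ≤ a ⬝ᵥ a := by
  simp only [dotProduct, Fin.sum_univ_three]
  nlinarith [mul_self_nonneg (a 0), mul_self_nonneg (a 1), mul_self_nonneg (a 2)]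

theorem dot_self_pos' {a : V} (h : a ≠ 0) : 0 < a ⬝ᵥ a :=
  lt_of_le_of_ne (dot_self_nonneg' a) fun e => h (dotProduct_self_eq_zero.1 e.symm)

theorem c1_dot {g h : ℝ × ℝ → V} (hg : ContDiff ℝ 1 g) (hh : ContDiff ℝ 1 h) :
    ContDiff ℝ 1 fun p => g p ⬝ᵥ h p := by
  simp only [dotProduct, Fin.sum_univ_three]
  rw [contDiff_pi] at hg hh
  exact (((hg 0).mul (hh 0)).add ((hg 1).mul (hh 1))).add ((hg 2).mul (hh 2))

theorem c1_cross {g h : ℝ × ℝ → V} (hg : ContDiff ℝ 1 g) (hh : ContDiff ℝ 1 h) :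
    ContDiff ℝ 1 fun p => g p ⨯₃ h p := by
  rw [contDiff_pi] at hg hh ⊢
  intro i
  fin_cases i
  · simpa [cross_apply] using ((hg 1).mul (hh 2)).sub ((hg 2).mul (hh 1))
  · simpa [cross_apply] using ((hg 2).mul (hh 0)).sub ((hg 0).mul (hh 2))
  · simpa [cross_apply] using ((hg 0).mul (hh 1)).sub ((hg 1).mul (hh 0))

/-- A vector orthogonal to `A`, `B` and `A × B ≠ 0` vanishes. -/
theorem eq_zero_of_perp {A B X : V} (h : A ⨯₃ B ≠ 0) (hA : X ⬝ᵥ A = 0) (hB : X ⬝ᵥ B = 0)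
    (hN : X ⬝ᵥ (A ⨯₃ B) = 0) : X = 0 := by
  have e : ((A ⨯₃ B) ⬝ᵥ (A ⨯₃ B)) • X = (X ⬝ᵥ (A ⨯₃ B)) • (A ⨯₃ B) +
      (X ⬝ᵥ A) • (B ⨯₃ (A ⨯₃ B)) - (X ⬝ᵥ B) • (A ⨯₃ (A ⨯₃ B)) := by
    ext i
    fin_cases i <;> simp [cross_apply, dotProduct, Fin.sum_univ_three] <;> ring
  rw [hA, hB, hN] at e
  simp only [zero_smul, add_zero, sub_zero] at e
  exact (smul_eq_zero.1 e).resolve_left (dot_self_pos' h).ne'

theorem alg_setup {A B N Nx Ny Axx Axy Byy : V} {W E H : ℝ} (hW : 0 < W) (hE : E = A ⬝ᵥ A)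
    (hE0 : 0 < E) (hN : A ⨯₃ B = W • N) (hNN : N ⬝ᵥ N = 1) (hx : N ⬝ᵥ Nx = 0) (hy : N ⬝ᵥ Ny = 0)
    (h1 : Nx ⬝ᵥ A + N ⬝ᵥ Axx = 0) (h2 : Ny ⬝ᵥ A + N ⬝ᵥ Axy = 0)
    (h3 : Nx ⬝ᵥ B + N ⬝ᵥ Axy = 0) (h4 : Ny ⬝ᵥ B + N ⬝ᵥ Byy = 0)
    (hH : A ⬝ᵥ A * (Byy ⬝ᵥ N) - 2 * (A ⬝ᵥ B) * (Axy ⬝ᵥ N) + B ⬝ᵥ B * (Axx ⬝ᵥ N) = 2 * H * W ^ 2) :
    B = ((A ⬝ᵥ B) / E) • A + (W / E) • (N ⨯₃ A) ∧
    Ny + H • B = ((A ⬝ᵥ B) / E) • (Nx + H • A) - (W / E) • (N ⨯₃ (Nx + H • A)) := by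
  have hNA : N ⬝ᵥ A = 0 := by
    have : W * (N ⬝ᵥ A) = 0 := by
      rw [← smul_eq_mul, ← smul_dotProduct, ← hN, dotProduct_comm, dot_self_cross]
    exact (mul_eq_zero.1 this).resolve_left hW.ne'
  have hNB : N ⬝ᵥ B = 0 := by
    have : W * (N ⬝ᵥ B) = 0 := by
      rw [← smul_eq_mul, ← smul_dotProduct, ← hN, dotProduct_comm, dot_cross_self]
    exact (mul_eq_zero.1 this).resolve_left hW.ne'
  have hW2 : W ^ 2 = A ⬝ᵥ A * (B ⬝ᵥ B) - (A ⬝ᵥ B) ^ 2 := by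
    have := cross_dot_cross A B A B
    rw [hN, smul_dotProduct, dotProduct_smul, hNN, dotProduct_comm B A] at this
    simp only [smul_eq_mul] at this
    linarith
  have hne : A ⨯₃ B ≠ 0 := by
    rw [hN]
    refine smul_ne_zero hW.ne' fun e => ?_
    simp [e] at hNN
  -- `W (N × X) · Y` in terms of dot products
  have key : ∀ X Y : V, W * ((N ⨯₃ X) ⬝ᵥ Y) = A ⬝ᵥ X * (B ⬝ᵥ Y) - A ⬝ᵥ Y * (B ⬝ᵥ X) := by
    intro X Y
    have e1 : W * ((N ⨯₃ X) ⬝ᵥ Y) = ((W • N) ⨯₃ X) ⬝ᵥ Y := by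
      simp [cross_apply, dotProduct, Fin.sum_univ_three]; ring
    rw [e1, ← hN]
    simp [cross_apply, dotProduct, Fin.sum_univ_three]; ring
  have hperp : ∀ X : V, (N ⨯₃ X) ⬝ᵥ N = 0 := fun X => by
    rw [dotProduct_comm, dot_self_cross]
  have hAN : A ⬝ᵥ N = 0 := by rw [dotProduct_comm, hNA]
  have hBN : B ⬝ᵥ N = 0 := by rw [dotProduct_comm, hNB]
  have hBA : B ⬝ᵥ A = A ⬝ᵥ B := dotProduct_comm _ _
  constructor
  · rw [← sub_eq_zero]
    refine eq_zero_of_perp hne ?_ ?_ ?_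
    · simp only [sub_dotProduct, add_dotProduct, smul_dotProduct, smul_eq_mul]
      have := key A A
      field_simp
      rw [hE]
      linear_combination (A ⬝ᵥ A) * hBA - this
    · simp only [sub_dotProduct, add_dotProduct, smul_dotProduct, smul_eq_mul]
      have := key A B
      field_simp
      rw [hE]
      linear_combination -this + (A ⬝ᵥ B) * hBA
    · rw [hN]
      simp only [sub_dotProduct, add_dotProduct, smul_dotProduct, dotProduct_smul, smul_eq_mul,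
        hAN, hBN, hperp]
      ring
  · rw [← sub_eq_zero]
    obtain ⟨P, hP⟩ : ∃ P, P = Nx + H • A := ⟨_, rfl⟩
    have pA : A ⬝ᵥ P = H * (A ⬝ᵥ A) - Axx ⬝ᵥ N := by
      rw [hP, dotProduct_add, dotProduct_smul, dotProduct_comm A Nx, dotProduct_comm Axx N,
        smul_eq_mul]
      linarith
    have pB : B ⬝ᵥ P = H * (A ⬝ᵥ B) - Axy ⬝ᵥ N := by
      rw [hP, dotProduct_add, dotProduct_smul, dotProduct_comm B Nx, dotProduct_comm Axy N,
        smul_eq_mul, hBA]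
      linarith
    have pN : P ⬝ᵥ N = 0 := by
      rw [hP, add_dotProduct, smul_dotProduct, hAN, dotProduct_comm Nx N, hx]; simp
    rw [← hP]
    refine eq_zero_of_perp hne ?_ ?_ ?_
    · simp only [sub_dotProduct, add_dotProduct, smul_dotProduct, smul_eq_mul]
      have := key P A
      rw [dotProduct_comm P A, dotProduct_comm N Axy] at *
      field_simp
      rw [hE]
      linear_combination (A ⬝ᵥ A) * h2 + this + (A ⬝ᵥ P) * hBA - (A ⬝ᵥ A) * pB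
        + H * (A ⬝ᵥ A) * hBA
    · simp only [sub_dotProduct, add_dotProduct, smul_dotProduct, smul_eq_mul]
      have := key P B
      rw [dotProduct_comm P B, dotProduct_comm N Byy] at *
      field_simp
      rw [hE]
      linear_combination (A ⬝ᵥ A) * h4 + this + (B ⬝ᵥ B) * pA - 2 * (A ⬝ᵥ B) * pB - hH
        - 2 * H * hW2
    · rw [hN]
      simp only [sub_dotProduct, add_dotProduct, smul_dotProduct, dotProduct_smul, smul_eq_mul,
        hBN, hperp, pN, dotProduct_comm Ny N, hy]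
      ring

theorem setup {f : ℝ × ℝ → V} {H : ℝ} (hf : ContDiff ℝ 2 f)
    (him : ∀ p ∈ D, dx f p ⨯₃ dy f p ≠ 0)
    (hH : ∀ p ∈ D, dx f p ⬝ᵥ dx f p * (dy (dy f) p ⬝ᵥ (dx f p ⨯₃ dy f p))
      - 2 * (dx f p ⬝ᵥ dy f p) * (dy (dx f) p ⬝ᵥ (dx f p ⨯₃ dy f p))
      + dy f p ⬝ᵥ dy f p * (dx (dx f) p ⬝ᵥ (dx f p ⨯₃ dy f p))
      = 2 * H * (dx f p ⬝ᵥ dx f p * (dy f p ⬝ᵥ dy f p) - (dx f p ⬝ᵥ dy f p) ^ 2) *
        √(dx f p ⬝ᵥ dx f p * (dy f p ⬝ᵥ dy f p) - (dx f p ⬝ᵥ dy f p) ^ 2)) :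
    ∃ N α β, Geo f N α β H := by
  have hA := c1_dx hf
  have hB := c1_dy hf
  have hn := c1_cross hA hB
  obtain ⟨G, hG, hG0, hGe⟩ := pos_ext (c1_dot hn hn) (fun p => dot_self_nonneg' _)
    (fun p hp => dot_self_pos' (him p hp))
  have hA0 : ∀ p ∈ D, dx f p ≠ 0 := fun p hp e => him p hp (by simp [e])
  obtain ⟨E, hE, hE0, hEe⟩ := pos_ext (c1_dot hA hA) (fun p => dot_self_nonneg' _)
    (fun p hp => dot_self_pos' (hA0 p hp))
  have hW : ContDiff ℝ 1 fun p => √(G p) := hG.sqrt fun p => (hG0 p).ne'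
  have hW0 : ∀ p, 0 < √(G p) := fun p => Real.sqrt_pos.2 (hG0 p)
  obtain ⟨N, hNd⟩ : ∃ N : ℝ × ℝ → V, N = fun p => (√(G p))⁻¹ • (dx f p ⨯₃ dy f p) := ⟨_, rfl⟩
  have hN : ContDiff ℝ 1 N := by
    rw [hNd]
    exact (hW.inv fun p => (hW0 p).ne').smul hn
  have hc : ∀ p, dx f p ⨯₃ dy f p = √(G p) • N p := fun p => by
    rw [hNd, smul_smul, mul_inv_cancel₀ (hW0 p).ne', one_smul]
  have hNN : ∀ p ∈ D, N p ⬝ᵥ N p = 1 := fun p hp => by
    have h1 := hGe p hp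
    simp only [hc, smul_dotProduct, dotProduct_smul, smul_eq_mul] at h1
    rw [← mul_assoc, Real.mul_self_sqrt (hG0 p).le] at h1
    exact mul_left_cancel₀ (hG0 p).ne' (by linarith)
  have hNA : ∀ p, N p ⬝ᵥ dx f p = 0 := fun p => by
    rw [hNd]
    simp only [smul_dotProduct]
    rw [dotProduct_comm, dot_self_cross, smul_zero]
  have hNB : ∀ p, N p ⬝ᵥ dy f p = 0 := fun p => by
    rw [hNd]
    simp only [smul_dotProduct]
    rw [dotProduct_comm, dot_cross_self, smul_zero]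
  have main : ∀ p ∈ D, dy f p = ((dx f p ⬝ᵥ dy f p) / E p) • dx f p +
      (√(G p) / E p) • (N p ⨯₃ dx f p) ∧
      dy N p + H • dy f p = ((dx f p ⬝ᵥ dy f p) / E p) • (dx N p + H • dx f p) -
        (√(G p) / E p) • (N p ⨯₃ (dx N p + H • dx f p)) := by
    intro p hp
    have u := uniqueDiffOn_D p hp
    have d1 := HD.unique u (((HD.of_c1 hN D p).dot (HD.of_c1 hN D p)))
      ((HD.const (1 : ℝ)).congr_on hp hNN)
    have d2 := HD.unique u (((HD.of_c1 hN D p).dot (HD.of_c1 hA D p)))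
      ((HD.const (0 : ℝ)).congr_on hp fun q _ => hNA q)
    have d3 := HD.unique u (((HD.of_c1 hN D p).dot (HD.of_c1 hB D p)))
      ((HD.const (0 : ℝ)).congr_on hp fun q _ => hNB q)
    have hG2 : dx f p ⬝ᵥ dx f p * (dy f p ⬝ᵥ dy f p) - (dx f p ⬝ᵥ dy f p) ^ 2 = G p := by
      rw [hGe p hp, cross_dot_cross, dotProduct_comm (dy f p) (dx f p)]; ring
    refine alg_setup (Axx := dx (dx f) p) (Axy := dy (dx f) p) (Byy := dy (dy f) p) (hW0 p)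
      (hEe p hp) (hE0 p) (hc p) (hNN p hp) ?_ ?_ d2.1 d2.2 (by rw [← dx_dy hf]; exact d3.1) d3.2 ?_
    · have := d1.1
      rw [dotProduct_comm (dx N p)] at this
      linarith
    · have := d1.2
      rw [dotProduct_comm (dy N p)] at this
      linarith
    · have := hH p hp
      rw [hG2, hc p] at this
      simp only [dotProduct_smul, smul_eq_mul] at this
      rw [Real.sq_sqrt (hG0 p).le]
      refine mul_left_cancel₀ (hW0 p).ne' ?_
      linear_combination this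
  exact ⟨N, fun p => (dx f p ⬝ᵥ dy f p) / E p, fun p => √(G p) / E p, hf, hN,
    (c1_dot hA hB).div hE fun p => (hE0 p).ne', hW.div hE fun p => (hE0 p).ne',
    fun p => div_pos (hW0 p) (hE0 p), hNN, fun p _ => hNA p, hA0, fun p hp => (main p hp).1,
    fun p hp => (main p hp).2⟩

variable {f N : ℝ × ℝ → V} {α β : ℝ × ℝ → ℝ} {H : ℝ}

theorem Geo.c1 (g : Geo f N α β H) : ContDiff ℝ 1 f := g.cf.of_le (by norm_num)

theorem Geo.scale (g : Geo f N α β H) (c : V) {r : ℝ} (hr : 0 < r) :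
    Geo (fun p => r⁻¹ • (f p - c)) N α β (r * H) := by
  have hd : ∀ p, HD (fun p => r⁻¹ • (f p - c)) (r⁻¹ • dx f p) (r⁻¹ • dy f p) univ p := fun p =>
    (((HD.of_c1 g.c1 univ p).sub (HD.const c)).const_smul r⁻¹).congr' (by simp) (by simp)
  have e : ∀ X : V, (r * H) • r⁻¹ • X = H • X := fun X => by
    rw [smul_smul]; congr 1; field_simp
  refine ⟨(g.cf.sub contDiff_const).const_smul _, g.cN, g.cα, g.cβ, g.βpos, g.NN, ?_, ?_, ?_, ?_⟩
  · intro p hp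
    rw [(hd p).dx_eq, dotProduct_smul, g.NA p hp, smul_zero]
  · intro p hp
    rw [(hd p).dx_eq]
    exact smul_ne_zero (inv_ne_zero hr.ne') (g.A0 p hp)
  · intro p hp
    rw [(hd p).dx_eq, (hd p).dy_eq, g.hB p hp, LinearMap.map_smul]
    module
  · intro p hp
    rw [(hd p).dx_eq, (hd p).dy_eq, e, e]
    exact g.hQ p hp

theorem Geo.NNx (g : Geo f N α β H) {p : ℝ × ℝ} (hp : p ∈ D) :
    N p ⬝ᵥ dx N p = 0 ∧ N p ⬝ᵥ dy N p = 0 := by
  have d1 := HD.unique (uniqueDiffOn_D p hp) (((HD.of_c1 g.cN D p).dot (HD.of_c1 g.cN D p)))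
    ((HD.const (1 : ℝ)).congr_on hp g.NN)
  rw [dotProduct_comm (dx N p), dotProduct_comm (dy N p)] at d1
  exact ⟨by linarith [d1.1], by linarith [d1.2]⟩

theorem Geo.NB (g : Geo f N α β H) {p : ℝ × ℝ} (hp : p ∈ D) : N p ⬝ᵥ dy f p = 0 := by
  rw [g.hB p hp, dotProduct_add, dotProduct_smul, dotProduct_smul, g.NA p hp, dot_self_cross]
  simp

theorem alg_star {A B N Nx Ny : V} {a b H : ℝ} (hNA : N ⬝ᵥ A = 0) (hx : N ⬝ᵥ Nx = 0)
    (hB : B = a • A + b • (N ⨯₃ A))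
    (hQ : Ny + H • B = a • (Nx + H • A) - b • (N ⨯₃ (Nx + H • A))) :
    Ny ⨯₃ A - Nx ⨯₃ B = (2 * H) • (A ⨯₃ B) := by
  obtain ⟨P, hP⟩ : ∃ P, P = Nx + H • A := ⟨_, rfl⟩
  have hPN : N ⬝ᵥ P = 0 := by
    rw [hP, dotProduct_add, dotProduct_smul, hx, hNA]; simp
  have e1 : Nx = P - H • A := by rw [hP]; abel
  have e2 : Ny = a • P - b • (N ⨯₃ P) - H • B := by rw [hP, ← hQ]; abel
  have e3 : (a • P - b • (N ⨯₃ P)) ⨯₃ A - P ⨯₃ (a • A + b • (N ⨯₃ A)) =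
      (b * (N ⬝ᵥ P)) • A - (b * (N ⬝ᵥ A)) • P := by
    apply vext <;> simp only [cr0, cr1, cr2, dot3, Pi.add_apply, Pi.sub_apply, Pi.smul_apply,
      smul_eq_mul] <;> ring
  rw [hPN, hNA, ← hB] at e3
  simp only [mul_zero, zero_smul, sub_zero] at e3
  have e4 : Ny ⨯₃ A - Nx ⨯₃ B =
      ((a • P - b • (N ⨯₃ P)) ⨯₃ A - P ⨯₃ B) + (2 * H) • (A ⨯₃ B) := by
    rw [e1, e2]
    generalize a • P - b • (N ⨯₃ P) = Q
    ext i
    fin_cases i <;> simp [cross_apply] <;> ring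
  rw [e4, e3, zero_add]

theorem alg_h1 {A B N : V} (hA : N ⬝ᵥ A = 0) (hB : N ⬝ᵥ B = 0) :
    (-(N ⨯₃ A)) ⨯₃ B + A ⨯₃ (-(N ⨯₃ B)) = 0 := by
  have : (-(N ⨯₃ A)) ⨯₃ B + A ⨯₃ (-(N ⨯₃ B)) = (N ⬝ᵥ A) • B - (N ⬝ᵥ B) • A := by
    ext i
    fin_cases i <;> simp [cross_apply, dotProduct, Fin.sum_univ_three] <;> ring
  rw [this, hA, hB]; simp

theorem alg_h2 {A B N : V} (hN : N ⬝ᵥ N = 1) (hA : N ⬝ᵥ A = 0) (hB : N ⬝ᵥ B = 0) :
    (-(N ⨯₃ A)) ⨯₃ (-(N ⨯₃ B)) = A ⨯₃ B := by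
  have : (-(N ⨯₃ A)) ⨯₃ (-(N ⨯₃ B)) =
      (N ⬝ᵥ N) • (A ⨯₃ B) + (N ⬝ᵥ B) • (N ⨯₃ A) - (N ⬝ᵥ A) • (N ⨯₃ B) := by
    ext i
    fin_cases i <;> simp [cross_apply, dotProduct, Fin.sum_univ_three] <;> ring
  rw [this, hN, hA, hB]; simp

/-- The one-form of the first potential, on a tangent vector `v` with conormal part `m`. -/
noncomputable def w1 (H : ℝ) (x v m : V) : V := m - H • (x ⨯₃ v)

/-- The one-form of the second potential. -/
noncomputable def w2 (H : ℝ) (x Ψ v m : V) : V := (H / 2 * (x ⬝ᵥ x)) • v + Ψ ⨯₃ v + x ⨯₃ m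

/-- The one-form of the third potential. -/
noncomputable def w3 (H : ℝ) (x Ψ χ v m : V) : V :=
  Ψ ⨯₃ m - x ⨯₃ v - H • (χ ⨯₃ v - (x ⬝ᵥ Ψ) • v - (1 / 2 * (x ⬝ᵥ x)) • m)

theorem Geo.potentials (g : Geo f N α β H) : ∃ Ψ χ η : ℝ × ℝ → V, ∀ p ∈ D,
    HD Ψ (w1 H (f p) (dx f p) (-(N p ⨯₃ dx f p))) (w1 H (f p) (dy f p) (-(N p ⨯₃ dy f p))) D p ∧
    HD χ (w2 H (f p) (Ψ p) (dx f p) (-(N p ⨯₃ dx f p)))
      (w2 H (f p) (Ψ p) (dy f p) (-(N p ⨯₃ dy f p))) D p ∧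
    HD η (w3 H (f p) (Ψ p) (χ p) (dx f p) (-(N p ⨯₃ dx f p)))
      (w3 H (f p) (Ψ p) (χ p) (dy f p) (-(N p ⨯₃ dy f p))) D p := by
  have df := fun p => HD.of_c1 g.c1 D p
  have dA := fun p => HD.of_c1 (c1_dx g.cf) D p
  have dB : ∀ p, HD (dy f) (dy (dx f) p) (dy (dy f) p) D p := fun p =>
    (HD.of_c1 (c1_dy g.cf) D p).congr' (dx_dy g.cf p) rfl
  obtain ⟨a, ha⟩ : ∃ a : ℝ × ℝ → V, a = fun p => -(N p ⨯₃ dx f p) := ⟨_, rfl⟩
  obtain ⟨b, hb⟩ : ∃ b : ℝ × ℝ → V, b = fun p => -(N p ⨯₃ dy f p) := ⟨_, rfl⟩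
  have ha' : ∀ p, -(N p ⨯₃ dx f p) = a p := fun p => by rw [ha]
  have hb' : ∀ p, -(N p ⨯₃ dy f p) = b p := fun p => by rw [hb]
  simp only [ha', hb']
  obtain ⟨ax, ay, bx, bz, da, db, hab⟩ : ∃ ax ay bx bz : ℝ × ℝ → V,
      (∀ p, HD a (ax p) (ay p) D p) ∧ (∀ p, HD b (bx p) (bz p) D p) ∧
      ∀ p ∈ D, bx p = ay p + (2 * H) • (dx f p ⨯₃ dy f p) := by
    rw [ha, hb]
    refine ⟨_, _, _, _, fun p => ((HD.of_c1 g.cN D p).cross (dA p)).neg,
      fun p => ((HD.of_c1 g.cN D p).cross (dB p)).neg, fun p hp => ?_⟩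
    rw [← alg_star (g.NA p hp) (g.NNx hp).1 (g.hB p hp) (g.hQ p hp)]
    abel
  have h1 : ∀ p ∈ D, a p ⨯₃ dy f p + dx f p ⨯₃ b p = 0 := fun p hp => by
    rw [ha, hb]; exact alg_h1 (g.NA p hp) (g.NB hp)
  have h2 : ∀ p ∈ D, a p ⨯₃ b p = dx f p ⨯₃ dy f p := fun p hp => by
    rw [ha, hb]; exact alg_h2 (g.NN p hp) (g.NA p hp) (g.NB hp)
  obtain ⟨Ψ, dΨ⟩ := poincare (P := fun p => w1 H (f p) (dx f p) (a p))
    (Q := fun p => w1 H (f p) (dy f p) (b p))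
    (fun p _ => (da p).sub (((df p).cross (dA p)).const_smul H))
    (fun p _ => (db p).sub (((df p).cross (dB p)).const_smul H)) (fun p hp => by
      rw [hab p hp]
      apply vext <;> simp only [cr0, cr1, cr2, Pi.add_apply, Pi.sub_apply, Pi.smul_apply,
        smul_eq_mul] <;> ring)
  obtain ⟨χ, dχ⟩ := poincare (P := fun p => w2 H (f p) (Ψ p) (dx f p) (a p))
    (Q := fun p => w2 H (f p) (Ψ p) (dy f p) (b p))
    (fun p hp => (((((df p).dot (df p)).const_smul (H / 2)).smul (dA p)).add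
      ((dΨ p hp).cross (dA p))).add ((df p).cross (da p)))
    (fun p hp => (((((df p).dot (df p)).const_smul (H / 2)).smul (dB p)).add
      ((dΨ p hp).cross (dB p))).add ((df p).cross (db p))) (fun p hp => by
      have e : (2 : ℝ) • (a p ⨯₃ dy f p + dx f p ⨯₃ b p) = 0 := by
        rw [h1 p hp, smul_zero]
      rw [hab p hp, ← sub_eq_zero, ← e]
      apply vext <;> simp only [w1, cr0, cr1, cr2, dot3, Pi.add_apply, Pi.sub_apply, Pi.smul_apply,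
        smul_eq_mul] <;> ring)
  obtain ⟨η, dη⟩ := poincare (P := fun p => w3 H (f p) (Ψ p) (χ p) (dx f p) (a p))
    (Q := fun p => w3 H (f p) (Ψ p) (χ p) (dy f p) (b p))
    (fun p hp => (((dΨ p hp).cross (da p)).sub ((df p).cross (dA p))).sub
      (((((dχ p hp).cross (dA p)).sub (((df p).dot (dΨ p hp)).smul (dA p))).sub
        ((((df p).dot (df p)).const_smul (1 / 2)).smul (da p))).const_smul H))
    (fun p hp => (((dΨ p hp).cross (db p)).sub ((df p).cross (dB p))).sub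
      (((((dχ p hp).cross (dB p)).sub (((df p).dot (dΨ p hp)).smul (dB p))).sub
        ((((df p).dot (df p)).const_smul (1 / 2)).smul (db p))).const_smul H)) (fun p hp => by
      have e : (2 : ℝ) • (a p ⨯₃ b p - dx f p ⨯₃ dy f p) -
          (2 * H) • (f p ⨯₃ (a p ⨯₃ dy f p + dx f p ⨯₃ b p)) = 0 := by
        rw [h1 p hp, h2 p hp]; simp
      rw [hab p hp, ← sub_eq_zero, ← e]
      apply vext <;> simp only [w1, w2, cr0, cr1, cr2, dot3, Pi.add_apply, Pi.sub_apply,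
        Pi.smul_apply, smul_eq_mul] <;> ring)
  exact ⟨Ψ, χ, η, fun p hp => ⟨dΨ p hp, dχ p hp, dη p hp⟩⟩

end Pool.Agent.Lib.MP_c3ed84_gt.Cap
end

-- part Pool.Agent.Lib.MP_c3ed84_gt.CapC
section

/-!
Hurwitz's form of the isoperimetric inequality, and the boundary computation: along a round
boundary circle the unit normal makes a constant angle with the plane of the circle.
-/

set_option autoImplicit false

open Matrix Set Filter Topology Real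

namespace Pool.Agent.Lib.MP_c3ed84_gt.Cap

theorem exists_anti {g : ℝ → ℝ} (hc : Continuous g) :
    ∃ G : ℝ → ℝ, G 0 = 0 ∧ ∀ t, HasDerivAt G (g t) t :=
  ⟨fun u => ∫ x in (0 : ℝ)..u, g x, by simp, fun t =>
    intervalIntegral.integral_hasDerivAt_right (hc.intervalIntegrable _ _)
      (hc.stronglyMeasurableAtFilter _ _) hc.continuousAt⟩

theorem mono_of {F F' : ℝ → ℝ} {a b : ℝ} (hab : a ≤ b) (h : ∀ t ∈ Icc a b, HasDerivAt F (F' t) t)
    (h0 : ∀ t ∈ Icc a b, 0 ≤ F' t) : F a ≤ F b := by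
  have := monotoneOn_of_hasDerivWithinAt_nonneg (convex_Icc a b) (f := F) (f' := F')
    (fun t ht => (h t ht).continuousAt.continuousWithinAt)
    (fun t ht => (h t (interior_subset ht)).hasDerivWithinAt)
    (fun t ht => h0 t (interior_subset ht))
  exact this (left_mem_Icc.2 hab) (right_mem_Icc.2 hab) hab

theorem dirichlet {s σ y yd J K : ℝ → ℝ} {a b : ℝ} (hab : a ≤ b)
    (hs : ∀ t, HasDerivAt s (σ t) t) (hσ : ∀ t, 0 < σ t) (hy : ∀ t, HasDerivAt y (σ t * yd t) t)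
    (hJ : ∀ t, HasDerivAt J (σ t * y t ^ 2) t) (hK : ∀ t, HasDerivAt K (σ t * yd t ^ 2) t)
    (hπ : s b - s a = π) (ha : y a = 0) (hb : y b = 0) : J b - J a ≤ K b - K a := by
  have hm := (strictMono_of_hasDerivAt_pos hs hσ).monotone
  have key : ∀ κ : ℝ, 0 < κ → κ < 1 → κ ^ 2 * (J b - J a) ≤ K b - K a := by
    intro κ h0 h1
    have := mono_of hab
      (F := fun t => K t - κ ^ 2 * J t + κ * (y t ^ 2 * tan (κ * (s t - s a - π / 2))))
      (F' := fun t => σ t * (yd t + κ * y t * tan (κ * (s t - s a - π / 2))) ^ 2) (fun t ht => ?_)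
      (fun t _ => mul_nonneg (hσ t).le (sq_nonneg _))
    · simp only [ha, hb] at this
      linarith
    · have l1 := hm ht.1
      have l2 := hm ht.2
      have hc : cos (κ * (s t - s a - π / 2)) ≠ 0 := by
        refine (cos_pos_of_mem_Ioo ⟨?_, ?_⟩).ne'
        · nlinarith [pi_pos]
        · nlinarith [pi_pos]
      have hi : HasDerivAt (fun t => κ * (s t - s a - π / 2)) (κ * σ t) t :=
        (((hs t).sub_const _).sub_const _).const_mul κ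
      have ht' := (hasDerivAt_tan hc).comp t hi
      have := ((hK t).sub ((hJ t).const_mul (κ ^ 2))).add
        ((((hy t).pow 2).mul ht').const_mul κ)
      refine this.congr_deriv ?_
      have e : 1 / cos (κ * (s t - s a - π / 2)) ^ 2 = 1 + tan (κ * (s t - s a - π / 2)) ^ 2 := by
        rw [one_div, ← inv_one_add_tan_sq hc, inv_inv]
      rw [e]
      simp only [Function.comp_apply, Pi.pow_apply]
      push_cast
      ring
  have hc : Tendsto (fun κ : ℝ => κ ^ 2 * (J b - J a)) (𝓝[<] 1) (𝓝 (1 ^ 2 * (J b - J a))) :=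
    (((continuous_pow 2).mul continuous_const).tendsto 1).mono_left nhdsWithin_le_nhds
  rw [one_pow, one_mul] at hc
  refine le_of_tendsto hc ?_
  filter_upwards [Ioo_mem_nhdsLT (show (0 : ℝ) < 1 by norm_num)] with κ hκ using key κ hκ.1 hκ.2

theorem exists_unit_perp (u v : ℝ) : ∃ c d : ℝ, c ^ 2 + d ^ 2 = 1 ∧ c * u + d * v = 0 := by
  by_cases h : u ^ 2 + v ^ 2 = 0
  · have hu : u = 0 := by nlinarith [sq_nonneg u, sq_nonneg v]
    exact ⟨1, 0, by norm_num, by simp [hu]⟩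
  · have hp : 0 < u ^ 2 + v ^ 2 := lt_of_le_of_ne (by positivity) (Ne.symm h)
    have hs := sqrt_pos.2 hp
    refine ⟨v / √(u ^ 2 + v ^ 2), -u / √(u ^ 2 + v ^ 2), ?_, ?_⟩
    · rw [div_pow, div_pow, sq_sqrt hp.le]
      field_simp
      ring
    · field_simp
      ring

theorem hurwitz {s σ X Y xd yd Ar En : ℝ → ℝ} {T : ℝ} (hT : 0 ≤ T)
    (hs : ∀ t, HasDerivAt s (σ t) t) (hσ : ∀ t, 0 < σ t) (cσ : Continuous σ)
    (cx : Continuous xd) (cy : Continuous yd)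
    (hX : ∀ t, HasDerivAt X (σ t * xd t) t) (hY : ∀ t, HasDerivAt Y (σ t * yd t) t)
    (hA : ∀ t, HasDerivAt Ar (σ t * (X t * yd t - Y t * xd t)) t)
    (hE : ∀ t, HasDerivAt En (σ t * (xd t ^ 2 + yd t ^ 2)) t)
    (hπ : s T - s 0 = 2 * π) (pX : X T = X 0) (pY : Y T = Y 0) :
    Ar T - Ar 0 ≤ En T - En 0 := by
  have cs : Continuous s := continuous_iff_continuousAt.2 fun t => (hs t).continuousAt
  have cX : Continuous X := continuous_iff_continuousAt.2 fun t => (hX t).continuousAt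
  have cY : Continuous Y := continuous_iff_continuousAt.2 fun t => (hY t).continuousAt
  obtain ⟨m, hm, hsm⟩ : ∃ m ∈ Icc 0 T, s m = s 0 + π :=
    intermediate_value_Icc hT cs.continuousOn ⟨by linarith [pi_pos], by linarith [pi_pos]⟩
  obtain ⟨c, d, hcd, hz⟩ := exists_unit_perp (X m - X 0) (Y m - Y 0)
  have hy : ∀ t, HasDerivAt (fun t => c * (X t - X 0) + d * (Y t - Y 0))
      (σ t * (c * xd t + d * yd t)) t := fun t =>
    ((((hX t).sub_const _).const_mul c).add (((hY t).sub_const _).const_mul d)).congr_deriv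
      (by ring)
  have hx : ∀ t, HasDerivAt (fun t => d * (X t - X 0) - c * (Y t - Y 0))
      (σ t * (d * xd t - c * yd t)) t := fun t =>
    ((((hX t).sub_const _).const_mul d).sub (((hY t).sub_const _).const_mul c)).congr_deriv
      (by ring)
  obtain ⟨J, -, hJ⟩ := exists_anti (g := fun t => σ t * (c * (X t - X 0) + d * (Y t - Y 0)) ^ 2)
    (by fun_prop)
  obtain ⟨K, -, hK⟩ := exists_anti (g := fun t => σ t * (c * xd t + d * yd t) ^ 2) (by fun_prop)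
  have d1 := dirichlet hm.1 hs hσ hy hJ hK (by linarith) (by ring) hz
  have d2 := dirichlet hm.2 hs hσ hy hJ hK (by linarith) hz (by rw [pX, pY]; ring)
  have := mono_of hT
    (F := fun t => En t - K t + J t + (d * (X t - X 0) - c * (Y t - Y 0)) *
      (c * (X t - X 0) + d * (Y t - Y 0)) - Ar t + X 0 * Y t - Y 0 * X t)
    (F' := fun t => σ t * (c * (X t - X 0) + d * (Y t - Y 0) + (d * xd t - c * yd t)) ^ 2)
    (fun t _ => ?_) (fun t _ => mul_nonneg (hσ t).le (sq_nonneg _))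
  · simp only [pX, pY] at this
    linarith
  · refine (((((((hE t).sub (hK t)).add (hJ t)).add ((hx t).mul (hy t))).sub (hA t)).add
      ((hY t).const_mul _)).sub ((hX t).const_mul _)).congr_deriv ?_
    linear_combination (σ t * ((X t - X 0) * yd t - (Y t - Y 0) * xd t) -
      σ t * (xd t ^ 2 + yd t ^ 2)) * hcd

theorem deriv_dot {f g : ℝ → V} {a b : V} {t : ℝ} (hf : HasDerivAt f a t) (hg : HasDerivAt g b t) :
    HasDerivAt (fun t => f t ⬝ᵥ g t) (a ⬝ᵥ g t + f t ⬝ᵥ b) t := by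
  rw [hasDerivAt_pi] at hf hg
  simp only [dot3]
  exact ((((hf 0).mul (hg 0)).add ((hf 1).mul (hg 1))).add ((hf 2).mul (hg 2))).congr_deriv
    (by ring)

theorem deriv_dotc {f : ℝ → V} {a : V} {t : ℝ} (hf : HasDerivAt f a t) (c : V) :
    HasDerivAt (fun t => f t ⬝ᵥ c) (a ⬝ᵥ c) t :=
  (deriv_dot hf (hasDerivAt_const t c)).congr_deriv (by simp)

theorem deriv_ccross {f : ℝ → V} {a : V} {t : ℝ} (hf : HasDerivAt f a t) (c : V) :
    HasDerivAt (fun t => c ⨯₃ f t) (c ⨯₃ a) t := by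
  rw [hasDerivAt_pi] at hf ⊢
  intro i
  fin_cases i
  · simp only [Fin.zero_eta, cr0]
    exact ((hf 2).const_mul (c 1)).sub ((hf 1).const_mul (c 2))
  · simp only [Fin.mk_one, cr1]
    exact ((hf 0).const_mul (c 2)).sub ((hf 2).const_mul (c 0))
  · simp only [Fin.reduceFinMk, cr2]
    exact ((hf 1).const_mul (c 0)).sub ((hf 0).const_mul (c 1))

theorem cont_dot {f g : ℝ → V} (hf : Continuous f) (hg : Continuous g) :
    Continuous fun t => f t ⬝ᵥ g t := by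
  simp only [dot3]
  fun_prop

theorem cont_ccross {f : ℝ → V} (hf : Continuous f) (c : V) : Continuous fun t => c ⨯₃ f t := by
  rw [continuous_pi_iff]
  intro i
  fin_cases i
  · simp only [Fin.zero_eta, cr0]; fun_prop
  · simp only [Fin.mk_one, cr1]; fun_prop
  · simp only [Fin.reduceFinMk, cr2]; fun_prop

/-- Expansion in the orthonormal frame `p`, `e × p`, `e`. -/
theorem frame {p e : V} (ee : e ⬝ᵥ e = 1) (pp : p ⬝ᵥ p = 1) (pe : p ⬝ᵥ e = 0) (z : V) :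
    z = (z ⬝ᵥ p) • p + (z ⬝ᵥ (e ⨯₃ p)) • (e ⨯₃ p) + (z ⬝ᵥ e) • e := by
  simp only [dot3] at ee pp pe
  apply vext <;> simp only [cr0, cr1, cr2, dot3, Pi.add_apply, Pi.smul_apply, smul_eq_mul] <;>
    grind

theorem alg_bdry {p e n Ψ χ : V} {σ a b H : ℝ} (ee : e ⬝ᵥ e = 1) (pp : p ⬝ᵥ p = 1)
    (pe : p ⬝ᵥ e = 0) (hn : n = a • p + b • e) :
    w1 H p (σ • (e ⨯₃ p)) (-(n ⨯₃ (σ • (e ⨯₃ p)))) = (σ * b) • p - (σ * (a + H)) • e ∧
    w3 H p Ψ χ (σ • (e ⨯₃ p)) (-(n ⨯₃ (σ • (e ⨯₃ p)))) ⬝ᵥ e -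
      H * (w2 H p Ψ (σ • (e ⨯₃ p)) (-(n ⨯₃ (σ • (e ⨯₃ p)))) ⬝ᵥ (e ⨯₃ p) +
        χ ⬝ᵥ (e ⨯₃ (σ • (e ⨯₃ p)))) =
      -(σ * b * (Ψ ⬝ᵥ (e ⨯₃ p))) - σ * (1 + H ^ 2 / 2 + 3 / 2 * H * a) := by
  obtain ⟨t, ht⟩ : ∃ t, t = e ⨯₃ p := ⟨_, rfl⟩
  have h1 : p ⨯₃ t = e := by
    rw [ht, cross_cross_eq_smul_sub_smul', pp, dotProduct_comm e p, pe]; simp
  have h2 : e ⨯₃ t = -p := by
    rw [ht, cross_cross_eq_smul_sub_smul', ee, dotProduct_comm e p, pe]; simp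
  have hm : -(n ⨯₃ (σ • t)) = (σ * b) • p - (σ * a) • e := by
    rw [hn]
    simp only [map_add, map_smul, LinearMap.add_apply, LinearMap.smul_apply, h1, h2]
    module
  rw [← ht, hm]
  have te : t ⬝ᵥ e = 0 := by rw [ht, dotProduct_comm, dot_self_cross]
  have tt : t ⬝ᵥ t = 1 := by
    rw [ht, cross_dot_cross, ee, pp, pe]; simp
  have trip : ∀ X Y Z : V, (X ⨯₃ Y) ⬝ᵥ Z = X ⬝ᵥ (Y ⨯₃ Z) := fun X Y Z => by
    simp only [cr0, cr1, cr2, dot3]; ring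
  have h3 : t ⨯₃ e = p := by rw [← cross_anticomm, h2, neg_neg]
  have h4 : p ⨯₃ e = -t := by rw [← cross_anticomm, ht]
  constructor
  · simp only [w1, map_smul, h1]
    module
  · simp only [w2, w3, map_smul, map_sub, h1, h2, h3, h4, add_dotProduct, sub_dotProduct,
      smul_dotProduct, trip, te, tt, ee, pp, pe, cross_self, dotProduct_zero, dotProduct_smul,
      dotProduct_neg, smul_eq_mul, zero_dotProduct, neg_dotProduct]
    ring

theorem angle {p : ℝ → V} {e : V} {s σ : ℝ → ℝ} (ee : e ⬝ᵥ e = 1) (pp : ∀ t, p t ⬝ᵥ p t = 1)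
    (pe : ∀ t, p t ⬝ᵥ e = 0) (hp : ∀ t, HasDerivAt p (σ t • (e ⨯₃ p t)) t)
    (hs : ∀ t, HasDerivAt s (σ t) t) (s0 : s 0 = 0) (hσ : ∀ t, 0 < σ t)
    (inj : ∀ t ∈ Ioo 0 (2 * π), p t ≠ p 0) (per : p (2 * π) = p 0) : s (2 * π) = 2 * π := by
  have e1 : ∀ t, (σ t • (e ⨯₃ p t)) ⬝ᵥ p 0 = -(σ t * (p t ⬝ᵥ (e ⨯₃ p 0))) := fun t => by
    simp only [cr0, cr1, cr2, dot3, Pi.smul_apply, smul_eq_mul]; ring
  have e2 : ∀ t, (σ t • (e ⨯₃ p t)) ⬝ᵥ (e ⨯₃ p 0) = σ t * (p t ⬝ᵥ p 0) := fun t => by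
    rw [smul_dotProduct, cross_dot_cross, ee, pe t]; simp
  have hg : ∀ t, HasDerivAt (fun t => (p t ⬝ᵥ p 0 - cos (s t)) ^ 2 +
      (p t ⬝ᵥ (e ⨯₃ p 0) - sin (s t)) ^ 2) 0 t := fun t => by
    refine ((((deriv_dotc (hp t) _).sub (hs t).cos).pow 2).add
      (((deriv_dotc (hp t) _).sub (hs t).sin).pow 2)).congr_deriv ?_
    rw [e1, e2]
    simp only [Pi.sub_apply]
    push_cast
    ring
  have hA : ∀ t, p t ⬝ᵥ p 0 = cos (s t) := fun t => by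
    have := is_const_of_deriv_eq_zero (fun t => (hg t).differentiableAt) (fun t => (hg t).deriv) t 0
    simp only [pp, s0, dot_cross_self, cos_zero, sin_zero] at this
    nlinarith [sq_nonneg (p t ⬝ᵥ p 0 - cos (s t)), sq_nonneg (p t ⬝ᵥ (e ⨯₃ p 0) - sin (s t))]
  have hm := strictMono_of_hasDerivAt_pos hs hσ
  have h2 : 0 < 2 * π := two_pi_pos
  have hpos : 0 < s (2 * π) := s0 ▸ hm h2
  have cs : Continuous s := continuous_iff_continuousAt.2 fun t => (hs t).continuousAt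
  rcases lt_trichotomy (s (2 * π)) (2 * π) with h | h | h
  · have := hA (2 * π)
    rw [per, pp] at this
    exact absurd ((cos_eq_one_iff_of_lt_of_lt (by linarith) h).1 this.symm) hpos.ne'
  · exact h
  · obtain ⟨t, ht, hst⟩ : ∃ t ∈ Ioo 0 (2 * π), s t = 2 * π :=
      intermediate_value_Ioo h2.le cs.continuousOn ⟨by linarith, h⟩
    have := hA t
    rw [hst, cos_two_pi] at this
    refine absurd (sub_eq_zero.1 (dotProduct_self_eq_zero.1 ?_)) (inj t ht)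
    simp only [sub_dotProduct, dotProduct_sub, pp, this, dotProduct_comm (p 0) (p t)]
    ring

theorem bdry {p v n Ψ χ η : ℝ → V} {e : V} {H : ℝ} (ee : e ⬝ᵥ e = 1) (pp : ∀ t, p t ⬝ᵥ p t = 1)
    (pe : ∀ t, p t ⬝ᵥ e = 0) (hp : ∀ t, HasDerivAt p (v t) t) (cv : Continuous v)
    (cn : Continuous n) (nn : ∀ t, n t ⬝ᵥ n t = 1) (nv : ∀ t, n t ⬝ᵥ v t = 0)
    (pos : ∀ t, 0 < v t ⬝ᵥ (e ⨯₃ p t))
    (inj : ∀ t ∈ Ioo 0 (2 * π), p t ≠ p 0) (per : p (2 * π) = p 0)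
    (dΨ : ∀ t, HasDerivAt Ψ (w1 H (p t) (v t) (-(n t ⨯₃ v t))) t)
    (dχ : ∀ t, HasDerivAt χ (w2 H (p t) (Ψ t) (v t) (-(n t ⨯₃ v t))) t)
    (dη : ∀ t, HasDerivAt η (w3 H (p t) (Ψ t) (χ t) (v t) (-(n t ⨯₃ v t))) t)
    (pΨ : Ψ (2 * π) = Ψ 0) (pχ : χ (2 * π) = χ 0) (pη : η (2 * π) = η 0) :
    ∃ q : V, ∀ t ∈ Icc 0 (2 * π), n t + H • p t = q := by
  have cp : Continuous p := continuous_iff_continuousAt.2 fun t => (hp t).continuousAt
  obtain ⟨σ, hσ⟩ : ∃ σ : ℝ → ℝ, σ = fun t => v t ⬝ᵥ (e ⨯₃ p t) := ⟨_, rfl⟩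
  obtain ⟨a, ha⟩ : ∃ a : ℝ → ℝ, a = fun t => n t ⬝ᵥ p t := ⟨_, rfl⟩
  obtain ⟨b, hb⟩ : ∃ b : ℝ → ℝ, b = fun t => n t ⬝ᵥ e := ⟨_, rfl⟩
  have cσ : Continuous σ := hσ ▸ cont_dot cv (cont_ccross cp e)
  have cb : Continuous b := hb ▸ cont_dot cn continuous_const
  have σ0 : ∀ t, 0 < σ t := fun t => hσ ▸ pos t
  have hv : ∀ t, v t = σ t • (e ⨯₃ p t) := fun t => by
    have h1 : v t ⬝ᵥ p t = 0 := by
      have d := deriv_dot (hp t) (hp t)
      simp only [pp] at d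
      have := d.unique (hasDerivAt_const t 1)
      rw [dotProduct_comm (p t)] at this
      linarith
    have h2 : v t ⬝ᵥ e = 0 := by
      have d := deriv_dotc (hp t) e
      simp only [pe] at d
      exact d.unique (hasDerivAt_const t 0)
    have := frame ee (pp t) (pe t) (v t)
    rw [h1, h2] at this
    rw [hσ]
    simpa using this
  have hn : ∀ t, n t = a t • p t + b t • e := fun t => by
    have h1 : n t ⬝ᵥ (e ⨯₃ p t) = 0 := by
      have := nv t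
      rw [hv, dotProduct_smul, smul_eq_mul] at this
      exact (mul_eq_zero.1 this).resolve_left (σ0 t).ne'
    have := frame ee (pp t) (pe t) (n t)
    rw [h1] at this
    rw [ha, hb]
    simpa using this
  have hab : ∀ t, a t ^ 2 + b t ^ 2 = 1 := fun t => by
    have := nn t
    rw [hn] at this
    simp only [add_dotProduct, dotProduct_add, smul_dotProduct, dotProduct_smul, pp, pe, ee,
      dotProduct_comm e (p t), smul_eq_mul] at this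
    linarith
  obtain ⟨s, s0, hs⟩ := exists_anti cσ
  have hT := angle ee pp pe (fun t => hv t ▸ hp t) hs s0 σ0 inj per
  have al := fun t => alg_bdry (Ψ := Ψ t) (χ := χ t) (σ := σ t) (H := H) ee (pp t) (pe t) (hn t)
  simp only [← hv] at al
  have dΨ' : ∀ t, HasDerivAt Ψ ((σ t * b t) • p t - (σ t * (a t + H)) • e) t := fun t =>
    (al t).1 ▸ dΨ t
  have ep : e ⬝ᵥ p 0 = 0 := by rw [dotProduct_comm, pe]
  have hX : ∀ t, HasDerivAt (fun t => Ψ t ⬝ᵥ p 0) (σ t * (b t * (p t ⬝ᵥ p 0))) t := fun t =>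
    (deriv_dotc (dΨ' t) _).congr_deriv (by
      simp only [sub_dotProduct, smul_dotProduct, ep, smul_eq_mul]; ring)
  have hY : ∀ t, HasDerivAt (fun t => Ψ t ⬝ᵥ (e ⨯₃ p 0))
      (σ t * (b t * (p t ⬝ᵥ (e ⨯₃ p 0)))) t := fun t =>
    (deriv_dotc (dΨ' t) _).congr_deriv (by
      simp only [sub_dotProduct, smul_dotProduct, dot_self_cross, smul_eq_mul]; ring)
  have hZ : ∀ t, HasDerivAt (fun t => Ψ t ⬝ᵥ e) (-(σ t * (a t + H))) t := fun t =>
    (deriv_dotc (dΨ' t) _).congr_deriv (by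
      simp only [sub_dotProduct, smul_dotProduct, pe, ee, smul_eq_mul]; ring)
  have hfr : ∀ t, p t = (p t ⬝ᵥ p 0) • p 0 + (p t ⬝ᵥ (e ⨯₃ p 0)) • (e ⨯₃ p 0) := fun t => by
    have := frame ee (pp 0) (pe 0) (p t)
    rw [pe] at this
    simpa using this
  have h2 : e ⨯₃ (e ⨯₃ p 0) = -p 0 := by
    rw [cross_cross_eq_smul_sub_smul', ee, ep]; simp
  have hAB : ∀ t, (p t ⬝ᵥ p 0) ^ 2 + (p t ⬝ᵥ (e ⨯₃ p 0)) ^ 2 = 1 := fun t => by
    have := congrArg (fun z => p t ⬝ᵥ z) (hfr t)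
    simp only [dotProduct_add, dotProduct_smul, pp, smul_eq_mul] at this
    linarith
  have hΨt : ∀ t, Ψ t ⬝ᵥ (e ⨯₃ p t) = (p t ⬝ᵥ p 0) * (Ψ t ⬝ᵥ (e ⨯₃ p 0)) -
      (p t ⬝ᵥ (e ⨯₃ p 0)) * (Ψ t ⬝ᵥ p 0) := fun t => by
    have := congrArg (fun z => Ψ t ⬝ᵥ (e ⨯₃ z)) (hfr t)
    simp only [map_add, map_smul, h2, dotProduct_add, dotProduct_smul, dotProduct_neg,
      smul_eq_mul] at this
    linarith
  have cA : Continuous fun t => p t ⬝ᵥ p 0 := cont_dot cp continuous_const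
  have cB : Continuous fun t => p t ⬝ᵥ (e ⨯₃ p 0) := cont_dot cp continuous_const
  obtain ⟨En, -, hE⟩ := exists_anti
    (g := fun t => σ t * ((b t * (p t ⬝ᵥ p 0)) ^ 2 + (b t * (p t ⬝ᵥ (e ⨯₃ p 0))) ^ 2))
    (cσ.mul (((cb.mul cA).pow 2).add ((cb.mul cB).pow 2)))
  have hur := hurwitz (Ar := fun t => η t ⬝ᵥ e - H * (χ t ⬝ᵥ (e ⨯₃ p t)) + (1 + H ^ 2 / 2) * s t
      - 3 / 2 * H * (Ψ t ⬝ᵥ e + H * s t))
    two_pi_pos.le hs σ0 cσ (cb.mul cA) (cb.mul cB) hX hY (fun t => ?_) hE (by linarith)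
    (by rw [pΨ]) (by rw [pΨ])
  swap
  · refine ((((deriv_dotc (dη t) e).sub
      ((deriv_dot (dχ t) (deriv_ccross (hp t) e)).const_mul H)).add ((hs t).const_mul _)).sub
      (((hZ t).add ((hs t).const_mul H)).const_mul _)).congr_deriv ?_
    rw [(al t).2, hΨt]
    simp only [Pi.mul_apply]
    ring
  simp only [pΨ, pχ, pη, per, hT, s0] at hur
  obtain ⟨M, hMd⟩ : ∃ M : ℝ → ℝ,
    M = fun t => s t - En t - 2 * H * (Ψ t ⬝ᵥ e + H * s t) + H ^ 2 * s t := ⟨_, rfl⟩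
  have hM : ∀ t, HasDerivAt M (σ t * (a t + H) ^ 2) t := fun t => by
    rw [hMd]
    refine ((((hs t).sub (hE t)).sub (((hZ t).add ((hs t).const_mul H)).const_mul _)).add
      ((hs t).const_mul _)).congr_deriv ?_
    linear_combination -(σ t * b t ^ 2) * hAB t - σ t * hab t
  have hM0 : ∀ t, 0 ≤ σ t * (a t + H) ^ 2 := fun t => mul_nonneg (σ0 t).le (sq_nonneg _)
  have hMT : M (2 * π) ≤ M 0 := by
    rw [hMd]
    simp only [pΨ, hT, s0]
    linarith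
  have hMc : ∀ t ∈ Icc 0 (2 * π), M t = M 0 := fun t ht =>
    le_antisymm ((mono_of ht.2 (fun u _ => hM u) fun u _ => hM0 u).trans hMT)
      (mono_of ht.1 (fun u _ => hM u) fun u _ => hM0 u)
  have haH : ∀ t ∈ Icc 0 (2 * π), a t = -H := fun t ht => by
    have h1 : HasDerivWithinAt M 0 (Icc 0 (2 * π)) t :=
      (hasDerivWithinAt_const t _ (M 0)).congr hMc (hMc t ht)
    have h3 := (uniqueDiffOn_Icc two_pi_pos t ht).eq_deriv _ (hM t).hasDerivWithinAt h1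
    have h4 := (mul_eq_zero.1 h3).resolve_left (σ0 t).ne'
    linarith [pow_eq_zero_iff (n := 2) (by norm_num) |>.1 h4]
  have h0 : (0 : ℝ) ∈ Icc 0 (2 * π) := left_mem_Icc.2 two_pi_pos.le
  have hb2 : ∀ t ∈ Icc 0 (2 * π), b t ^ 2 = b 0 ^ 2 := fun t ht => by
    have h1 := hab t
    have h3 := hab 0
    rw [haH t ht] at h1
    rw [haH 0 h0] at h3
    linarith
  have hbc : ∀ t ∈ Icc 0 (2 * π), b t = b 0 := by
    by_cases hz : b 0 = 0
    · intro t ht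
      have := hb2 t ht
      rw [hz] at this ⊢
      simpa using this
    · exact isPreconnected_Icc.eq_of_sq_eq (g := fun _ => b 0) cb.continuousOn continuousOn_const
        (fun t ht => hb2 t ht) (fun _ => hz) h0 rfl
  refine ⟨b 0 • e, fun t ht => ?_⟩
  rw [hn, haH t ht, hbc t ht]
  module

end Pool.Agent.Lib.MP_c3ed84_gt.Cap
end

-- part Pool.Agent.Lib.MP_c3ed84_gt.CapD
section

/-!
Unique continuation from the boundary circle for an anti-conformal tangential map, by a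
first order Carleman estimate.
-/

set_option autoImplicit false

open Matrix Set MeasureTheory Filter Topology

namespace Pool.Agent.Lib.MP_c3ed84_gt.Cap

theorem cs (a b : V) : (a ⬝ᵥ b) ^ 2 ≤ (a ⬝ᵥ a) * (b ⬝ᵥ b) := by
  have h1 := cross_dot_cross a b a b
  have h2 := dot_self_nonneg' (a ⨯₃ b)
  rw [dotProduct_comm b a] at h1
  nlinarith

theorem cs_cross {N : V} (hN : N ⬝ᵥ N = 1) (X R : V) :
    ((N ⨯₃ X) ⬝ᵥ R) ^ 2 ≤ (X ⬝ᵥ X) * (R ⬝ᵥ R) := by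
  have h1 := cs (N ⨯₃ X) R
  have h2 := cross_dot_cross N X N X
  rw [hN, dotProduct_comm X N] at h2
  have h3 : (N ⨯₃ X) ⬝ᵥ (N ⨯₃ X) ≤ X ⬝ᵥ X := by nlinarith [mul_self_nonneg (N ⬝ᵥ X)]
  exact h1.trans (mul_le_mul_of_nonneg_right h3 (dot_self_nonneg' R))

theorem tang {N M R : V} (hN : N ⬝ᵥ N = 1) (hM : N ⬝ᵥ M = 0) (hR : N ⬝ᵥ R = 0) (X : V) :
    (M ⨯₃ X) ⬝ᵥ R = -((N ⬝ᵥ X) * ((N ⨯₃ M) ⬝ᵥ R)) := by
  have : (N ⬝ᵥ N) * ((M ⨯₃ X) ⬝ᵥ R) = -((N ⬝ᵥ X) * ((N ⨯₃ M) ⬝ᵥ R)) +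
      (N ⬝ᵥ M) * ((N ⨯₃ X) ⬝ᵥ R) + (N ⬝ᵥ R) * ((M ⨯₃ X) ⬝ᵥ N) := by
    simp only [cr0, cr1, cr2, dot3]; ring
  rw [hN, hM, hR] at this
  linarith

theorem alg_uc {N P Q : V} {a b : ℝ} (hN : N ⬝ᵥ N = 1) (hP : N ⬝ᵥ P = 0)
    (hQ : Q = a • P - b • (N ⨯₃ P)) (X : V) :
    N ⬝ᵥ Q = 0 ∧ Q ⬝ᵥ Q = (a ^ 2 + b ^ 2) * (P ⬝ᵥ P) ∧
    (N ⨯₃ P) ⬝ᵥ Q - (N ⨯₃ Q) ⬝ᵥ P = -(2 * b * (P ⬝ᵥ P)) ∧
    b * ((N ⨯₃ X) ⬝ᵥ Q) = a * (X ⬝ᵥ Q) - (a ^ 2 + b ^ 2) * (X ⬝ᵥ P) := by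
  subst hQ
  simp only [cr0, cr1, cr2, dot3, Pi.sub_apply, Pi.smul_apply, smul_eq_mul] at *
  refine ⟨?_, ?_, ?_, ?_⟩
  · linear_combination a * hP
  · linear_combination b ^ 2 * (P 0 * P 0 + P 1 * P 1 + P 2 * P 2) * hN
      - b ^ 2 * (N 0 * P 0 + N 1 * P 1 + N 2 * P 2) * hP
  · linear_combination -(2 * b * (P 0 * P 0 + P 1 * P 1 + P 2 * P 2)) * hN
      + 2 * b * (N 0 * P 0 + N 1 * P 1 + N 2 * P 2) * hP
  · linear_combination -(b ^ 2 * (X 0 * P 0 + X 1 * P 1 + X 2 * P 2)) * hN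
      + b ^ 2 * (N 0 * X 0 + N 1 * X 1 + N 2 * X 2) * hP

theorem ineq {U x b n e m l γ g τ ε K M : ℝ} (hU : 0 ≤ U) (hx : 0 ≤ x) (hb : b ^ 2 ≤ U * γ * x)
    (he : e ^ 2 ≤ K * x) (hm : m ^ 2 ≤ K * U) (γ0 : 0 ≤ γ) (γK : γ ≤ K) (hg : 1 ≤ g) (h1 : τ ≤ l)
    (h2 : l ≤ τ * M) (hK : 0 < K) (hτ : τ = K * M ^ 2 / 2 + 8 * K ^ 2 + 1) (hε : ε * τ ^ 2 = 1) :
    U ≤ (l ^ 2 * γ * U + l * g * U - 2 * l * b) - (2 + 2 * ε) * (l * b + n * e - 2 * x) +
      4 * K * τ * (l * n ^ 2 + 2 * n * m) := by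
  have τ1 : 1 ≤ τ := by rw [hτ]; nlinarith [mul_nonneg hK.le (sq_nonneg M), sq_nonneg K]
  have τ0 : 0 < τ := by linarith
  have ε0 : 0 < ε := by
    by_contra h
    nlinarith [mul_nonneg (neg_nonneg.2 (not_lt.1 h)) (sq_nonneg τ)]
  have ε1 : ε ≤ 1 := by nlinarith [mul_nonneg ε0.le (show 0 ≤ τ ^ 2 - 1 by nlinarith)]
  have l0 : 0 < l := by linarith
  have a1 : 2 * (l * b) ≤ l ^ 2 * γ * U / 2 + 2 * x := by
    refine (le_abs_self _).trans (abs_le_of_sq_le_sq ?_ (by positivity))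
    nlinarith [sq_nonneg (l ^ 2 * γ * U / 2 - 2 * x), mul_le_mul_of_nonneg_left hb (sq_nonneg l)]
  have a2 : ε * (l ^ 2 * γ * U) ≤ K * M ^ 2 * U := by
    have s1 : l ^ 2 ≤ τ ^ 2 * M ^ 2 := by rw [← mul_pow]; exact pow_le_pow_left₀ l0.le h2 2
    have s2 : ε * l ^ 2 ≤ M ^ 2 := by
      calc ε * l ^ 2 ≤ ε * (τ ^ 2 * M ^ 2) := mul_le_mul_of_nonneg_left s1 ε0.le
        _ = M ^ 2 := by rw [← mul_assoc, hε, one_mul]
    have s3 : ε * l ^ 2 * γ ≤ M ^ 2 * K := mul_le_mul s2 γK γ0 (sq_nonneg M)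
    nlinarith [mul_le_mul_of_nonneg_right s3 hU]
  have a3 : (2 + 2 * ε) * (n * e) ≤ 2 * ε * x + 2 * K * τ ^ 2 * n ^ 2 := by
    have s1 : 4 * |n * e| ≤ 2 * ε * x + 2 * K * τ ^ 2 * n ^ 2 := by
      refine (le_abs_self _).trans (abs_le_of_sq_le_sq ?_ (by positivity))
      rw [mul_pow, sq_abs]
      have : (2 * ε * x + 2 * K * τ ^ 2 * n ^ 2) ^ 2 =
          (2 * ε * x - 2 * K * τ ^ 2 * n ^ 2) ^ 2 + 16 * (ε * τ ^ 2) * (K * x) * n ^ 2 := by ring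
      rw [this, hε]
      nlinarith [sq_nonneg (2 * ε * x - 2 * K * τ ^ 2 * n ^ 2),
        mul_le_mul_of_nonneg_right he (sq_nonneg n)]
    nlinarith [le_abs_self (n * e), abs_nonneg (n * e)]
  have a4 : -(2 * τ ^ 2 * n ^ 2 + 8 * K * U) ≤ 8 * τ * (n * m) := by
    nlinarith [sq_nonneg (τ * n + 2 * m)]
  have a5 : τ * n ^ 2 ≤ l * n ^ 2 := mul_le_mul_of_nonneg_right h1 (sq_nonneg n)
  have a6 : τ * U ≤ l * g * U :=
    mul_le_mul_of_nonneg_right (by nlinarith) hU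
  have a7 := mul_le_mul_of_nonneg_left a1 (show 0 ≤ 2 + ε by linarith)
  have a8 := mul_le_mul_of_nonneg_left a4 hK.le
  have a9 := mul_le_mul_of_nonneg_left a5 (show 0 ≤ 4 * K * τ by positivity)
  have a10 : τ * U = (K * M ^ 2 / 2 + 8 * K ^ 2 + 1) * U := by rw [hτ]
  nlinarith

theorem point {N X P Q Mx My : V} {a b γ δ γx δy μ K M τ ε l w : ℝ} (NN : N ⬝ᵥ N = 1)
    (Nx : N ⬝ᵥ Mx = 0) (Ny : N ⬝ᵥ My = 0) (NP : N ⬝ᵥ P = 0) (hQ : Q = a • P - b • (N ⨯₃ P))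
    (hb : 0 < b) (γ0 : 0 < γ) (γβ : γ * b = a ^ 2 + b ^ 2) (δβ : δ * b = a)
    (hμ : (1 - (γx - δy)) / γ ≤ μ) (hK : γ + Mx ⬝ᵥ Mx + 2 * (Mx ⬝ᵥ Mx * γ + My ⬝ᵥ My / b) ≤ K)
    (K0 : 0 < K) (hτ : τ = K * M ^ 2 / 2 + 8 * K ^ 2 + 1) (hε : ε * τ ^ 2 = 1) (l1 : τ ≤ l)
    (l2 : l ≤ τ * M) (w0 : 0 < w) :
    w * (X ⬝ᵥ X) ≤ ((μ * l * w + l * (l * w)) * γ + l * w * γx) * (X ⬝ᵥ X) +
      l * w * γ * (P ⬝ᵥ X + X ⬝ᵥ P) -
      (((0 * w + l * 0) * δ + l * w * δy) * (X ⬝ᵥ X) + l * w * δ * (Q ⬝ᵥ X + X ⬝ᵥ Q)) -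
      (2 + 2 * ε) * (((l * w) • (N ⨯₃ X) + w • (Mx ⨯₃ X + N ⨯₃ P)) ⬝ᵥ Q -
        ((0 : ℝ) • (N ⨯₃ X) + w • (My ⨯₃ X + N ⨯₃ Q)) ⬝ᵥ P) +
      4 * K * τ * ((l * w * (N ⬝ᵥ X) + w * (Mx ⬝ᵥ X + N ⬝ᵥ P)) * (N ⬝ᵥ X) +
        w * (N ⬝ᵥ X) * (Mx ⬝ᵥ X + N ⬝ᵥ P)) := by
  obtain ⟨q1, q2, q3, q4⟩ := alg_uc NN NP hQ X
  have r1 := tang NN Nx q1 X
  have r2 := tang NN Ny NP X
  have r3 := cs_cross NN X Q
  have r4 := cs_cross NN Mx Q
  have r5 := cs_cross NN My P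
  have r6 := cs Mx X
  have n1 := dot_self_nonneg' Mx
  have n2 := div_nonneg (dot_self_nonneg' My) hb.le
  have n3 := mul_nonneg n1 γ0.le
  have nP := dot_self_nonneg' P
  have q5 : (N ⨯₃ X) ⬝ᵥ Q = δ * (X ⬝ᵥ Q) - γ * (X ⬝ᵥ P) := by
    refine mul_left_cancel₀ hb.ne' ?_
    rw [q4, ← γβ, ← δβ]
    ring
  have := ineq (U := X ⬝ᵥ X) (x := b * (P ⬝ᵥ P)) (b := (N ⨯₃ X) ⬝ᵥ Q) (n := N ⬝ᵥ X)
    (e := (N ⨯₃ My) ⬝ᵥ P - (N ⨯₃ Mx) ⬝ᵥ Q) (m := Mx ⬝ᵥ X) (g := μ * γ + (γx - δy))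
    (dot_self_nonneg' _) (mul_nonneg hb.le nP) ?_ ?_ ?_ γ0.le ?_ ?_ l1 l2 K0 hτ hε
  · have h := mul_le_mul_of_nonneg_left this w0.le
    refine h.trans (le_of_eq ?_)
    simp only [add_dotProduct, smul_dotProduct, smul_eq_mul, r1, r2, NP, dotProduct_comm P X,
      dotProduct_comm Q X]
    linear_combination (2 + 2 * ε) * w * q3 - 2 * l * w * q5
  · rw [q2, ← γβ] at r3
    linarith
  · rw [q2, ← γβ] at r4
    have e1 : My ⬝ᵥ My = My ⬝ᵥ My / b * b := (div_mul_cancel₀ _ hb.ne').symm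
    rw [e1] at r5
    have e2 : 2 * (Mx ⬝ᵥ Mx * γ + My ⬝ᵥ My / b) ≤ K := by linarith
    have e3 := mul_le_mul_of_nonneg_right e2 (mul_nonneg hb.le nP)
    nlinarith [sq_nonneg ((N ⨯₃ My) ⬝ᵥ P + (N ⨯₃ Mx) ⬝ᵥ Q)]
  · exact r6.trans (mul_le_mul_of_nonneg_right (by linarith) (dot_self_nonneg' _))
  · linarith
  · have := (div_le_iff₀ γ0).1 hμ
    linarith

theorem bound_on_D {k : ℝ × ℝ → ℝ} (hk : Continuous k) : ∃ C, 0 < C ∧ ∀ p ∈ D, k p ≤ C := by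
  obtain ⟨C, hC⟩ := isCompact_D.exists_bound_of_continuousOn hk.continuousOn
  exact ⟨|C| + 1, by positivity, fun p hp => by
    linarith [hC p hp, le_abs_self C, le_abs_self (k p), Real.norm_eq_abs (k p)]⟩

theorem uc {Φ N : ℝ × ℝ → V} {α β : ℝ × ℝ → ℝ} (cΦ : ContDiff ℝ 1 Φ) (cN : ContDiff ℝ 1 N)
    (cα : ContDiff ℝ 1 α) (cβ : ContDiff ℝ 1 β) (βpos : ∀ p, 0 < β p)
    (NN : ∀ p ∈ D, N p ⬝ᵥ N p = 1) (Nx : ∀ p ∈ D, N p ⬝ᵥ dx N p = 0)
    (Ny : ∀ p ∈ D, N p ⬝ᵥ dy N p = 0) (NP : ∀ p ∈ D, N p ⬝ᵥ dx Φ p = 0)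
    (hQ : ∀ p ∈ D, dy Φ p = α p • dx Φ p - β p • (N p ⨯₃ dx Φ p))
    (h0 : ∀ p : ℝ × ℝ, p.1 ^ 2 + p.2 ^ 2 = 1 → Φ p = 0) : ∀ p ∈ D, Φ p = 0 := by
  obtain ⟨γ, hγ⟩ : ∃ γ : ℝ × ℝ → ℝ, γ = fun p => (α p ^ 2 + β p ^ 2) / β p := ⟨_, rfl⟩
  obtain ⟨δ, hδ⟩ : ∃ δ : ℝ × ℝ → ℝ, δ = fun p => α p / β p := ⟨_, rfl⟩
  have cγ : ContDiff ℝ 1 γ := hγ ▸ ((cα.pow 2).add (cβ.pow 2)).div cβ fun p => (βpos p).ne'
  have cδ : ContDiff ℝ 1 δ := hδ ▸ cα.div cβ fun p => (βpos p).ne'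
  have γ0 : ∀ p, 0 < γ p := fun p => by
    rw [hγ]
    have := βpos p
    positivity
  have γβ : ∀ p, γ p * β p = α p ^ 2 + β p ^ 2 := fun p => by
    rw [hγ]; exact div_mul_cancel₀ _ (βpos p).ne'
  have δβ : ∀ p, δ p * β p = α p := fun p => by
    rw [hδ]; exact div_mul_cancel₀ _ (βpos p).ne'
  have cd : ∀ {g h : ℝ × ℝ → V}, Continuous g → Continuous h → Continuous fun p => g p ⬝ᵥ h p :=
    fun hg hh => by simp only [dot3]; fun_prop
  have kx := cont_dx cN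
  have ky := cont_dy cN
  have kP := cont_dx cΦ
  have kQ := cont_dy cΦ
  have kΦ := cΦ.continuous
  have kN := cN.continuous
  have kγ := cγ.continuous
  have kδ := cδ.continuous
  have kγx := cont_dx cγ
  have kδy := cont_dy cδ
  obtain ⟨μ, μ0, hμ⟩ := bound_on_D (k := fun p => (1 - (dx γ p - dy δ p)) / γ p)
    ((continuous_const.sub (kγx.sub kδy)).div kγ fun p => (γ0 p).ne')
  obtain ⟨K, K0, hK⟩ := bound_on_D (k := fun p => γ p + dx N p ⬝ᵥ dx N p +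
      2 * (dx N p ⬝ᵥ dx N p * γ p + dy N p ⬝ᵥ dy N p / β p))
    ((kγ.add (cd kx kx)).add (continuous_const.mul (((cd kx kx).mul kγ).add
      ((cd ky ky).div cβ.continuous fun p => (βpos p).ne'))))
  obtain ⟨M, hM⟩ : ∃ M, M = Real.exp (μ * 2) := ⟨_, rfl⟩
  obtain ⟨τ, hτ⟩ : ∃ τ, τ = K * M ^ 2 / 2 + 8 * K ^ 2 + 1 := ⟨_, rfl⟩
  have τ0 : 0 < τ := by rw [hτ]; positivity
  obtain ⟨l, hl⟩ : ∃ l : ℝ → ℝ, l = fun x => τ * Real.exp (μ * (x + 1)) := ⟨_, rfl⟩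
  obtain ⟨w, hw⟩ : ∃ w : ℝ → ℝ, w = fun x => Real.exp (l x / μ) := ⟨_, rfl⟩
  have dl : ∀ x, HasDerivAt l (μ * l x) x := fun x => by
    rw [hl]
    exact ((((hasDerivAt_id x).add_const 1).const_mul μ).exp.const_mul τ).congr_deriv
      (by simp only [id]; ring)
  have dw : ∀ x, HasDerivAt w (l x * w x) x := fun x => by
    rw [hw]
    exact ((dl x).div_const μ).exp.congr_deriv (by field_simp)
  have cl : ContDiff ℝ 1 l := by rw [hl]; fun_prop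
  have cw : ContDiff ℝ 1 w := by rw [hw]; fun_prop
  have kl : Continuous fun p : ℝ × ℝ => l p.1 := cl.continuous.comp continuous_fst
  have kw : Continuous fun p : ℝ × ℝ => w p.1 := cw.continuous.comp continuous_fst
  have w0 : ∀ x, 0 < w x := fun x => by rw [hw]; exact Real.exp_pos _
  have Hl : ∀ p : ℝ × ℝ, HD (fun q => l q.1) (μ * l p.1) 0 univ p := fun p => HD.of_deriv (dl p.1)
  have Hw : ∀ p : ℝ × ℝ, HD (fun q => w q.1) (l p.1 * w p.1) 0 univ p :=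
    fun p => HD.of_deriv (dw p.1)
  have HΦ := fun p => HD.of_c1 cΦ univ p
  have HN := fun p => HD.of_c1 cN univ p
  -- the Jacobian identity
  have ca : ContDiff ℝ 1 fun p => w p.1 • (N p ⨯₃ Φ p) :=
    (cw.comp contDiff_fst).smul (c1_cross cN cΦ)
  have Ha := fun p => (Hw p).smul ((HN p).cross (HΦ p))
  obtain ⟨a, ha⟩ : ∃ a : ℝ × ℝ → V, a = fun p => w p.1 • (N p ⨯₃ Φ p) := ⟨_, rfl⟩
  rw [← ha] at ca
  simp only [← ha] at Ha
  have ka : ∀ i, Continuous fun p => dx a p i * dy Φ p i - dy a p i * dx Φ p i := fun i => by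
    have := cont_dx ca
    have := cont_dy ca
    fun_prop
  have j : ∀ i, ∫ p in D, (dx a p i * dy Φ p i - dy a p i * dx Φ p i) = 0 := fun i => by
    have := null_jac (contDiff_pi.1 ca i) (contDiff_pi.1 cΦ i)
      (fun p hp => by simp [ha, h0 p hp])
    simp only [(HD.pi.1 (HD.of_c1 ca univ _) i).dx_eq, (HD.pi.1 (HD.of_c1 ca univ _) i).dy_eq,
      (HD.pi.1 (HΦ _) i).dx_eq, (HD.pi.1 (HΦ _) i).dy_eq] at this
    exact this
  have k1 : Continuous fun p => dx a p ⬝ᵥ dy Φ p - dy a p ⬝ᵥ dx Φ p :=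
    (cd (cont_dx ca) kQ).sub (cd (cont_dy ca) kP)
  have i1 : ∫ p in D, (dx a p ⬝ᵥ dy Φ p - dy a p ⬝ᵥ dx Φ p) = 0 := by
    have e1 := integral_add (intOn (ka 0)) (intOn (ka 1))
    have e2 := integral_add (intOn ((ka 0).add (ka 1))) (intOn (ka 2))
    simp only [Pi.add_apply] at e2
    rw [e1, j, j, j, add_zero, add_zero] at e2
    rw [← e2]
    congr 1
    funext p
    simp only [dot3]
    ring
  -- the two divergence identities
  have kU := cd kΦ kΦ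
  have k2 : Continuous fun p => ((μ * l p.1 * w p.1 + l p.1 * (l p.1 * w p.1)) * γ p +
      l p.1 * w p.1 * dx γ p) * (Φ p ⬝ᵥ Φ p) +
      l p.1 * w p.1 * γ p * (dx Φ p ⬝ᵥ Φ p + Φ p ⬝ᵥ dx Φ p) := by
    have := cd kP kΦ
    have := cd kΦ kP
    fun_prop
  have i2 := null_x (fun p => (((Hl p).mul (Hw p)).mul (HD.of_c1 cγ univ p)).mul
    ((HΦ p).dot (HΦ p))) k2 (fun p hp => by simp [h0 p hp])
  have k3 : Continuous fun p => ((0 * w p.1 + l p.1 * 0) * δ p +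
      l p.1 * w p.1 * dy δ p) * (Φ p ⬝ᵥ Φ p) +
      l p.1 * w p.1 * δ p * (dy Φ p ⬝ᵥ Φ p + Φ p ⬝ᵥ dy Φ p) := by
    have := cd kQ kΦ
    have := cd kΦ kQ
    fun_prop
  have i3 := null_y (fun p => (((Hl p).mul (Hw p)).mul (HD.of_c1 cδ univ p)).mul
    ((HΦ p).dot (HΦ p))) k3 (fun p hp => by simp [h0 p hp])
  have k4 : Continuous fun p => (l p.1 * w p.1 * (N p ⬝ᵥ Φ p) +
      w p.1 * (dx N p ⬝ᵥ Φ p + N p ⬝ᵥ dx Φ p)) * (N p ⬝ᵥ Φ p) +
      w p.1 * (N p ⬝ᵥ Φ p) * (dx N p ⬝ᵥ Φ p + N p ⬝ᵥ dx Φ p) := by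
    have := cd kN kΦ
    have := cd kx kΦ
    have := cd kN kP
    fun_prop
  have i4 := null_x (fun p => ((Hw p).mul ((HN p).dot (HΦ p))).mul ((HN p).dot (HΦ p))) k4
    (fun p hp => by simp [h0 p hp])
  obtain ⟨ε, hε⟩ : ∃ ε, ε * τ ^ 2 = 1 := ⟨(τ ^ 2)⁻¹, inv_mul_cancel₀ (by positivity)⟩
  have tot := integral_add
    (((intOn k2).sub (intOn k3)).sub ((intOn k1).const_mul (2 + 2 * ε)))
    ((intOn k4).const_mul (4 * K * τ))
  have t1 := integral_sub ((intOn k2).sub (intOn k3)) ((intOn k1).const_mul (2 + 2 * ε))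
  have t2 := integral_sub (intOn k2) (intOn k3)
  simp only [Pi.sub_apply] at tot t1
  rw [t1, t2, integral_const_mul, integral_const_mul, i1, i2, i3, i4] at tot
  have hz := zero_of_int (u := fun p => w p.1 * (Φ p ⬝ᵥ Φ p)) (kw.mul kU)
    (fun p _ => mul_nonneg (w0 _).le (dot_self_nonneg' _)) (by
      refine le_trans (setIntegral_mono_on (intOn (kw.mul kU))
        ((((intOn k2).sub (intOn k3)).sub ((intOn k1).const_mul (2 + 2 * ε))).add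
          ((intOn k4).const_mul (4 * K * τ))) isClosed_D.measurableSet fun p hp => ?_)
        (le_of_eq ?_)
      swap
      · simp only [Pi.add_apply, Pi.sub_apply]
        rw [tot]
        simp
      have hp1 : -1 ≤ p.1 ∧ p.1 ≤ 1 := by
        have : p.1 ^ 2 + p.2 ^ 2 ≤ 1 := hp
        exact abs_le.1 (abs_le_one_iff_mul_self_le_one.2 (by
          rw [← sq]; exact le_trans (le_add_of_nonneg_right (sq_nonneg _)) this))
      have l1 : τ ≤ l p.1 := by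
        rw [hl]
        exact le_mul_of_one_le_right τ0.le
          (Real.one_le_exp (mul_nonneg μ0.le (neg_le_iff_add_nonneg.1 hp1.1)))
      have l2 : l p.1 ≤ τ * M := by
        rw [hl, hM]
        exact mul_le_mul_of_nonneg_left
          (Real.exp_le_exp.2 (mul_le_mul_of_nonneg_left
            ((add_le_add_left hp1.2 1).trans_eq one_add_one_eq_two) μ0.le)) τ0.le
      simp only [Pi.add_apply, Pi.sub_apply, (Ha p).dx_eq, (Ha p).dy_eq]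
      exact point (NN p hp) (Nx p hp) (Ny p hp) (NP p hp) (hQ p hp) (βpos p) (γ0 p) (γβ p) (δβ p)
        (hμ p hp) (hK p hp) K0 hτ hε l1 l2 (w0 _))
  intro p hp
  exact dotProduct_self_eq_zero.1 ((mul_eq_zero.1 (hz p hp)).resolve_left (w0 _).ne')

end Pool.Agent.Lib.MP_c3ed84_gt.Cap
end

-- part Pool.Agent.Lib.MP_c3ed84_gt.CapE
section

/-!
An immersed constant mean curvature disc whose boundary is mapped injectively into a round circle
lies in a plane or in a sphere.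
-/

set_option autoImplicit false

open Matrix Set Filter Topology Real

namespace Pool.Agent.Lib.MP_c3ed84_gt.Cap

theorem bdry' {p v n Ψ χ η : ℝ → V} {e : V} {H : ℝ} (ee : e ⬝ᵥ e = 1) (pp : ∀ t, p t ⬝ᵥ p t = 1)
    (pe : ∀ t, p t ⬝ᵥ e = 0) (hp : ∀ t, HasDerivAt p (v t) t) (cv : Continuous v)
    (cn : Continuous n) (nn : ∀ t, n t ⬝ᵥ n t = 1) (nv : ∀ t, n t ⬝ᵥ v t = 0)
    (v0 : ∀ t, v t ≠ 0)
    (inj : ∀ t ∈ Ioo 0 (2 * π), p t ≠ p 0) (per : p (2 * π) = p 0)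
    (dΨ : ∀ t, HasDerivAt Ψ (w1 H (p t) (v t) (-(n t ⨯₃ v t))) t)
    (dχ : ∀ t, HasDerivAt χ (w2 H (p t) (Ψ t) (v t) (-(n t ⨯₃ v t))) t)
    (dη : ∀ t, HasDerivAt η (w3 H (p t) (Ψ t) (χ t) (v t) (-(n t ⨯₃ v t))) t)
    (pΨ : Ψ (2 * π) = Ψ 0) (pχ : χ (2 * π) = χ 0) (pη : η (2 * π) = η 0) :
    ∃ q : V, ∀ t ∈ Icc 0 (2 * π), n t + H • p t = q := by
  have cp : Continuous p := continuous_iff_continuousAt.2 fun t => (hp t).continuousAt
  have cσ : Continuous fun t => v t ⬝ᵥ (e ⨯₃ p t) := cont_dot cv (cont_ccross cp e)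
  have hne : ∀ t, v t ⬝ᵥ (e ⨯₃ p t) ≠ 0 := fun t h3 => by
    have h1 : v t ⬝ᵥ p t = 0 := by
      have d := deriv_dot (hp t) (hp t)
      simp only [pp] at d
      have := d.unique (hasDerivAt_const t 1)
      rw [dotProduct_comm (p t)] at this
      linarith
    have h2 : v t ⬝ᵥ e = 0 := by
      have d := deriv_dotc (hp t) e
      simp only [pe] at d
      exact d.unique (hasDerivAt_const t 0)
    have := frame ee (pp t) (pe t) (v t)
    rw [h1, h2, h3] at this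
    exact v0 t (by simpa using this)
  by_cases hpos : ∀ t, 0 < v t ⬝ᵥ (e ⨯₃ p t)
  · exact bdry ee pp pe hp cv cn nn nv hpos inj per dΨ dχ dη pΨ pχ pη
  · obtain ⟨t₀, h₀⟩ := not_forall.1 hpos
    refine bdry (e := -e) (by simpa using ee) pp (fun t => by simpa using pe t) hp cv cn nn nv
      (fun t => ?_) inj per dΨ dχ dη pΨ pχ pη
    simp only [map_neg, LinearMap.neg_apply, dotProduct_neg, neg_pos]
    by_contra h
    obtain ⟨u, hu⟩ := intermediate_value_univ t₀ t cσ ⟨not_lt.1 h₀, not_lt.1 h⟩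
    exact hne u hu

theorem exists_angle {x : ℝ × ℝ} (hx : x.1 ^ 2 + x.2 ^ 2 = 1) :
    ∃ t ∈ Icc 0 (2 * π), (cos t, sin t) = x := by
  have h1 : -1 ≤ x.1 := by nlinarith [sq_nonneg x.2]
  have h2 : x.1 ≤ 1 := by nlinarith [sq_nonneg x.2]
  have hs : sin (arccos x.1) = |x.2| := by
    rw [sin_arccos, ← sqrt_sq_eq_abs]
    congr 1
    linarith
  have a0 := arccos_nonneg x.1
  have a1 := arccos_le_pi x.1
  rcases le_total 0 x.2 with h | h
  · exact ⟨arccos x.1, ⟨a0, by linarith [pi_pos]⟩, by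
      rw [cos_arccos h1 h2, hs, abs_of_nonneg h]⟩
  · exact ⟨2 * π - arccos x.1, ⟨by linarith [pi_pos], by linarith⟩, by
      rw [cos_two_pi_sub, sin_two_pi_sub, cos_arccos h1 h2, hs, abs_of_nonpos h, neg_neg]⟩

variable {f N : ℝ × ℝ → V} {α β : ℝ × ℝ → ℝ} {H : ℝ}

theorem Geo.unit (g : Geo f N α β H) {e : V} (ee : e ⬝ᵥ e = 1)
    (hb : ∀ x : ℝ × ℝ, x.1 ^ 2 + x.2 ^ 2 = 1 → f x ⬝ᵥ f x = 1 ∧ f x ⬝ᵥ e = 0)
    (inj : InjOn f {x | x.1 ^ 2 + x.2 ^ 2 = 1}) : ∃ q : V, ∀ x ∈ D, N x + H • f x = q := by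
  obtain ⟨Ψ, χ, η, hd⟩ := g.potentials
  have hc : ∀ t : ℝ, ((cos t, sin t) : ℝ × ℝ).1 ^ 2 + ((cos t, sin t) : ℝ × ℝ).2 ^ 2 = 1 :=
    fun t => cos_sq_add_sin_sq t
  have hD : ∀ t : ℝ, (cos t, sin t) ∈ D := fun t => (hc t).le
  have kx := cont_dx g.c1
  have ky := cont_dy g.c1
  have kN := g.cN.continuous
  have hper : (cos (2 * π), sin (2 * π)) = (cos 0, sin 0) := by simp
  obtain ⟨q, hq⟩ := bdry' (p := fun t => f (cos t, sin t))
    (v := fun t => -sin t • dx f (cos t, sin t) + cos t • dy f (cos t, sin t))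
    (n := fun t => N (cos t, sin t)) (Ψ := fun t => Ψ (cos t, sin t))
    (χ := fun t => χ (cos t, sin t)) (η := fun t => η (cos t, sin t)) (H := H) ee
    (fun t => (hb _ (hc t)).1) (fun t => (hb _ (hc t)).2)
    (fun t => (HD.of_c1 g.c1 D _).circle) (by fun_prop) (by fun_prop) (fun t => g.NN _ (hD t))
    (fun t => by
      rw [dotProduct_add, dotProduct_smul, dotProduct_smul, g.NA _ (hD t), g.NB (hD t)]; simp)
    (fun t h => by
      have hA := dot_self_pos' (g.A0 _ (hD t))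
      have hNA := g.NA _ (hD t)
      have hNN := g.NN _ (hD t)
      have hβ := g.βpos (cos t, sin t)
      rw [g.hB _ (hD t)] at h
      generalize dx f (cos t, sin t) = A at *
      generalize N (cos t, sin t) = n at *
      have h1 := congrArg (fun z => z ⬝ᵥ (n ⨯₃ A)) h
      have h2 := congrArg (fun z => z ⬝ᵥ A) h
      simp only [add_dotProduct, smul_dotProduct, dot_cross_self, cross_dot_cross, hNN, hNA,
        smul_eq_mul, zero_dotProduct, dotProduct_comm (n ⨯₃ A) A] at h1 h2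
      have hcos : cos t = 0 := by
        have : cos t * (β (cos t, sin t) * (A ⬝ᵥ A)) = 0 := by linear_combination h1
        exact (mul_eq_zero.1 this).resolve_right (mul_pos hβ hA).ne'
      have hsin : sin t = 0 := by
        rw [hcos] at h2
        have : sin t * (A ⬝ᵥ A) = 0 := by linear_combination -h2
        exact (mul_eq_zero.1 this).resolve_right hA.ne'
      have := cos_sq_add_sin_sq t
      rw [hcos, hsin] at this
      norm_num at this)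
    (fun t ht h => by
      have := congrArg Prod.fst (inj (hc t) (hc 0) h)
      simp only [cos_zero] at this
      exact ht.1.ne' ((cos_eq_one_iff_of_lt_of_lt (by linarith [ht.1, pi_pos]) ht.2).1 this))
    (by simp only [hper])
    (fun t => (hd _ (hD t)).1.circle.congr_deriv (by
      apply vext <;> simp only [w1, cr0, cr1, cr2, Pi.add_apply, Pi.sub_apply, Pi.smul_apply,
        Pi.neg_apply, smul_eq_mul] <;> ring))
    (fun t => (hd _ (hD t)).2.1.circle.congr_deriv (by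
      apply vext <;> simp only [w2, cr0, cr1, cr2, Pi.add_apply, Pi.smul_apply,
        Pi.neg_apply, smul_eq_mul] <;> ring))
    (fun t => (hd _ (hD t)).2.2.circle.congr_deriv (by
      apply vext <;> simp only [w3, cr0, cr1, cr2, Pi.add_apply, Pi.sub_apply, Pi.smul_apply,
        Pi.neg_apply, smul_eq_mul] <;> ring))
    (by simp only [hper]) (by simp only [hper]) (by simp only [hper])
  have HΦ : ∀ x, HD (fun x => N x + H • f x - q) (dx N x + H • dx f x) (dy N x + H • dy f x)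
      univ x := fun x =>
    (((HD.of_c1 g.cN univ x).add ((HD.of_c1 g.c1 univ x).const_smul H)).sub (HD.const q)).congr'
      (sub_zero _) (sub_zero _)
  have := uc (Φ := fun x => N x + H • f x - q) ((g.cN.add (g.c1.const_smul H)).sub contDiff_const)
    g.cN g.cα g.cβ g.βpos g.NN (fun x hx => (g.NNx hx).1) (fun x hx => (g.NNx hx).2)
    (fun x hx => by
      rw [(HΦ x).dx_eq, dotProduct_add, dotProduct_smul, (g.NNx hx).1, g.NA x hx]; simp)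
    (fun x hx => by rw [(HΦ x).dx_eq, (HΦ x).dy_eq]; exact g.hQ x hx)
    (fun x hx => by
      obtain ⟨t, ht, rfl⟩ := exists_angle hx
      exact sub_eq_zero.2 (hq t ht))
  exact ⟨q, fun x hx => sub_eq_zero.1 (this x hx)⟩

theorem Geo.main (g : Geo f N α β H) {c ν : V} {r : ℝ} (hr : 0 < r) (hν : ν ≠ 0)
    (hb : ∀ x : ℝ × ℝ, x.1 ^ 2 + x.2 ^ 2 = 1 →
      (f x - c) ⬝ᵥ (f x - c) = r ^ 2 ∧ (f x - c) ⬝ᵥ ν = 0)
    (inj : InjOn f {x | x.1 ^ 2 + x.2 ^ 2 = 1}) :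
    (∃ c ν : V, ν ≠ 0 ∧ ∀ x ∈ D, (f x - c) ⬝ᵥ ν = 0) ∨
      ∃ c : V, ∃ R : ℝ, ∀ x ∈ D, (f x - c) ⬝ᵥ (f x - c) = R ^ 2 := by
  have hν2 := dot_self_pos' hν
  have hs := sqrt_pos.2 hν2
  obtain ⟨q, hq⟩ := (g.scale c hr).unit (e := (√(ν ⬝ᵥ ν))⁻¹ • ν)
    (by
      rw [smul_dotProduct, dotProduct_smul, smul_eq_mul, smul_eq_mul]
      field_simp
      exact (sq_sqrt hν2.le).symm)
    (fun x hx => by
      simp only [smul_dotProduct, dotProduct_smul, smul_eq_mul, (hb x hx).1, (hb x hx).2]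
      exact ⟨by field_simp, by simp⟩)
    (fun x hx y hy h => inj hx hy (by
      have := smul_right_injective _ (inv_ne_zero hr.ne') h
      simpa using this))
  have e : ∀ X : V, (r * H) • r⁻¹ • X = H • X := fun X => by
    rw [smul_smul]; congr 1; field_simp
  simp only [e] at hq
  have h0 : (0 : ℝ × ℝ) ∈ D := by simp [D]
  by_cases hH : H = 0
  · simp only [hH, zero_smul, add_zero] at hq
    refine Or.inl ⟨f 0, q, fun h => ?_, fun x hx => ?_⟩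
    · have := g.NN 0 h0
      simp [hq 0 h0, h] at this
    · have hd : ∀ y ∈ D, HasFDerivWithinAt (fun y => f y ⬝ᵥ q) (0 : ℝ × ℝ →L[ℝ] ℝ) D y := by
        intro y hy
        have := ((HD.of_c1 g.c1 D y).dot (HD.const q)).congr' (a' := 0) (b' := 0)
          (by rw [← hq y hy, dotProduct_comm, g.NA y hy]; simp)
          (by rw [← hq y hy, dotProduct_comm, g.NB hy]; simp)
        have e0 : L (0 : ℝ) 0 = 0 := by ext <;> simp
        unfold HD at this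
        rwa [e0] at this
      have := convex_D.norm_image_sub_le_of_norm_hasFDerivWithin_le (C := 0) hd
        (fun _ _ => by simp) h0 hx
      rw [sub_dotProduct]
      simpa using this
  · refine Or.inr ⟨c + H⁻¹ • q, H⁻¹, fun x hx => ?_⟩
    have : f x - (c + H⁻¹ • q) = -(H⁻¹ • N x) := by
      rw [← hq x hx, smul_add, smul_smul, inv_mul_cancel₀ hH, one_smul]
      abel
    rw [this, neg_dotProduct, dotProduct_neg, neg_neg, smul_dotProduct, dotProduct_smul, g.NN x hx]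
    simp [sq]

end Pool.Agent.Lib.MP_c3ed84_gt.Cap
end
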